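import Pool.Agent.Lib.MP_4eed4e_an_XO.OHull
import Pool.Agent.Lib.MP_4eed4e_an_P.OutG

set_option autoImplicit false

/-!
Project X, block O: the boundary of a convex polygon; uniqueness of the inside.
-/

namespace Pool.Agent.MP4eed4eX.XO

open Set Pool.Agent.MP4eed4eP

private theorem OFr_pe {m : ℕ} (p : Fin (m + 3) → P) {i j : Fin (m + 3)}
    (hj : (j : ℕ) = i + 1) : pe p ((i : ℕ) + 1) = p j := by
  unfold pe
  congr 1
  apply Fin.ext
  have hlt := j.2
  rw [← hj]
  show (j : ℕ) % (m + 3) = j
  exact Nat.mod_eq_of_lt hlt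

private theorem OFr_pe0 {m : ℕ} (p : Fin (m + 3) → P) {i : Fin (m + 3)}
    (hi : (i : ℕ) + 1 = m + 3) : pe p ((i : ℕ) + 1) = p 0 := by
  unfold pe
  congr 1
  apply Fin.ext
  rw [hi]
  show (m + 3) % (m + 3) = 0
  exact Nat.mod_self _

private theorem OFr_comp {m : ℕ} (p : Fin (m + 3) → P) :
    IsCompact (convexHull ℝ (range p)) :=
  (finite_range p).isCompact_convexHull (𝕜 := ℝ)

private theorem OFr_seg {a b x : P} (hx : x ∈ segment ℝ a b) : det2 (b - a) (x - a) = 0 := by
  rw [segment_eq_image] at hx
  obtain ⟨t, -, rfl⟩ := hx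
  simp only [det2, Prod.fst_sub, Prod.snd_sub, Prod.fst_add, Prod.snd_add, Prod.smul_fst,
    Prod.smul_snd, smul_eq_mul]
  ring

private theorem OFr_fr {m : ℕ} {p : Fin (m + 3) → P} (h : Ccw p) :
    frontier (Kp p) = convexHull ℝ (range p) \ Kp p := by
  have h1 : closure (Kp p) = convexHull ℝ (range p) := by
    unfold Kp
    rw [(convex_convexHull ℝ (range p)).closure_interior_eq_closure_of_nonempty_interior
      h.nonempty]
    exact (OFr_comp p).isClosed.closure_eq
  rw [frontier, h1]
  unfold Kp
  rw [interior_interior]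

/-- Let `C` be the hull of the vertices: compact, convex, with nonempty interior (`Ccw.nonempty`,
OutG.lean), so `closure (Kp p) = C` (`Convex.closure_interior_eq_closure_of_nonempty_interior`) and
`frontier (Kp p) = C \ Kp p`. If `x ∈ C`, `x ∉ Kp p`: by `sf_hull` and `mem_Kp` some `sf p i x = 0`, so
`x ∈ [p i, pe p (i + 1)]` by `sf_zero`; this is an edge of `cyc (m + 3)` (for the last index use
`segment_symm`). Conversely the points of the edge are in `C` and `sf p i = 0` there; every vertex is
on an edge. -/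
theorem frontier_Kp {m : ℕ} {p : Fin (m + 3) → P} (h : Ccw p) :
    frontier (Kp p) = Gr p (cyc (m + 3)) := by
  rw [OFr_fr h]
  ext x
  constructor
  · rintro ⟨hx1, hx2⟩
    rw [mem_Kp h, not_forall] at hx2
    obtain ⟨i, hi⟩ := hx2
    have h0 : sf p i x = 0 := le_antisymm (not_lt.1 hi) (sf_hull h i hx1)
    have hs := sf_zero h i hx1 h0
    right
    rw [mem_iUnion₂]
    by_cases hm : (i : ℕ) + 1 < m + 3
    · refine ⟨(i, ⟨i + 1, hm⟩), ?_, ?_⟩
      · rw [cyc, Finset.mem_filter]
        refine ⟨Finset.mem_univ _, ?_, Or.inl rfl⟩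
        exact Fin.lt_def.2 (Nat.lt_succ_self _)
      · rw [OFr_pe p (j := ⟨i + 1, hm⟩) rfl] at hs
        exact hs
    · have hi' : (i : ℕ) + 1 = m + 3 := by
        have := i.2
        omega
      refine ⟨(0, i), ?_, ?_⟩
      · rw [cyc, Finset.mem_filter]
        refine ⟨Finset.mem_univ _, ?_, Or.inr ⟨rfl, hi'⟩⟩
        refine Fin.lt_def.2 ?_
        show 0 < (i : ℕ)
        omega
      · rw [OFr_pe0 p hi', segment_symm] at hs
        exact hs
  · intro hx
    rcases hx with ⟨k, rfl⟩ | hx
    · refine ⟨subset_convexHull ℝ _ (mem_range_self k), fun hk => ?_⟩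
      have h1 := (mem_Kp h _).1 hk k
      have h2 : sf p k (p k) = 0 := by
        simp only [sf, sub_self, det2, Prod.fst_zero, Prod.snd_zero, mul_zero]
      linarith
    · rw [mem_iUnion₂] at hx
      obtain ⟨e, he, hx⟩ := hx
      refine ⟨(convex_convexHull ℝ _).segment_subset
        (subset_convexHull ℝ _ (mem_range_self e.1))
        (subset_convexHull ℝ _ (mem_range_self e.2)) hx, fun hk => ?_⟩
      rw [cyc, Finset.mem_filter] at he
      obtain ⟨-, -, he⟩ := he
      rcases he with he | ⟨he0, he⟩
      · have h1 := (mem_Kp h _).1 hk e.1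
        have h2 : sf p e.1 x = 0 := by
          unfold sf
          rw [OFr_pe p he]
          exact OFr_seg hx
        linarith
      · have h1 := (mem_Kp h _).1 hk e.2
        have h2 : sf p e.2 x = 0 := by
          unfold sf
          have e0 : e.1 = 0 := Fin.ext he0
          rw [OFr_pe0 p he, ← e0]
          rw [segment_symm] at hx
          exact OFr_seg hx
        linarith

/-- `slg_ccw`, `isOpen_interior`, `bounded_Kp` (or: the hull of a finite set is bounded),
`frontier_Kp`. -/
theorem fig_Kp' {m : ℕ} {p : Fin (m + 3) → P} (h : Ccw p) : Fig (Kp p) p (cyc (m + 3)) :=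
  ⟨slg_ccw h, isOpen_interior, (OFr_comp p).isBounded.subset interior_subset, frontier_Kp h⟩

private theorem OFr_sub {D H : Set P} (hD : IsOpen D) (hH : IsPreconnected H)
    (h1 : Disjoint H (frontier D)) (h2 : (H ∩ D).Nonempty) : H ⊆ D := by
  have hd : Disjoint D (closure D)ᶜ :=
    disjoint_compl_right.mono_left subset_closure
  refine hH.subset_left_of_subset_union hD isClosed_closure.isOpen_compl hd ?_ h2
  intro y hy
  by_cases hyD : y ∈ D
  · exact Or.inl hyD
  · right
    intro hyc
    refine Set.disjoint_left.1 h1 hy ?_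
    rw [hD.frontier_eq]
    exact ⟨hyc, hyD⟩

private theorem OFr_half {m : ℕ} (p : Fin (m + 3) → P) (i : Fin (m + 3)) :
    Convex ℝ {y | sf p i y < 0} := by
  intro y hy z hz a b ha hb hab
  simp only [mem_ofPred_eq] at hy hz ⊢
  have e : sf p i (a • y + b • z) = a * sf p i y + b * sf p i z := by
    have hb' : b = 1 - a := by linarith
    subst hb'
    simp only [sf, det2, Prod.fst_sub, Prod.snd_sub, Prod.fst_add, Prod.snd_add,
      Prod.smul_fst, Prod.smul_snd, smul_eq_mul]
    ring
  rw [e]
  have h1 : a * sf p i y ≤ a * max (sf p i y) (sf p i z) :=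
    mul_le_mul_of_nonneg_left (le_max_left _ _) ha
  have h2 : b * sf p i z ≤ b * max (sf p i y) (sf p i z) :=
    mul_le_mul_of_nonneg_left (le_max_right _ _) hb
  have h3 : max (sf p i y) (sf p i z) < 0 := max_lt hy hz
  have h4 : a * max (sf p i y) (sf p i z) + b * max (sf p i y) (sf p i z) =
      max (sf p i y) (sf p i z) := by
    rw [← add_mul, hab, one_mul]
  linarith

/-- `frontier D = frontier (Kp p)` by `frontier_Kp`. `D` is open, so disjoint from its frontier.
(1) `D ⊆ C` (the closed hull): let `x ∈ D`, `x ∉ C`. Separate `x` from `C` (`geometric_hahn_banach`, or: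
some `sf p i x < 0` by `sf_mem`): the open half plane `H = {y | sf p i y < 0}` contains `x` and is
disjoint from `C`, so from `frontier D ⊆ C`. `H` is convex, so preconnected, and meets `D`, so `H ⊆ D`
(`IsPreconnected.subset_of_closure_inter_subset` or `isPreconnected_iff...`; `D` is open and
`closure D \ D = frontier D` does not meet `H`). But `H` is not bounded, `D` is bounded. (2) So
`D ⊆ C \ frontier (Kp p) = Kp p`. (3) `D` is not empty (its frontier contains `p 0`), `Kp p` is convex
and disjoint from `frontier D`, and meets `D`, so `Kp p ⊆ D` in the same way. -/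
theorem fig_ccw' {m : ℕ} {p : Fin (m + 3) → P} (h : Ccw p) {D : Set P}
    (hD : Fig D p (cyc (m + 3))) : D = Kp p := by
  have hfr : frontier D = frontier (Kp p) := by rw [hD.fr, frontier_Kp h]
  have hfC : frontier D ⊆ convexHull ℝ (range p) := by
    rw [hfr, OFr_fr h]
    exact sdiff_subset
  have h1 : D ⊆ convexHull ℝ (range p) := by
    intro x hx
    by_contra hxC
    have hex : ∃ i, sf p i x < 0 := by
      by_contra hcon
      push Not at hcon
      exact hxC (sf_mem h hcon)
    obtain ⟨i, hi⟩ := hex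
    have hH : {y | sf p i y < 0} ⊆ D := by
      refine OFr_sub hD.op (OFr_half p i).isPreconnected ?_ ⟨x, hi, hx⟩
      rw [Set.disjoint_left]
      intro y hy hy2
      have := sf_hull h i (hfC hy2)
      have hy' : sf p i y < 0 := hy
      linarith
    obtain ⟨R, hR⟩ := hD.bdd.exists_norm_le
    set e : P := pe p ((i : ℕ) + 1) - p i with he
    have hne : e ≠ 0 := by
      intro h0
      have : sf p i x = 0 := by
        show det2 e (x - p i) = 0
        rw [h0]
        simp only [det2, Prod.fst_zero, Prod.snd_zero, zero_mul, sub_self]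
      linarith
    have hpos : 0 < ‖e‖ := norm_pos_iff.2 hne
    have hall : ∀ T : ℝ, ‖x + T • e‖ ≤ R := by
      intro T
      apply hR
      apply hH
      have e1 : sf p i (x + T • e) = sf p i x := by
        show det2 e (x + T • e - p i) = det2 e (x - p i)
        simp only [det2, Prod.fst_sub, Prod.snd_sub, Prod.fst_add, Prod.snd_add,
          Prod.smul_fst, Prod.smul_snd, smul_eq_mul]
        ring
      show sf p i (x + T • e) < 0
      rw [e1]
      exact hi
    have hR0 : 0 ≤ R := le_trans (norm_nonneg _) (hall 0)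
    have hT := hall ((R + ‖x‖ + 1) / ‖e‖)
    have h5 : ‖((R + ‖x‖ + 1) / ‖e‖) • e‖ = R + ‖x‖ + 1 := by
      rw [norm_smul, Real.norm_eq_abs, abs_of_nonneg (by positivity),
        div_mul_cancel₀ _ hpos.ne']
    have h6 : ‖((R + ‖x‖ + 1) / ‖e‖) • e‖ ≤ ‖x + ((R + ‖x‖ + 1) / ‖e‖) • e‖ + ‖x‖ := by
      have := norm_sub_le (x + ((R + ‖x‖ + 1) / ‖e‖) • e) x
      rwa [add_sub_cancel_left] at this
    linarith
  have h2 : D ⊆ Kp p := by
    intro x hx
    by_contra hxK
    have hxf : x ∈ frontier D := by
      rw [hfr, OFr_fr h]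
      exact ⟨h1 hx, hxK⟩
    have := hD.op.inter_frontier_eq
    have h3 : x ∈ D ∩ frontier D := ⟨hx, hxf⟩
    rw [this] at h3
    exact h3
  apply Subset.antisymm h2
  have hne : D.Nonempty := by
    have h3 : p 0 ∈ frontier D := by
      rw [hD.fr]
      exact Or.inl (mem_range_self 0)
    have h4 : (closure D).Nonempty := ⟨p 0, frontier_subset_closure h3⟩
    exact closure_nonempty_iff.1 h4
  obtain ⟨x, hx⟩ := hne
  refine OFr_sub hD.op ?_ ?_ ⟨x, h2 hx, hx⟩
  · exact (convex_convexHull ℝ (range p)).interior.isPreconnected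
  · rw [hfr]
    have : Kp p ∩ frontier (Kp p) = ∅ :=
      (isOpen_interior : IsOpen (interior (convexHull ℝ (range p)))).inter_frontier_eq
    exact Set.disjoint_iff_inter_eq_empty.2 this

end Pool.Agent.MP4eed4eX.XO
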