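import Pool.Agent.Lib.MP_4eed4e_an_XO.OJoin
import Pool.Agent.Lib.MP_4eed4e_an_XO.OFr
import Pool.Agent.Lib.MP_4eed4e_an_X.OutK

set_option autoImplicit false

/-!
Project X, block O: every simple polygon has exactly one inside (Jordan curve theorem for polygons,
by deformation to a convex polygon).
-/

namespace Pool.Agent.MP4eed4eX.XO

open Set Filter Topology Pool.Agent.MP4eed4eP

/-- `chart` and `exists_hat` (OutK.lean): for `p' = p + d` close to `p`, `D ↦ ph b d '' D` is a
surjection from the `Fig`s over `p` to those over `p'`, injective because `ph b d` is injective (it is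
a homeomorphism `φ`); so there is exactly one over `p` iff there is exactly one over `p'`. -/
theorem uni_near {n : ℕ} {p : Fin n → P} {E : Finset (Fin n × Fin n)} (h : SLG p E) :
    ∀ᶠ p' in 𝓝 p, ((∃! D : Set P, Fig D p E) ↔ ∃! D : Set P, Fig D p' E) := by
  obtain ⟨b, hb⟩ := exists_hat h
  obtain ⟨ρ, hρ, hc⟩ := chart h hb
  filter_upwards [Metric.ball_mem_nhds p hρ] with p' hp'
  have hlt : ‖p' - p‖ < ρ := by rwa [← dist_eq_norm]
  obtain ⟨⟨φ, hφ⟩, -, h1, h2⟩ := hc (p' - p) hlt
  have e : (fun i => p i + (p' - p) i) = p' := by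
    funext i
    simp
  rw [e] at h1 h2
  have hinj : Function.Injective (ph b (p' - p)) := by
    intro x y hxy
    rw [← hφ x, ← hφ y] at hxy
    exact φ.injective hxy
  constructor
  · rintro ⟨D, hD, hu⟩
    refine ⟨_, h1 D hD, fun D' hD' => ?_⟩
    obtain ⟨D1, hD1, rfl⟩ := h2 D' hD'
    rw [hu D1 hD1]
  · rintro ⟨D', hD', hu⟩
    obtain ⟨D, hD, hDD⟩ := h2 D' hD'
    refine ⟨D, hD, fun D1 hD1 => ?_⟩
    apply hinj.image_injective
    rw [← hDD]
    exact hu _ (h1 D1 hD1)

/-- Along a path `γ` in `SS n` the set of the `t` such that there is exactly one `Fig` over `γ t` is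
open and its complement is open (`uni_near`, continuity of `γ`); the unit interval is connected
(`IsPreconnected`, `IsClopen.eq_univ` or `IsLocallyConstant`). -/
theorem uni_joined {n : ℕ} {p q : Fin n → P} (h : JoinedIn (SS n) p q)
    (hq : ∃! D : Set P, Fig D q (cyc n)) : ∃! D : Set P, Fig D p (cyc n) := by
  have key : ∀ t, ∀ᶠ t' in 𝓝 t, ((∃! D : Set P, Fig D (h.somePath t) (cyc n)) ↔
      ∃! D : Set P, Fig D (h.somePath t') (cyc n)) := fun t =>
    (h.somePath.continuous.tendsto t).eventually (uni_near (h.somePath_mem t))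
  have hcl : IsClopen {t : unitInterval | ∃! D : Set P, Fig D (h.somePath t) (cyc n)} := by
    constructor
    · rw [← isOpen_compl_iff, isOpen_iff_mem_nhds]
      intro t ht
      filter_upwards [key t] with t' ht' h1
      exact ht (ht'.2 h1)
    · rw [isOpen_iff_mem_nhds]
      intro t ht
      filter_upwards [key t] with t' ht'
      exact ht'.1 ht
  have huniv := hcl.eq_univ ⟨1, by
    show ∃! D : Set P, Fig D (h.somePath 1) (cyc n)
    rw [h.somePath.target]
    exact hq⟩
  have h0 : (0 : unitInterval) ∈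
      {t : unitInterval | ∃! D : Set P, Fig D (h.somePath t) (cyc n)} := by
    rw [huniv]
    exact mem_univ _
  have h1 : ∃! D : Set P, Fig D (h.somePath 0) (cyc n) := h0
  rwa [h.somePath.source] at h1

/-- The reflection as a linear homeomorphism. -/
private noncomputable def rho : P ≃L[ℝ] P :=
  (ContinuousLinearEquiv.refl ℝ ℝ).prodCongr (ContinuousLinearEquiv.neg ℝ)

private theorem rho_apply (x : P) : rho x = (x.1, -x.2) := rfl

private theorem rho_rho (D : Set P) : rho '' (rho '' D) = D := by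
  rw [image_image]
  simp [rho_apply]

private theorem rho_Gr {n : ℕ} (q : Fin n → P) (E : Finset (Fin n × Fin n)) :
    rho '' Gr q E = Gr (rf q) E := by
  have hseg : ∀ a b : P, rho '' segment ℝ a b = segment ℝ (rho a) (rho b) := fun a b =>
    image_segment ℝ rho.toLinearEquiv.toLinearMap.toAffineMap a b
  unfold Gr
  rw [image_union, ← range_comp, image_iUnion₂]
  simp only [hseg]
  rfl

private theorem rho_fig {n : ℕ} {q : Fin n → P} {E : Finset (Fin n × Fin n)} {D : Set P}
    (h : Fig D q E) : Fig (rho '' D) (rf q) E := by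
  refine ⟨slg_rf h.slg, rho.toHomeomorph.isOpenMap D h.op, ?_, ?_⟩
  · exact (h.bdd.isCompact_closure.image rho.continuous).isBounded.subset
      (image_mono subset_closure)
  · have h1 : rho '' frontier D = frontier (rho '' D) := rho.toHomeomorph.image_frontier D
    rw [← h1, h.fr, rho_Gr]

/-- The reflection `ρ (x, y) = (x, -y)` is a linear homeomorphism: `Fig D q E → Fig (ρ '' D) (rf q) E`
(`slg_rf`; `frontier (ρ '' D) = ρ '' frontier D`, and `ρ` maps segments to segments), and `ρ ρ = id`,
`rf (rf q) = q`. -/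
theorem uni_rf {n : ℕ} {q : Fin n → P} {E : Finset (Fin n × Fin n)}
    (h : ∃! D : Set P, Fig D (rf q) E) : ∃! D : Set P, Fig D q E := by
  obtain ⟨D, hD, hu⟩ := h
  refine ⟨rho '' D, ?_, fun D' hD' => ?_⟩
  · have h1 := rho_fig hD
    rwa [rf_rf] at h1
  · rw [← hu _ (rho_fig hD'), rho_rho]

/-- For `Ccw q`: `fig_Kp'`, `fig_ccw'`. For a simple `p`: `joined'`, `uni_joined`, `uni_rf`. -/
theorem exists_unique_fig {m : ℕ} {p : Fin (m + 3) → P} (h : SLG p (cyc (m + 3))) :
    ∃! D : Set P, Fig D p (cyc (m + 3)) := by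
  obtain ⟨q, hj, hq⟩ := joined' m p h
  refine uni_joined hj ?_
  rcases hq with hq | hq
  · exact ⟨Kp q, fig_Kp' hq, fun D hD => fig_ccw' hq hD⟩
  · exact uni_rf ⟨Kp (rf q), fig_Kp' hq, fun D hD => fig_ccw' hq hD⟩

end Pool.Agent.MP4eed4eX.XO
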