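import Pool.Agent.Lib.MP_4eed4e_an_XO.ODefs

set_option autoImplicit false

/-!
Project X, block O: insertion of the midpoint of the closing edge.
-/

namespace Pool.Agent.MP4eed4eX.XO

open Set Pool.Agent.MP4eed4eP

private theorem OIns_half {a b c : P} (hc : c = (1 / 2 : ℝ) • a + (1 / 2 : ℝ) • b) :
    openSegment ℝ a b = openSegment ℝ a c ∪ {c} ∪ openSegment ℝ c b := by
  subst hc
  ext x
  constructor
  · rintro ⟨s, t, hs, ht, hst, rfl⟩
    obtain rfl : s = 1 - t := by linarith
    rcases lt_trichotomy t (1 / 2) with h | h | h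
    · refine Or.inl (Or.inl ⟨1 - 2 * t, 2 * t, by linarith, by linarith, by ring, ?_⟩)
      module
    · refine Or.inl (Or.inr ?_)
      rw [mem_singleton_iff, h]
      module
    · refine Or.inr ⟨2 - 2 * t, 2 * t - 1, by linarith, by linarith, by ring, ?_⟩
      module
  · rintro ((⟨s, t, hs, ht, hst, rfl⟩ | rfl) | ⟨s, t, hs, ht, hst, rfl⟩)
    · obtain rfl : s = 1 - t := by linarith
      refine ⟨1 - t / 2, t / 2, by linarith, by linarith, by ring, ?_⟩
      module
    · exact ⟨1 / 2, 1 / 2, by norm_num, by norm_num, by norm_num, rfl⟩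
    · obtain rfl : s = 1 - t := by linarith
      refine ⟨(1 - t) / 2, (1 + t) / 2, by linarith, by linarith, by ring, ?_⟩
      module

private theorem OIns_disj {a b c : P} (hc : c = (1 / 2 : ℝ) • a + (1 / 2 : ℝ) • b)
    (hab : a ≠ b) : Disjoint (openSegment ℝ a c) (openSegment ℝ c b) := by
  subst hc
  rw [Set.disjoint_left]
  rintro x ⟨s, t, hs, ht, hst, rfl⟩ ⟨s', t', hs', ht', hst', h⟩
  obtain rfl : s = 1 - t := by linarith
  obtain rfl : t' = 1 - s' := by linarith
  have h1 : (1 - (t + s') / 2) • (a - b) = 0 := by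
    have e : (1 - (t + s') / 2) • (a - b) = ((1 - t) • a + t • ((1 / 2 : ℝ) • a + (1 / 2 : ℝ) • b))
        - (s' • ((1 / 2 : ℝ) • a + (1 / 2 : ℝ) • b) + (1 - s') • b) := by module
    rw [e, h, sub_self]
  rcases smul_eq_zero.1 h1 with h2 | h2
  · linarith
  · exact hab (sub_eq_zero.1 h2)

/-- The open segment `(a, b)` is the union of `(a, c)`, `{c}` and `(c, b)` for its midpoint `c`, and
these are disjoint if `a ≠ b`. With `a = q (Fin.last _)`, `b = q 0`, `c = mi q` all fields of one
structure follow from the fields of the other one. -/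
theorem ins {m : ℕ} (q : Fin (m + 3) → P) : Snc q (mi q) ↔ Snq q := by
  have hc : mi q = (1 / 2 : ℝ) • q (Fin.last (m + 2)) + (1 / 2 : ℝ) • q 0 := rfl
  have hu := OIns_half hc
  have hs1 : openSegment ℝ (q (Fin.last (m + 2))) (mi q) ⊆
      openSegment ℝ (q (Fin.last (m + 2))) (q 0) := by
    rw [hu]; exact fun x hx => Or.inl (Or.inl hx)
  have hs2 : openSegment ℝ (mi q) (q 0) ⊆ openSegment ℝ (q (Fin.last (m + 2))) (q 0) := by
    rw [hu]; exact fun x hx => Or.inr hx
  have hcm : mi q ∈ openSegment ℝ (q (Fin.last (m + 2))) (q 0) := by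
    rw [hu]; exact Or.inl (Or.inr rfl)
  constructor
  · intro h
    refine ⟨h.inj, h.vert, h.disj, ?_, ?_⟩
    · intro k hk
      rw [hu] at hk
      rcases hk with (hk | hk) | hk
      · exact h.v1 k hk
      · exact h.nez k hk
      · exact h.v2 k hk
    · intro i j hij
      rw [hu, Set.disjoint_union_right, Set.disjoint_union_right]
      refine ⟨⟨h.d1 i j hij, ?_⟩, h.d2 i j hij⟩
      rw [Set.disjoint_singleton_right]
      exact h.vz i j hij
  · intro h
    refine ⟨h.inj, ?_, h.vert, h.disj, ?_, ?_, ?_, ?_, ?_, ?_⟩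
    · intro i hi
      exact h.v0 i (by rw [hi]; exact hcm)
    · intro i j hij hz
      exact Set.disjoint_left.mp (h.d0 i j hij) hz hcm
    · exact fun k hk => h.v0 k (hs1 hk)
    · exact fun k hk => h.v0 k (hs2 hk)
    · exact fun i j hij => (h.d0 i j hij).mono_right hs1
    · exact fun i j hij => (h.d0 i j hij).mono_right hs2
    · refine OIns_disj hc fun e => ?_
      have := h.inj e
      simp [Fin.ext_iff] at this

end Pool.Agent.MP4eed4eX.XO
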