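import Pool.Agent.Lib.MP_4eed4e_an_XO.OSnc
import Pool.Agent.Lib.MP_4eed4e_an_XO.OIns

set_option autoImplicit false

/-!
Project X, block O: triangles, reflections, insertion as a continuous map.
-/

namespace Pool.Agent.MP4eed4eX.XO

open Set Pool.Agent.MP4eed4eP

private theorem OBase_par {w v : P} (hw : w ≠ 0) (h : det2 w v = 0) : ∃ t : ℝ, v = t • w := by
  unfold det2 at h
  by_cases h1 : w.1 = 0
  · have h2 : w.2 ≠ 0 := fun h2 => hw (Prod.ext h1 h2)
    have h3 : v.1 = 0 := by
      rw [h1, zero_mul, zero_sub, neg_eq_zero] at h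
      exact (mul_eq_zero.1 h).resolve_left h2
    refine ⟨v.2 / w.2, Prod.ext ?_ ?_⟩
    · simp [h1, h3]
    · simp [h2]
  · refine ⟨v.1 / w.1, Prod.ext ?_ ?_⟩
    · simp [h1]
    · simp only [Prod.smul_snd, smul_eq_mul]
      field_simp
      linarith

private theorem OBase_col {a b c : P} (hab : a ≠ b) (hac : a ≠ c) (hbc : b ≠ c)
    (h : det2 (b - a) (c - a) = 0) :
    a ∈ openSegment ℝ b c ∨ b ∈ openSegment ℝ a c ∨ c ∈ openSegment ℝ a b := by
  obtain ⟨t, ht⟩ := OBase_par (sub_ne_zero.2 hab.symm) h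
  have hc : c = a + t • (b - a) := by rw [← ht]; abel
  rcases lt_trichotomy t 0 with h0 | h0 | h0
  · refine Or.inl ⟨-t / (1 - t), 1 / (1 - t), div_pos (by linarith) (by linarith),
      div_pos one_pos (by linarith), ?_, ?_⟩
    · have : (1 - t) ≠ 0 := by linarith
      field_simp
      ring
    · have h1 : (1 - t) ≠ 0 := by linarith
      rw [hc]
      ext
      · simp only [Prod.fst_add, Prod.smul_fst, Prod.fst_sub, smul_eq_mul]
        field_simp
        ring
      · simp only [Prod.snd_add, Prod.smul_snd, Prod.snd_sub, smul_eq_mul]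
        field_simp
        ring
  · exact absurd (by rw [hc, h0]; simp) hac
  · rcases lt_trichotomy t 1 with h1 | h1 | h1
    · refine Or.inr (Or.inr ⟨1 - t, t, by linarith, h0, by ring, ?_⟩)
      rw [hc]
      module
    · exact absurd (by rw [hc, h1]; simp) hbc
    · refine Or.inr (Or.inl ⟨1 - 1 / t, 1 / t, ?_, by positivity, by ring, ?_⟩)
      · rw [sub_pos, div_lt_one h0]
        exact h1
      · rw [hc]
        ext
        · simp only [Prod.fst_add, Prod.smul_fst, Prod.fst_sub, smul_eq_mul]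
          field_simp
          ring
        · simp only [Prod.snd_add, Prod.smul_snd, Prod.snd_sub, smul_eq_mul]
          field_simp
          ring

private theorem OBase_ccw {p : Fin (0 + 3) → P} (h : 0 < det2 (p 1 - p 0) (p 2 - p 0)) :
    Ccw p := by
  intro i j k hij hjk
  have h1 : i = 0 := by
    apply Fin.ext
    have := j.2
    have := k.2
    simp only [Fin.lt_def, Fin.val_zero] at *
    omega
  have h2 : j = 1 := by
    apply Fin.ext
    have := k.2
    have e : ((1 : Fin (0 + 3)) : ℕ) = 1 := rfl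
    rw [e]
    simp only [Fin.lt_def] at *
    omega
  have h3 : k = 2 := by
    apply Fin.ext
    have := k.2
    have e : ((2 : Fin (0 + 3)) : ℕ) = 2 := rfl
    rw [e]
    simp only [Fin.lt_def] at *
    omega
  rw [h1, h2, h3]
  exact h

private theorem OBase_seg {a b x : P} (hx : x ∈ openSegment ℝ (a.1, -a.2) (b.1, -b.2)) :
    (x.1, -x.2) ∈ openSegment ℝ a b := by
  obtain ⟨s, t, hs, ht, hst, rfl⟩ := hx
  refine ⟨s, t, hs, ht, hst, ?_⟩
  ext
  · simp
  · simp only [Prod.snd_add, Prod.smul_snd, smul_eq_mul]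
    ring

/-- A simple triangle is not degenerate: if the three points are collinear (and different) then one
of them is in the open segment between the others, and all three segments are edges. -/
theorem base {p : Fin (0 + 3) → P} (h : SLG p (cyc (0 + 3))) : Ccw p ∨ Ccw (rf p) := by
  have m1 : ((0, 1) : Fin (0 + 3) × Fin (0 + 3)) ∈ cyc (0 + 3) :=
    Finset.mem_filter.2 ⟨Finset.mem_univ _, by decide⟩
  have m2 : ((1, 2) : Fin (0 + 3) × Fin (0 + 3)) ∈ cyc (0 + 3) :=
    Finset.mem_filter.2 ⟨Finset.mem_univ _, by decide⟩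
  have m3 : ((0, 2) : Fin (0 + 3) × Fin (0 + 3)) ∈ cyc (0 + 3) :=
    Finset.mem_filter.2 ⟨Finset.mem_univ _, by decide⟩
  have n1 : p 0 ≠ p 1 := fun e => by simpa using h.inj e
  have n2 : p 0 ≠ p 2 := fun e => by
    have := congrArg Fin.val (h.inj e)
    simp at this
  have n3 : p 1 ≠ p 2 := fun e => by
    have := congrArg Fin.val (h.inj e)
    simp at this
  rcases lt_trichotomy (det2 (p 1 - p 0) (p 2 - p 0)) 0 with h0 | h0 | h0
  · refine Or.inr (OBase_ccw ?_)
    have e : det2 (rf p 1 - rf p 0) (rf p 2 - rf p 0) = -det2 (p 1 - p 0) (p 2 - p 0) := by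
      simp only [det2, rf, Prod.fst_sub, Prod.snd_sub]
      ring
    rw [e]
    linarith
  · rcases OBase_col n1 n2 n3 h0 with h1 | h1 | h1
    · exact absurd h1 (h.vert _ m2 0)
    · exact absurd h1 (h.vert _ m3 1)
    · exact absurd h1 (h.vert _ m1 2)
  · exact Or.inl (OBase_ccw h0)

theorem rf_rf {n : ℕ} (p : Fin n → P) : rf (rf p) = p := by
  funext i
  simp [rf]

theorem continuous_rf {n : ℕ} : Continuous (rf : (Fin n → P) → Fin n → P) := by
  refine continuous_pi fun i => ?_
  unfold rf
  fun_prop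

/-- The reflection is a linear bijection of the plane: it maps open segments to open segments. -/
theorem slg_rf {n : ℕ} {p : Fin n → P} {E : Finset (Fin n × Fin n)} (h : SLG p E) :
    SLG (rf p) E := by
  refine ⟨fun i j hij => h.inj ?_, h.lt, fun e he k hk => h.vert e he k ?_,
    fun e he f hf hef => ?_⟩
  · have h1 := congrArg Prod.fst hij
    have h2 := congrArg Prod.snd hij
    simp only [rf, neg_inj] at h1 h2
    exact Prod.ext h1 h2
  · have h1 := OBase_seg hk
    simpa [rf] using h1
  · rw [Set.disjoint_left]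
    intro x hx hx'
    exact Set.disjoint_left.1 (h.disj e he f hf hef) (OBase_seg hx) (OBase_seg hx')

theorem rf_sn {m : ℕ} (q : Fin (m + 3) → P) (z : P) : rf (sn q z) = sn (rf q) (z.1, -z.2) := by
  funext i
  unfold rf sn
  split_ifs <;> rfl

theorem mi_rf {m : ℕ} (q : Fin (m + 3) → P) : mi (rf q) = ((mi q).1, -(mi q).2) := by
  ext
  · simp [mi, rf]
  · simp only [mi, rf, Prod.snd_add, Prod.smul_snd, smul_eq_mul]
    ring

theorem continuous_sn {m : ℕ} : Continuous (fun q : Fin (m + 3) → P => sn q (mi q)) := by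
  refine continuous_pi fun i => ?_
  unfold sn mi
  split_ifs
  · exact continuous_apply _
  · fun_prop

/-- `ins`, `slg_sn`, `slg_snq`. -/
theorem slg_sn_mi {m : ℕ} (q : Fin (m + 3) → P) :
    SLG (sn q (mi q)) (cyc (m + 4)) ↔ SLG q (cyc (m + 3)) :=
  (slg_sn q (mi q)).trans ((ins q).trans (slg_snq q).symm)

end Pool.Agent.MP4eed4eX.XO
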