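import Pool.Agent.Lib.MP_4eed4e_an_XO.ODefs

set_option autoImplicit false

/-!
Project X, block O: barycentric coordinates and the exit lemma.
-/

namespace Pool.Agent.MP4eed4eX.XO

open Set Pool.Agent.MP4eed4eP

private theorem OBc_u (u v w x : P) :
    bc u v w x = det2 (w - v) (x - v) / det2 (v - u) (w - u) := by
  have e : det2 (w - v) (u - v) = det2 (v - u) (w - u) := by
    simp only [det2, Prod.fst_sub, Prod.snd_sub]; ring
  unfold bc
  rw [e]

private theorem OBc_v (u v w x : P) :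
    bc v u w x = -det2 (w - u) (x - u) / det2 (v - u) (w - u) := by
  have e : det2 (w - u) (v - u) = -det2 (v - u) (w - u) := by
    simp only [det2, Prod.fst_sub, Prod.snd_sub]; ring
  unfold bc
  rw [e, div_neg, neg_div]

private theorem OBc_cyc {u v w : P} (h : det2 (v - u) (w - u) ≠ 0) :
    det2 (w - v) (u - v) ≠ 0 := by
  have e : det2 (w - v) (u - v) = det2 (v - u) (w - u) := by
    simp only [det2, Prod.fst_sub, Prod.snd_sub]; ring
  rwa [e]

private theorem OBc_sw {u v w : P} (h : det2 (v - u) (w - u) ≠ 0) :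
    det2 (w - u) (v - u) ≠ 0 := by
  have e : det2 (w - u) (v - u) = -det2 (v - u) (w - u) := by
    simp only [det2, Prod.fst_sub, Prod.snd_sub]; ring
  rw [e]
  exact neg_ne_zero.mpr h

private theorem OBc_ivt (a0 a1 g0 g1 : ℝ) (ha : 0 < a0) (hg : 0 < g0)
    (h : a1 < 0 ∨ g1 < 0) : ∃ t : ℝ, 0 < t ∧ t < 1 ∧ 0 ≤ (1 - t) * a0 + t * a1 ∧
      0 ≤ (1 - t) * g0 + t * g1 ∧
      ((1 - t) * a0 + t * a1 = 0 ∨ (1 - t) * g0 + t * g1 = 0) := by
  set f : ℝ → ℝ := fun t => min ((1 - t) * a0 + t * a1) ((1 - t) * g0 + t * g1) with hf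
  have hc : ContinuousOn f (Icc 0 1) := by
    apply Continuous.continuousOn
    simp only [hf]
    fun_prop
  have h0 : 0 < f 0 := by simp only [hf]; simpa using ⟨ha, hg⟩
  have h1 : f 1 < 0 := by simp only [hf]; simpa using h
  have hm : (0 : ℝ) ∈ Icc (f 1) (f 0) := ⟨h1.le, h0.le⟩
  obtain ⟨t, ht, hft⟩ := intermediate_value_Icc' (zero_le_one) hc hm
  have ht0 : t ≠ 0 := by
    rintro rfl
    rw [hft] at h0
    exact lt_irrefl _ h0
  have ht1 : t ≠ 1 := by
    rintro rfl
    rw [hft] at h1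
    exact lt_irrefl _ h1
  have hft' : min ((1 - t) * a0 + t * a1) ((1 - t) * g0 + t * g1) = 0 := hft
  refine ⟨t, lt_of_le_of_ne ht.1 (Ne.symm ht0), lt_of_le_of_ne ht.2 ht1, ?_, ?_, ?_⟩
  · rw [← hft']; exact min_le_left _ _
  · rw [← hft']; exact min_le_right _ _
  · rcases min_choice ((1 - t) * a0 + t * a1) ((1 - t) * g0 + t * g1) with e | e
    · left; rw [← e]; exact hft'
    · right; rw [← e]; exact hft'

theorem bc_comb (a b c x y : P) (t : ℝ) :
    bc a b c ((1 - t) • x + t • y) = (1 - t) * bc a b c x + t * bc a b c y := by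
  unfold bc
  rw [← mul_div_assoc, ← mul_div_assoc, ← add_div]
  congr 1
  simp only [det2, Prod.fst_sub, Prod.snd_sub, Prod.fst_add, Prod.snd_add, Prod.smul_fst,
    Prod.smul_snd, smul_eq_mul]
  ring

theorem bc_self {a b c : P} (h : det2 (c - b) (a - b) ≠ 0) : bc a b c a = 1 := by
  unfold bc
  exact div_self h

theorem bc_left (a b c : P) : bc a b c b = 0 := by
  unfold bc
  have e : det2 (c - b) (b - b) = 0 := by
    simp only [det2, Prod.fst_sub, Prod.snd_sub]; ring
  rw [e, zero_div]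

theorem bc_right (a b c : P) : bc a b c c = 0 := by
  unfold bc
  have e : det2 (c - b) (c - b) = 0 := by
    simp only [det2, Prod.fst_sub, Prod.snd_sub]; ring
  rw [e, zero_div]

theorem bc_swap (a b c x : P) : bc a b c x = bc a c b x := by
  have e1 : det2 (b - c) (x - c) = -det2 (c - b) (x - b) := by
    simp only [det2, Prod.fst_sub, Prod.snd_sub]; ring
  have e2 : det2 (b - c) (a - c) = -det2 (c - b) (a - b) := by
    simp only [det2, Prod.fst_sub, Prod.snd_sub]; ring
  unfold bc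
  rw [e1, e2, neg_div_neg_eq]

theorem bc_sum {u v w : P} (h : det2 (v - u) (w - u) ≠ 0) (x : P) :
    bc u v w x + bc v u w x + bc w u v x = 1 := by
  rw [OBc_u, OBc_v, bc, ← add_div, ← add_div, div_eq_one_iff_eq h]
  simp only [det2, Prod.fst_sub, Prod.snd_sub]
  ring

theorem bc_eq {u v w : P} (h : det2 (v - u) (w - u) ≠ 0) (x : P) :
    x = bc u v w x • u + bc v u w x • v + bc w u v x • w := by
  rw [OBc_u, OBc_v, bc]
  ext
  · simp only [Prod.fst_add, Prod.smul_fst, smul_eq_mul]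
    rw [div_mul_eq_mul_div, div_mul_eq_mul_div, div_mul_eq_mul_div, ← add_div, ← add_div,
      eq_div_iff h]
    simp only [det2, Prod.fst_sub, Prod.snd_sub]
    ring
  · simp only [Prod.snd_add, Prod.smul_snd, smul_eq_mul]
    rw [div_mul_eq_mul_div, div_mul_eq_mul_div, div_mul_eq_mul_div, ← add_div, ← add_div,
      eq_div_iff h]
    simp only [det2, Prod.fst_sub, Prod.snd_sub]
    ring

/-- The side `[u, v]`. -/
theorem mem_side {u v w : P} (h : det2 (v - u) (w - u) ≠ 0) (x : P) :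
    x ∈ segment ℝ u v ↔ bc w u v x = 0 ∧ 0 ≤ bc u v w x ∧ 0 ≤ bc v u w x := by
  constructor
  · intro hx
    rw [segment_eq_image] at hx
    obtain ⟨t, ht, rfl⟩ := hx
    simp only [bc_comb, bc_left, bc_right, bc_self (OBc_cyc h), bc_self (OBc_sw h)]
    refine ⟨by ring, ?_, ?_⟩
    · linarith [ht.2]
    · linarith [ht.1]
  · rintro ⟨h0, h1, h2⟩
    have hs := bc_sum h x
    have he := bc_eq h x
    rw [h0] at hs he
    rw [zero_smul, add_zero] at he
    exact ⟨bc u v w x, bc v u w x, h1, h2, by linarith, he.symm⟩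

/-- The triangle is convex. -/
theorem TT_comb {u v w x y : P} (hx : x ∈ TT u v w) (hy : y ∈ TT u v w) {t : ℝ}
    (ht : t ∈ Icc (0 : ℝ) 1) : (1 - t) • x + t • y ∈ TT u v w := by
  obtain ⟨x1, x2, x3⟩ := hx
  obtain ⟨y1, y2, y3⟩ := hy
  have h0 := ht.1
  have h1 : 0 ≤ 1 - t := sub_nonneg.mpr ht.2
  refine ⟨?_, ?_, ?_⟩
  · rw [bc_comb]
    exact add_nonneg (mul_nonneg h1 x1) (mul_nonneg h0 y1)
  · rw [bc_comb]
    exact add_nonneg (mul_nonneg h1 x2) (mul_nonneg h0 y2)
  · rw [bc_comb]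
    exact add_nonneg (mul_nonneg h1 x3) (mul_nonneg h0 y3)

/-- EXIT LEMMA. Write `α = bc u v w`, `θ = bc v u w`, `γ = bc w u v` (sum 1). If `α a < 0` or
`γ a < 0`, let `t ∈ (0, 1)` be the least number such that `α` or `γ` vanishes at
`x = (1 - t) m + t a` (`t = α m / (α m - α a)` or `t = γ m / (γ m - γ a)`, the smaller one). Then
`α x ≥ 0`, `γ x ≥ 0`, one of them is `0`, `θ x = (1 - t) θ m + t θ a > 0` (both terms are `≥ 0`, one
is positive). If `γ x = 0` then `x ∈ [u, v]`, if `α x = 0` then `x ∈ [v, w]` (`mem_side`). -/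
theorem exit {u v w m a : P} (h : det2 (v - u) (w - u) ≠ 0) (h1 : 0 < bc u v w m)
    (h2 : 0 < bc w u v m) (h3 : 0 ≤ bc v u w m) (h4 : bc v u w m ≤ bc v u w a)
    (h5 : 0 < bc v u w a) :
    a ∈ TT u v w ∨ ∃ x ∈ segment ℝ m a, 0 < bc v u w x ∧
      (x ∈ segment ℝ u v ∨ x ∈ segment ℝ v w) := by
  by_cases hneg : bc u v w a < 0 ∨ bc w u v a < 0
  · right
    obtain ⟨t, t0, t1, hα, hγ, hor⟩ := OBc_ivt (bc u v w m) (bc u v w a) (bc w u v m)
      (bc w u v a) h1 h2 hneg
    have hθ : 0 < bc v u w ((1 - t) • m + t • a) := by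
      rw [bc_comb]
      have e1 : 0 ≤ (1 - t) * bc v u w m := mul_nonneg (by linarith) h3
      have e2 : 0 < t * bc v u w a := mul_pos t0 h5
      linarith
    rw [← bc_comb] at hα hγ
    rw [← bc_comb, ← bc_comb] at hor
    refine ⟨(1 - t) • m + t • a, ?_, hθ, ?_⟩
    · rw [segment_eq_image]
      exact ⟨t, ⟨t0.le, t1.le⟩, rfl⟩
    · rcases hor with e | e
      · right
        rw [mem_side (OBc_cyc h), bc_swap v w u, bc_swap w v u]
        exact ⟨e, hθ.le, hγ⟩
      · left
        rw [mem_side h]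
        exact ⟨e, hα, hθ.le⟩
  · left
    push Not at hneg
    exact ⟨hneg.1, h5.le, hneg.2⟩

/-- `z` is in the interior of the triangle `u v w`: the line through `v` and `z` separates `u` from
`w`: the point `x = (1 - t) v + t u` is on the other side of this line than `w`
(`z - v = α (u - v) + γ (w - v)` with `α, γ > 0`). -/
theorem bc_opp {u v w z : P} (h : det2 (v - u) (w - u) ≠ 0) (h1 : 0 < bc u v w z)
    (h2 : 0 < bc w u v z) {t : ℝ} (ht : 0 < t) : bc w v z ((1 - t) • v + t • u) < 0 := by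
  set A := bc u v w z with hA
  set C := bc w u v z with hC
  set Δ := det2 (v - u) (w - u) with hΔ
  have hA' : A * Δ = det2 (w - v) (z - v) := by
    rw [hA, OBc_u, ← hΔ, div_mul_cancel₀ _ h]
  have hC' : C * Δ = det2 (v - u) (z - u) := by
    rw [hC, bc, ← hΔ, div_mul_cancel₀ _ h]
  have e1 : det2 (z - v) ((1 - t) • v + t • u - v) = t * (C * Δ) := by
    rw [hC']
    simp only [det2, Prod.fst_sub, Prod.snd_sub, Prod.fst_add, Prod.snd_add, Prod.smul_fst,
      Prod.smul_snd, smul_eq_mul]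
    ring
  have e2 : det2 (z - v) (w - v) = -(A * Δ) := by
    rw [hA']
    simp only [det2, Prod.fst_sub, Prod.snd_sub]
    ring
  unfold bc
  rw [e1, e2, ← mul_assoc, div_neg, mul_div_mul_right _ _ h]
  have : 0 < t * C / A := div_pos (mul_pos ht h2) h1
  linarith

end Pool.Agent.MP4eed4eX.XO
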