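import Pool.Agent.Lib.MP_4eed4e_an_XO.OSnc

set_option autoImplicit false

/-!
Project X, block O: convex polygons are simple.
-/

namespace Pool.Agent.MP4eed4eX.XO

open Set Pool.Agent.MP4eed4eP

/-- All other vertices are strictly to the left of the edge `[p i, p (i + 1)]`. -/
theorem ccw_side {n : ℕ} {p : Fin n → P} (h : Ccw p) {i j k : Fin n} (hij : (j : ℕ) = i + 1)
    (hk : k ≠ i) (hk' : k ≠ j) : 0 < det2 (p j - p i) (p k - p i) := by
  have hlt : i < j := Fin.lt_def.2 (by omega)
  rcases lt_or_ge k i with h1 | h1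
  · have h2 := h k i j h1 hlt
    have e : det2 (p j - p i) (p k - p i) = det2 (p i - p k) (p j - p k) := by
      simp only [det2, Prod.fst_sub, Prod.snd_sub]; ring
    rw [e]
    exact h2
  · refine h i j k hlt (Fin.lt_def.2 ?_)
    have h2 := Fin.le_def.1 h1
    have h3 : (k : ℕ) ≠ i := fun e => hk (Fin.ext e)
    have h4 : (k : ℕ) ≠ j := fun e => hk' (Fin.ext e)
    omega

/-- All other vertices are strictly to the left of the closing edge `[p (m + 2), p 0]`. -/
theorem ccw_last {m : ℕ} {p : Fin (m + 3) → P} (h : Ccw p) {k : Fin (m + 3)} (hk : k ≠ 0)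
    (hk' : k ≠ Fin.last (m + 2)) :
    0 < det2 (p 0 - p (Fin.last (m + 2))) (p k - p (Fin.last (m + 2))) := by
  have h1 : (0 : Fin (m + 3)) < k := Fin.pos_of_ne_zero hk
  have h2 : k < Fin.last (m + 2) := lt_of_le_of_ne (Fin.le_last k) hk'
  have h3 := h 0 k _ h1 h2
  have e : det2 (p 0 - p (Fin.last (m + 2))) (p k - p (Fin.last (m + 2))) =
      det2 (p k - p 0) (p (Fin.last (m + 2)) - p 0) := by
    simp only [det2, Prod.fst_sub, Prod.snd_sub]; ring
  rw [e]
  exact h3

private theorem OCcw_ne {n : ℕ} {p : Fin n → P} (h : Ccw p) {i j k : Fin n} (hij : i ≠ j)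
    (hik : i ≠ k) (hjk : j ≠ k) : det2 (p j - p i) (p k - p i) ≠ 0 := by
  have e1 : det2 (p j - p i) (p k - p i) = det2 (p k - p j) (p i - p j) := by
    simp only [det2, Prod.fst_sub, Prod.snd_sub]; ring
  have e2 : det2 (p j - p i) (p k - p i) = det2 (p i - p k) (p j - p k) := by
    simp only [det2, Prod.fst_sub, Prod.snd_sub]; ring
  have e3 : det2 (p j - p i) (p k - p i) = -det2 (p k - p i) (p j - p i) := by
    simp only [det2, Prod.fst_sub, Prod.snd_sub]; ring
  have e4 : det2 (p j - p i) (p k - p i) = -det2 (p i - p j) (p k - p j) := by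
    simp only [det2, Prod.fst_sub, Prod.snd_sub]; ring
  have e5 : det2 (p j - p i) (p k - p i) = -det2 (p j - p k) (p i - p k) := by
    simp only [det2, Prod.fst_sub, Prod.snd_sub]; ring
  rcases lt_or_gt_of_ne hij with a | a <;> rcases lt_or_gt_of_ne hik with b | b <;>
    rcases lt_or_gt_of_ne hjk with c | c
  · exact (h i j k a c).ne'
  · rw [e3]; exact neg_ne_zero.2 (h i k j b c).ne'
  · exact absurd (a.trans c) (not_lt.2 b.le)
  · rw [e2]; exact (h k i j b a).ne'
  · rw [e4]; exact neg_ne_zero.2 (h j i k a b).ne'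
  · exact absurd (b.trans c) (not_lt.2 a.le)
  · rw [e1]; exact (h j k i c b).ne'
  · rw [e5]; exact neg_ne_zero.2 (h k j i c a).ne'

private theorem OCcw_inj {m : ℕ} {p : Fin (m + 3) → P} (h : Ccw p) : Function.Injective p := by
  intro i j hij
  by_contra hne
  have hk : ∃ k : Fin (m + 3), i ≠ k ∧ j ≠ k := by
    by_cases h0 : (i : ℕ) ≠ 0 ∧ (j : ℕ) ≠ 0
    · exact ⟨⟨0, by omega⟩, fun e => h0.1 (by rw [e]), fun e => h0.2 (by rw [e])⟩
    by_cases h1 : (i : ℕ) ≠ 1 ∧ (j : ℕ) ≠ 1
    · exact ⟨⟨1, by omega⟩, fun e => h1.1 (by rw [e]), fun e => h1.2 (by rw [e])⟩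
    refine ⟨⟨2, by omega⟩, fun e => ?_, fun e => ?_⟩
    · have e2 : (i : ℕ) = 2 := by rw [e]
      omega
    · have e2 : (j : ℕ) = 2 := by rw [e]
      omega
  obtain ⟨k, hik, hjk⟩ := hk
  refine OCcw_ne h hne hik hjk ?_
  rw [hij]
  simp [det2]

private theorem OCcw_seg {a b c d x : P} (hx : x ∈ openSegment ℝ c d) :
    ∃ s t : ℝ, 0 < s ∧ 0 < t ∧
      det2 (b - a) (x - a) = s * det2 (b - a) (c - a) + t * det2 (b - a) (d - a) := by
  obtain ⟨s, t, hs, ht, hst, rfl⟩ := hx
  refine ⟨s, t, hs, ht, ?_⟩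
  obtain rfl : s = 1 - t := by linarith
  simp only [det2, Prod.fst_sub, Prod.snd_sub, Prod.fst_add, Prod.snd_add, Prod.smul_fst,
    Prod.smul_snd, smul_eq_mul]
  ring

private theorem OCcw_zero {a b x : P} (hx : x ∈ openSegment ℝ a b) :
    det2 (b - a) (x - a) = 0 := by
  obtain ⟨s, t, hs, ht, hst, rfl⟩ := hx
  obtain rfl : s = 1 - t := by linarith
  simp only [det2, Prod.fst_sub, Prod.snd_sub, Prod.fst_add, Prod.snd_add, Prod.smul_fst,
    Prod.smul_snd, smul_eq_mul]
  ring

private theorem OCcw_nn {n : ℕ} {p : Fin n → P} (h : Ccw p) {i j : Fin n}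
    (hij : (j : ℕ) = i + 1) (k : Fin n) : 0 ≤ det2 (p j - p i) (p k - p i) := by
  by_cases h1 : k = i
  · subst h1; simp [det2]
  by_cases h2 : k = j
  · subst h2; simp [det2]; linarith [mul_comm ((p k).1 - (p i).1) ((p k).2 - (p i).2)]
  exact (ccw_side h hij h1 h2).le

private theorem OCcw_nnl {m : ℕ} {p : Fin (m + 3) → P} (h : Ccw p) (k : Fin (m + 3)) :
    0 ≤ det2 (p 0 - p (Fin.last (m + 2))) (p k - p (Fin.last (m + 2))) := by
  by_cases h1 : k = 0
  · subst h1; simp [det2]
    linarith [mul_comm ((p 0).1 - (p (Fin.last (m + 2))).1) ((p 0).2 - (p (Fin.last (m + 2))).2)]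
  by_cases h2 : k = Fin.last (m + 2)
  · subst h2; simp [det2]
  exact (ccw_last h h1 h2).le

/-- `slg_snq`. Injectivity: two equal vertices and a third one would give determinant `0`. The other
fields: for an edge `e` the linear function `x ↦ det2 (b - a) (x - a)` (`a, b` the ends) is `0` on
the
edge and positive at all other vertices, so positive on the open segment of another edge (one of its
ends is not an end of `e`, the other one has a value `≥ 0`). -/
theorem slg_ccw {m : ℕ} {p : Fin (m + 3) → P} (h : Ccw p) : SLG p (cyc (m + 3)) := by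
  rw [slg_snq]
  have hinj := OCcw_inj h
  refine ⟨hinj, ?_, ?_, ?_, ?_⟩
  · intro i j hij k hk
    have hne : i ≠ j := fun e => by rw [e] at hij; omega
    by_cases h1 : k = i
    · subst h1
      exact hne (hinj (left_mem_openSegment_iff.1 hk))
    by_cases h2 : k = j
    · subst h2
      exact hne (hinj (right_mem_openSegment_iff.1 hk))
    exact (ccw_side h hij h1 h2).ne' (OCcw_zero hk)
  · intro i j i' j' hij hij' hii'
    rw [Set.disjoint_left]
    intro x hx hx'
    have h0 := OCcw_zero hx
    obtain ⟨s, t, hs, ht, e⟩ := OCcw_seg (a := p i) (b := p j) hx'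
    have n1 := OCcw_nn h hij i'
    have n2 := OCcw_nn h hij j'
    rw [h0] at e
    by_cases h1 : i' = j
    · have h2 : 0 < det2 (p j - p i) (p j' - p i) := by
        refine ccw_side h hij ?_ ?_
        · intro e2
          rw [e2, h1] at hij'
          omega
        · intro e2
          rw [e2, h1] at hij'
          omega
      nlinarith [mul_pos ht h2, mul_nonneg hs.le n1]
    · have h2 := ccw_side h hij (Ne.symm hii') h1
      nlinarith [mul_pos hs h2, mul_nonneg ht.le n2]
  · intro k hk
    have hne : Fin.last (m + 2) ≠ 0 := by simp [Fin.ext_iff]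
    by_cases h1 : k = 0
    · subst h1
      exact hne (hinj (right_mem_openSegment_iff.1 hk))
    by_cases h2 : k = Fin.last (m + 2)
    · subst h2
      exact hne (hinj (left_mem_openSegment_iff.1 hk))
    exact (ccw_last h h1 h2).ne' (OCcw_zero hk)
  · intro i j hij
    rw [Set.disjoint_left]
    intro x hx hx'
    have h0 := OCcw_zero hx'
    obtain ⟨s, t, hs, ht, e⟩ := OCcw_seg (a := p (Fin.last (m + 2))) (b := p 0) hx
    have n1 := OCcw_nnl h i
    have n2 := OCcw_nnl h j
    rw [h0] at e
    have hjl : (j : ℕ) < m + 3 := j.2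
    by_cases h1 : i = 0
    · have h2 : 0 < det2 (p 0 - p (Fin.last (m + 2))) (p j - p (Fin.last (m + 2))) := by
        refine ccw_last h ?_ ?_
        · intro e2
          rw [e2, h1] at hij
          simp at hij
        · intro e2
          rw [e2, h1] at hij
          simp at hij
      nlinarith [mul_pos ht h2, mul_nonneg hs.le n1]
    · have h2 := ccw_last h h1 (k := i) (fun e2 => by
        rw [e2] at hij
        simp only [Fin.val_last] at hij
        omega)
      nlinarith [mul_pos hs h2, mul_nonneg ht.le n2]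

end Pool.Agent.MP4eed4eX.XO
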