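import Pool.Agent.Lib.MP_4eed4e_an_XO.OCut

set_option autoImplicit false

/-!
Project X, block O: CASE B of the free vertex theorem, the new chain.
-/

namespace Pool.Agent.MP4eed4eX.XO

open Set Pool.Agent.MP4eed4eP

/-- Different indices below `n` give different vertices. -/
private theorem OCho_ne {n : ℕ} {q : ℕ → P} (hq : Sim n q) {a b : ℕ} (ha : a < n) (hb : b < n)
    (hab : a ≠ b) : q a ≠ q b :=
  fun h => not_mod ha hb hab (hq.inj a b h)

/-- If the chord `[q 0, q d]` is not crossed by any edge and one vertex which is not in the chain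
has parity `0`, then all of them have parity `0`. Proof: for `d < l`, `l + 1 < n` the edge
`[q l, q (l + 1)]` is disjoint from the closed polygon `q 0, .., q d`: an intersection with the edge
`l' < d` is a common end (`Sim.inter`), impossible; an intersection with `[q d, q 0]` is `q 0` or
`q d` (`hc`), which would be an end of the edge `l` (`Sim.vert_seg`), impossible. So
`pr q d (q l) = pr q d (q (l + 1))` (`pr_eq`); induction upwards and downwards from `l0`. -/
theorem spread {n : ℕ} {q : ℕ → P} {d : ℕ} (hq : Sim n q) (hd : d < n)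
    (hc : ∀ l, segment ℝ (q l) (q (l + 1)) ∩ segment ℝ (q 0) (q d) ⊆ {q 0, q d})
    {l0 : ℕ} (h1 : d < l0) (h2 : l0 < n) (h0 : pr q d (q l0) = 0) :
    ∀ l, d < l → l < n → pr q d (q l) = 0 := by
  have step : ∀ l, d < l → l + 1 < n → pr q d (q l) = pr q d (q (l + 1)) := by
    intro l hl hl'
    refine pr_eq ?_ ?_
    · intro l' hd'
      rw [Set.disjoint_left]
      intro x hx hx'
      obtain ⟨e1, e2⟩ := hq.inter (not_mod (by omega) (by omega) (by omega : l' ≠ l)) hx hx'
      rcases e1 with e1 | e1 <;> rcases e2 with e2 | e2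
      · exact OCho_ne hq (by omega) (by omega) (by omega) (e1.symm.trans e2)
      · exact OCho_ne hq (by omega) (by omega) (by omega) (e1.symm.trans e2)
      · exact OCho_ne hq (by omega) (by omega) (by omega) (e1.symm.trans e2)
      · exact OCho_ne hq (by omega) (by omega) (by omega) (e1.symm.trans e2)
    · rw [Set.disjoint_left]
      intro x hx hx'
      rw [segment_symm] at hx
      have key : ∀ i ≤ d, x ≠ q i := by
        intro i hi he
        rw [he] at hx'
        rcases hq.vert_seg hx' with e | e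
        · exact not_mod (by omega) (by omega) (by omega) e
        · exact not_mod (by omega) (by omega) (by omega) e
      rcases hc l ⟨hx', hx⟩ with e | e
      · exact key 0 (Nat.zero_le d) e
      · exact key d le_rfl e
  have walk : ∀ m l, d < l → l + m < n → pr q d (q (l + m)) = pr q d (q l) := by
    intro m
    induction m with
    | zero => intro l _ _; rfl
    | succ m ih =>
      intro l hl hl'
      rw [← ih l hl (by omega), step (l + m) (by omega) (by omega)]
      rfl
  intro l hl hl'
  rcases le_total l l0 with h | h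
  · obtain ⟨m, rfl⟩ := Nat.exists_eq_add_of_le h
    rw [← walk m l hl h2]
    exact h0
  · obtain ⟨m, rfl⟩ := Nat.exists_eq_add_of_le h
    rw [walk m l0 h1 hl']
    exact h0

private theorem OCho_lf (g x y : P) (t : ℝ) :
    lf g ((1 - t) • x + t • y) = (1 - t) * lf g x + t * lf g y := by
  simp only [lf, Prod.fst_add, Prod.snd_add, Prod.smul_fst, Prod.smul_snd, smul_eq_mul]
  ring

/-- Finitely many strict inequalities which hold for `t = 0` hold for small `t > 0`. -/
private theorem OCho_small (S : Finset ℕ) (a : ℕ → ℝ) (b c : ℝ) (h : ∀ i ∈ S, a i < b) :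
    ∃ t : ℝ, 0 < t ∧ t < 1 ∧ ∀ i ∈ S, a i < (1 - t) * b + t * c := by
  have h1 : Filter.Tendsto (fun t : ℝ => (1 - t) * b + t * c) (nhdsWithin 0 (Ioi 0)) (nhds b) := by
    have h2 : Continuous (fun t : ℝ => (1 - t) * b + t * c) := by fun_prop
    have h3 := (h2.tendsto 0).mono_left (nhdsWithin_le_nhds (s := Ioi 0))
    simpa using h3
  have h4 : ∀ᶠ t in nhdsWithin (0 : ℝ) (Ioi 0), ∀ i ∈ S, a i < (1 - t) * b + t * c := by
    rw [Filter.eventually_all_finset]
    intro i hi
    exact h1.eventually (lt_mem_nhds (h i hi))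
  have h5 : ∀ᶠ t in nhdsWithin (0 : ℝ) (Ioi 0), t ∈ Ioo (0 : ℝ) 1 :=
    Ioo_mem_nhdsGT one_pos
  obtain ⟨t, h6, h7⟩ := (h4.and h5).exists
  exact ⟨t, h7.1, h7.2, h6⟩

/-- A point of the segment from a point of the open edge `[v, u]` to `u` is on the edge and is not
`v`. -/
private theorem OCho_sub {u v x y : P} (huv : u ≠ v) {t : ℝ} (h0 : 0 < t) (h1 : t < 1)
    (hx : x = (1 - t) • v + t • u) (hy : y ∈ segment ℝ x u) : y ∈ segment ℝ v u ∧ y ≠ v := by
  obtain ⟨a, b, ha, hb, hab, rfl⟩ := hy
  subst hx
  have e : a • ((1 - t) • v + t • u) + b • u = (a * (1 - t)) • v + (a * t + b) • u := by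
    rw [smul_add, smul_smul, smul_smul, add_smul, add_assoc]
  rw [e]
  have e2 : a * (1 - t) + (a * t + b) = 1 := by linarith
  have e3 : 0 < a * t + b := by
    rcases ha.eq_or_lt with h | h
    · rw [← h] at hab ⊢
      linarith
    · have := mul_pos h h0
      linarith
  refine ⟨⟨a * (1 - t), a * t + b, mul_nonneg ha (by linarith), e3.le, e2, rfl⟩, ?_⟩
  intro he
  apply huv
  have e4 : a * (1 - t) = 1 - (a * t + b) := by linarith
  rw [e4, sub_smul, one_smul] at he
  have e5 : (a * t + b) • (u - v) = 0 := by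
    rw [smul_sub]
    have := sub_eq_zero.2 he
    rw [← this]
    abel
  rcases smul_eq_zero.1 e5 with h | h
  · exact absurd h e3.ne'
  · exact sub_eq_zero.1 h

/-- The case `k + 2 < j`: the new chain is `q (k + 1), .., q j`, i.e. the chain `s 0, .., s d'` of
`s l = q (l + (k + 1))`, `d' = j - (k + 1)`, with the chord `[s 0, s d'] = [v, z]`. The vertex `u =
q k` is `s (n - 1)`. Claim `pr s d' u = 0`. Proof: for small `t > 0` let `x = (1 - t) v + t u`. Then
`lf g (s l) < lf g x` for `1 ≤ l ≤ d'` (`Ext.ext`, finitely many strict inequalities which hold for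
`t = 0`), so `pr s d' x = tr (s d') (s 0) (s 1) x = tr z v w x` (`ext_first`), and this is `0`
(`tr_zero_w`, `bc_opp`; `α z, γ z > 0` by `pos_of_mem`). The segment `[x, u]` is
disjoint from the polygon `s 0, .., s d'`: it is a part of the edge `k` (`[u, v]`) without `v`; an
intersection with the edge `l'` of `s` (`l' < d'`; edge `l' + k + 1` of `q`) is a common end of it
and of the edge `k` (`Sim.inter`), so it is `u` (not `v`), impossible since `u` is not one of
`s 0, .., s d'`; an intersection with the chord `[z, v]` is `v` or `z` (`Cut.chord`), and `z` is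
not on the edge `k` (`Sim.vert_seg`). So `pr s d' u = pr s d' x = 0` by `pr_eq`. -/
theorem base_right {n : ℕ} {q : ℕ → P} {d k j : ℕ} {g : P} (h : Cut n q d k j g)
    (hj : k + 2 < j) : pr (fun l => q (l + (k + 1))) (j - (k + 1)) (q k) = 0 := by
  have hq := h.cho.sim
  have hdn := h.cho.lt
  have hkd := h.ext.lt
  have hjd := h.le
  have hpos := pos_of_mem h.cho.gen (by omega) (not_mod (by omega) (by omega) h.j0)
    (not_mod (by omega) (by omega) h.j1) (not_mod (by omega) (by omega) h.j2) h.mem
  have hdet := det_ne h.cho hkd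
  have huv : q k ≠ q (k + 1) := OCho_ne hq (by omega) (by omega) (by omega)
  obtain ⟨t, ht0, ht1, ht⟩ := OCho_small (Finset.Icc 1 (j - (k + 1)))
    (fun l => lf g (q (l + (k + 1)))) (lf g (q (k + 1))) (lf g (q k)) (by
      intro i hi
      rw [Finset.mem_Icc] at hi
      exact h.ext.ext (i + (k + 1)) (by omega) (by omega))
  obtain ⟨x, hx⟩ : ∃ x : P, x = (1 - t) • q (k + 1) + t • q k := ⟨_, rfl⟩
  have hlf : ∀ l ≤ j - (k + 1), l ≠ 0 → lf g (q (l + (k + 1))) < lf g x := by
    intro l hl hl0
    rw [hx, OCho_lf]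
    exact ht l (Finset.mem_Icc.2 ⟨by omega, hl⟩)
  have e0 : q (0 + (k + 1)) = q (k + 1) := by rw [Nat.zero_add]
  have e1 : q (1 + (k + 1)) = q (k + 2) := congrArg q (by omega)
  have ed : q (j - (k + 1) + (k + 1)) = q j := congrArg q (by omega)
  have h1 : pr (fun l => q (l + (k + 1))) (j - (k + 1)) x = 0 := by
    rw [ext_first (q := fun l => q (l + (k + 1))) (g := g) (by omega) hlf]
    refine tr_zero_w ?_
    show bc (q (1 + (k + 1))) (q (j - (k + 1) + (k + 1))) (q (0 + (k + 1))) x < 0
    rw [e0, e1, ed, bc_swap, hx]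
    exact bc_opp hdet hpos.1 hpos.2.2 ht0
  rw [← h1]
  symm
  refine pr_eq ?_ ?_
  · intro l hl
    rw [Set.disjoint_left]
    intro y hy hy'
    obtain ⟨hs, hne⟩ := OCho_sub huv ht0 ht1 hx hy'
    rw [segment_symm] at hs
    have hy2 : y ∈ segment ℝ (q (l + (k + 1))) (q (l + (k + 1) + 1)) := by
      have e : q (l + 1 + (k + 1)) = q (l + (k + 1) + 1) := congrArg q (by omega)
      rw [← e]
      exact hy
    obtain ⟨a1, a2⟩ := hq.inter (not_mod (by omega) (by omega)
      (by omega : l + (k + 1) ≠ k)) hy2 hs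
    rcases a2 with a2 | a2
    · rcases a1 with a1 | a1
      · exact OCho_ne hq (by omega) (by omega) (by omega) (a1.symm.trans a2)
      · exact OCho_ne hq (by omega) (by omega) (by omega) (a1.symm.trans a2)
    · exact hne a2
  · rw [Set.disjoint_left]
    intro y hy hy'
    obtain ⟨hs, hne⟩ := OCho_sub huv ht0 ht1 hx hy'
    rw [segment_symm] at hs
    have hy2 : y ∈ segment ℝ (q (k + 1)) (q j) := by
      rw [segment_symm, ← ed, ← e0]
      exact hy
    rcases h.chord k ⟨hs, hy2⟩ with a | a
    · exact hne a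
    · rw [a] at hs
      rcases hq.vert_seg hs with b | b
      · exact not_mod (by omega) (by omega) h.j0 b
      · exact not_mod (by omega) (by omega) h.j1 b

/-- The case `j < k`: the new chain is `q j, .., q (k + 1)`, i.e. the chain `s 0, .., s d'` of
`s l = q (l + j)`, `d' = k + 1 - j`, with the chord `[s 0, s d'] = [z, v]`. Claim `pr s d' w = 0`
for `w = q (k + 2) = s (d' + 1)`. The same proof with `x = (1 - t) v + t w`, `ext_last`
(`pr s d' x = tr u v z x`), `tr_zero_u` and `bc_opp` (with `u` and `w` exchanged, `bc_swap`). -/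
theorem base_left {n : ℕ} {q : ℕ → P} {d k j : ℕ} {g : P} (h : Cut n q d k j g)
    (hj : j < k) : pr (fun l => q (l + j)) (k + 1 - j) (q (k + 2)) = 0 := by
  have hq := h.cho.sim
  have hdn := h.cho.lt
  have hkd := h.ext.lt
  have hjd := h.le
  have hpos := pos_of_mem h.cho.gen (by omega) (not_mod (by omega) (by omega) h.j0)
    (not_mod (by omega) (by omega) h.j1) (not_mod (by omega) (by omega) h.j2) h.mem
  have hdet := det_ne h.cho hkd
  have hdet' : det2 (q (k + 1) - q (k + 2)) (q k - q (k + 2)) ≠ 0 := by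
    intro h0
    apply hdet
    have e : det2 (q (k + 1) - q k) (q (k + 2) - q k) =
        -det2 (q (k + 1) - q (k + 2)) (q k - q (k + 2)) := by
      simp only [det2, Prod.fst_sub, Prod.snd_sub]
      ring
    rw [e, h0, neg_zero]
  have hwv : q (k + 2) ≠ q (k + 1) := OCho_ne hq (by omega) (by omega) (by omega)
  obtain ⟨t, ht0, ht1, ht⟩ := OCho_small (Finset.range (k + 1 - j))
    (fun l => lf g (q (l + j))) (lf g (q (k + 1))) (lf g (q (k + 2))) (by
      intro i hi
      rw [Finset.mem_range] at hi
      exact h.ext.ext (i + j) (by omega) (by omega))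
  obtain ⟨x, hx⟩ : ∃ x : P, x = (1 - t) • q (k + 1) + t • q (k + 2) := ⟨_, rfl⟩
  have hlf : ∀ l < k + 1 - j, lf g (q (l + j)) < lf g x := by
    intro l hl
    rw [hx, OCho_lf]
    exact ht l (Finset.mem_range.2 hl)
  have e0 : q (0 + j) = q j := by rw [Nat.zero_add]
  have e1 : q (k + 1 - j - 1 + j) = q k := congrArg q (by omega)
  have ed : q (k + 1 - j + j) = q (k + 1) := congrArg q (by omega)
  have h1 : pr (fun l => q (l + j)) (k + 1 - j) x = 0 := by
    rw [ext_last (q := fun l => q (l + j)) (g := g) (by omega) hlf]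
    refine tr_zero_u ?_
    show bc (q (k + 1 - j - 1 + j)) (q (k + 1 - j + j)) (q (0 + j)) x < 0
    rw [e0, e1, ed, hx]
    refine bc_opp hdet' ?_ ?_ ht0
    · rw [bc_swap]
      exact hpos.2.2
    · rw [bc_swap]
      exact hpos.1
  rw [← h1]
  symm
  refine pr_eq ?_ ?_
  · intro l hl
    rw [Set.disjoint_left]
    intro y hy hy'
    obtain ⟨hs, hne⟩ := OCho_sub hwv ht0 ht1 hx hy'
    have hy2 : y ∈ segment ℝ (q (l + j)) (q (l + j + 1)) := by
      have e : q (l + 1 + j) = q (l + j + 1) := congrArg q (by omega)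
      rw [← e]
      exact hy
    obtain ⟨a1, a2⟩ := hq.inter (not_mod (by omega) (by omega)
      (by omega : l + j ≠ k + 1)) hy2 hs
    rcases a2 with a2 | a2
    · exact hne a2
    · rcases a1 with a1 | a1
      · exact OCho_ne hq (by omega) (by omega : k + 2 < n) (by omega) (a1.symm.trans a2)
      · exact OCho_ne hq (by omega) (by omega : k + 2 < n) (by omega) (a1.symm.trans a2)
  · rw [Set.disjoint_left]
    intro y hy hy'
    obtain ⟨hs, hne⟩ := OCho_sub hwv ht0 ht1 hx hy'
    have hy2 : y ∈ segment ℝ (q (k + 1)) (q j) := by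
      rw [← ed, ← e0]
      exact hy
    rcases h.chord (k + 1) ⟨hs, hy2⟩ with a | a
    · exact hne a
    · rw [a] at hs
      rcases hq.vert_seg hs with b | b
      · exact not_mod (by omega) (by omega) h.j1 b
      · exact not_mod (by omega) (by omega : k + 2 < n) h.j2 b

/-- CASE B: there is a shorter chain with a chord. `k + 2 < j`: `r = k + 1`, `d' = j - (k + 1)`,
with `2 ≤ d' < d`; `out` from `spread` with `l0 = n - 1` (`s (n - 1) = q (k + n) = q k`). `j < k`:
`r = j`, `d' = k + 1 - j`, `2 ≤ d' < d`, `l0 = d' + 1` (`d' + 1 < n`). `chord` from `Cut.chord`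
(`segment_symm`). -/
theorem Cut.cho' {n : ℕ} {q : ℕ → P} {d k j : ℕ} {g : P} (h : Cut n q d k j g) :
    ∃ r d', d' < d ∧ Cho n (fun l => q (l + r)) d' := by
  have hq := h.cho.sim
  have hdn := h.cho.lt
  have hkd := h.ext.lt
  have hjd := h.le
  have hj0 := h.j0
  have hj1 := h.j1
  have hj2 := h.j2
  rcases lt_or_ge j k with hj | hj
  · refine ⟨j, k + 1 - j, by omega, ?_⟩
    have e0 : q (0 + j) = q j := by rw [Nat.zero_add]
    have ed : q (k + 1 - j + j) = q (k + 1) := congrArg q (by omega)
    have hc : ∀ l, segment ℝ (q (l + j)) (q (l + 1 + j)) ∩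
        segment ℝ (q (0 + j)) (q (k + 1 - j + j)) ⊆ {q (0 + j), q (k + 1 - j + j)} := by
      intro l x hx
      have e : q (l + 1 + j) = q (l + j + 1) := congrArg q (by omega)
      rw [e0, ed, e] at hx
      rw [e0, ed]
      rcases h.chord (l + j) ⟨hx.1, by rw [segment_symm]; exact hx.2⟩ with a | a
      · exact Or.inr a
      · exact Or.inl a
    refine ⟨hq.shift j, h.cho.gen.shift j, by omega, by omega, fun l _ _ => hc l, ?_⟩
    refine spread (q := fun l => q (l + j)) (hq.shift j) (by omega) hc
      (l0 := k + 1 - j + 1) (by omega) (by omega) ?_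
    have e2 : q (k + 1 - j + 1 + j) = q (k + 2) := congrArg q (by omega)
    show pr (fun l => q (l + j)) (k + 1 - j) (q (k + 1 - j + 1 + j)) = 0
    rw [e2]
    exact base_left h hj
  · have hj' : k + 2 < j := by omega
    refine ⟨k + 1, j - (k + 1), by omega, ?_⟩
    have e0 : q (0 + (k + 1)) = q (k + 1) := by rw [Nat.zero_add]
    have ed : q (j - (k + 1) + (k + 1)) = q j := congrArg q (by omega)
    have hc : ∀ l, segment ℝ (q (l + (k + 1))) (q (l + 1 + (k + 1))) ∩
        segment ℝ (q (0 + (k + 1))) (q (j - (k + 1) + (k + 1))) ⊆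
          {q (0 + (k + 1)), q (j - (k + 1) + (k + 1))} := by
      intro l x hx
      have e : q (l + 1 + (k + 1)) = q (l + (k + 1) + 1) := congrArg q (by omega)
      rw [e0, ed, e] at hx
      rw [e0, ed]
      exact h.chord (l + (k + 1)) hx
    refine ⟨hq.shift (k + 1), h.cho.gen.shift (k + 1), by omega, by omega, fun l _ _ => hc l, ?_⟩
    refine spread (q := fun l => q (l + (k + 1))) (hq.shift (k + 1)) (by omega) hc
      (l0 := n - 1) (by omega) (by omega) ?_
    have e2 : q (n - 1 + (k + 1)) = q k := by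
      rw [show n - 1 + (k + 1) = k + n by omega]
      exact hq.per k
    show pr (fun l => q (l + (k + 1))) (j - (k + 1)) (q (n - 1 + (k + 1))) = 0
    rw [e2]
    exact base_right h hj'

end Pool.Agent.MP4eed4eX.XO
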