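import Pool.Agent.Lib.MP_4eed4e_an_XO.OIn

set_option autoImplicit false

/-!
Project X, block O: CASE B of the free vertex theorem, the new chord `[v, z]`. Notation in the
comments: `u = q k, v = q (k + 1), w = q (k + 2)`, `α = bc u v w`, `θ = bc v u w`, `γ = bc w u v`,
`z = q j`.
-/

namespace Pool.Agent.MP4eed4eX.XO

open Set Pool.Agent.MP4eed4eP

/-- `q j` is the vertex of the chain in the triangle with the greatest `θ`. -/
structure Cut (n : ℕ) (q : ℕ → P) (d k j : ℕ) (g : P) : Prop where
  cho : Cho n q d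
  ext : Ext q d k g
  le : j ≤ d
  j0 : j ≠ k
  j1 : j ≠ k + 1
  j2 : j ≠ k + 2
  mem : q j ∈ TT (q k) (q (k + 1)) (q (k + 2))
  max : ∀ l ≤ d, l ≠ k → l ≠ k + 1 → l ≠ k + 2 → q l ∈ TT (q k) (q (k + 1)) (q (k + 2)) →
    bc (q (k + 1)) (q k) (q (k + 2)) (q l) ≤ bc (q (k + 1)) (q k) (q (k + 2)) (q j)

private theorem oCut_det_swap {u v w : P} (h : det2 (v - u) (w - u) ≠ 0) :
    det2 (w - u) (v - u) ≠ 0 := by
  intro h0
  apply h
  simp only [det2] at h0 ⊢
  linarith

private theorem oCut_seg {a b x : P} (hx : x ∈ segment ℝ a b) (hb : b ∈ segment ℝ x a) :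
    x = b := by
  rw [segment_eq_image] at hx hb
  obtain ⟨s, ⟨hs0, hs1⟩, rfl⟩ := hx
  obtain ⟨r, ⟨hr0, hr1⟩, hb⟩ := hb
  have h1 := congrArg Prod.fst hb
  have h2 := congrArg Prod.snd hb
  simp only [Prod.fst_add, Prod.snd_add, Prod.smul_fst, Prod.smul_snd, smul_eq_mul] at h1 h2
  have e1 : (1 - (1 - r) * s) * (b.1 - a.1) = 0 := by linear_combination -h1
  have e2 : (1 - (1 - r) * s) * (b.2 - a.2) = 0 := by linear_combination -h2
  by_cases h3 : 1 - (1 - r) * s = 0
  · have hs : s = 1 := by nlinarith
    subst hs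
    simp
  · have e3 := (mul_eq_zero.1 e1).resolve_left h3
    have e4 := (mul_eq_zero.1 e2).resolve_left h3
    have e5 : b = a := Prod.ext (by linarith) (by linarith)
    subst e5
    show (1 - s) • b + s • b = b
    rw [← add_smul]
    simp

/-- The points of the open chord satisfy the assumptions of `no_cross` and `in_one` with `s = θ z
≥ 0`: for `x = (1 - t) v + t z`, `0 < t < 1`: `α x = t α z > 0`, `γ x = t γ z > 0` (`pos_of_mem`),
`θ x = (1 - t) + t θ z > θ z` (`θ z < 1` by `bc_sum`). The assumption `hs` is `Cut.max`; for `i =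
k`, `i = k + 2` it is `θ (q i) = 0 ≤ θ z`. -/
theorem Cut.on {n : ℕ} {q : ℕ → P} {d k j : ℕ} {g : P} (h : Cut n q d k j g) {x : P}
    (hx : x ∈ openSegment ℝ (q (k + 1)) (q j)) :
    (∀ l < d, x ∉ segment ℝ (q l) (q (l + 1))) ∧ x ∉ segment ℝ (q d) (q 0) ∧
      pr q d x = 1 := by
  have hk := h.ext.lt
  have hd := h.cho.lt
  have h2 := h.cho.two
  have hj := h.le
  have hne := det_ne h.cho hk
  obtain ⟨hz1, hz2, hz3⟩ := pos_of_mem (k := k) (l := j) h.cho.gen (by omega)
    (not_mod (by omega) (by omega) h.j0) (not_mod (by omega) (by omega) h.j1)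
    (not_mod (by omega) (by omega) h.j2) h.mem
  have hsum := bc_sum hne (q j)
  rw [openSegment_eq_image] at hx
  obtain ⟨t, ⟨ht0, ht1⟩, rfl⟩ := hx
  have hs : ∀ i ≤ d, i ≠ k + 1 → q i ∈ TT (q k) (q (k + 1)) (q (k + 2)) →
      bc (q (k + 1)) (q k) (q (k + 2)) (q i) ≤ bc (q (k + 1)) (q k) (q (k + 2)) (q j) := by
    intro i hi hi1 hm
    by_cases hi0 : i = k
    · subst hi0
      rw [bc_left]
      exact hz2.le
    · by_cases hi2 : i = k + 2
      · subst hi2
        rw [bc_right]
        exact hz2.le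
      · exact h.max i hi hi0 hi1 hi2 hm
  have a1 : 0 < bc (q k) (q (k + 1)) (q (k + 2)) ((1 - t) • q (k + 1) + t • q j) := by
    rw [bc_comb, bc_left]
    have := mul_pos ht0 hz1
    linarith
  have a2 : 0 < bc (q (k + 2)) (q k) (q (k + 1)) ((1 - t) • q (k + 1) + t • q j) := by
    rw [bc_comb, bc_right]
    have := mul_pos ht0 hz3
    linarith
  have a3 : bc (q (k + 1)) (q k) (q (k + 2)) (q j) <
      bc (q (k + 1)) (q k) (q (k + 2)) ((1 - t) • q (k + 1) + t • q j) := by
    rw [bc_comb, bc_self (oCut_det_swap hne)]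
    have h4 : 0 < 1 - t := by linarith
    have h5 : 0 < 1 - bc (q (k + 1)) (q k) (q (k + 2)) (q j) := by linarith
    have := mul_pos h4 h5
    linarith
  obtain ⟨b1, b2⟩ := no_cross h.cho hk hz2.le hs a1 a2 a3
  exact ⟨b1, b2, in_one h.cho h.ext hz2.le hs a1 a2 a3⟩

private theorem oCut_aux {n : ℕ} {q : ℕ → P} {d k j : ℕ} {g : P} (h : Cut n q d k j g) {l : ℕ}
    (hl : l < n) :
    segment ℝ (q l) (q (l + 1)) ∩ segment ℝ (q (k + 1)) (q j) ⊆ {q (k + 1), q j} := by
  have hk := h.ext.lt
  have hd := h.cho.lt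
  have h2 := h.cho.two
  have hj := h.le
  have hsim := h.cho.sim
  rintro x ⟨hx1, hx2⟩
  by_contra hx3
  simp only [mem_insert_iff, mem_singleton_iff, not_or] at hx3
  obtain ⟨hxv, hxz⟩ := hx3
  have hxo : x ∈ openSegment ℝ (q (k + 1)) (q j) :=
    mem_openSegment_of_ne_left_right (Ne.symm hxv) (Ne.symm hxz) hx2
  obtain ⟨c1, c2, c3⟩ := h.on hxo
  by_cases hld : l < d
  · exact c1 l hld hx1
  by_cases hcl : d + 1 = n ∧ l = d
  · obtain ⟨e1, e2⟩ := hcl
    subst e2
    have e3 : q (l + 1) = q 0 := by
      have := hsim.per 0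
      rw [zero_add, ← e1] at this
      exact this
    rw [e3] at hx1
    exact c2 hx1
  -- `x` is not a vertex
  have hnv : ∀ m, x ≠ q m := by
    intro m hm
    have m1 : ¬ m ≡ k + 1 [MOD n] := fun h' => hxv (by rw [hm, hsim.eq_of_mod h'])
    have m2 : ¬ m ≡ j [MOD n] := fun h' => hxz (by rw [hm, hsim.eq_of_mod h'])
    have m3 := h.cho.gen (k + 1) j m (not_mod (by omega) (by omega) (Ne.symm h.j1))
      (fun h' => m2 h'.symm) (fun h' => m1 h'.symm)
    apply m3
    rw [← hm]
    rw [segment_eq_image] at hx2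
    obtain ⟨t, -, rfl⟩ := hx2
    simp only [det2, Prod.fst_sub, Prod.snd_sub, Prod.fst_add, Prod.snd_add, Prod.smul_fst,
      Prod.smul_snd, smul_eq_mul]
    ring
  -- the end `q i`
  have hmain : ∀ i i' : ℕ, d < i → i < n → (i = l ∧ i' = l + 1 ∨ i = l + 1 ∧ i' = l) → False := by
    intro i i' hi1 hi2 hii
    have hxe : x ∈ segment ℝ (q i) (q i') := by
      rcases hii with ⟨e1, e2⟩ | ⟨e1, e2⟩
      · rw [e1, e2]
        exact hx1
      · rw [e1, e2, segment_symm]
        exact hx1
    have hsub : segment ℝ x (q i) ⊆ segment ℝ (q l) (q (l + 1)) := by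
      apply (convex_segment _ _).segment_subset hx1
      rcases hii with ⟨e1, -⟩ | ⟨e1, -⟩
      · rw [e1]
        exact left_mem_segment ℝ _ _
      · rw [e1]
        exact right_mem_segment ℝ _ _
    have hend : ∀ y ∈ segment ℝ x (q i), (y = q l ∨ y = q (l + 1)) → y = q i := by
      intro y hy hye
      have hy' : y = q i ∨ y = q i' := by
        rcases hii with ⟨e1, e2⟩ | ⟨e1, e2⟩
        · rw [e1, e2]
          exact hye
        · rw [e1, e2]
          exact hye.symm
      rcases hy' with hy' | hy'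
      · exact hy'
      · exfalso
        rw [hy'] at hy
        exact hnv i' (oCut_seg hxe hy)
    have hpr : pr q d x = pr q d (q i) := by
      apply pr_eq
      · intro l' hl'
        rw [Set.disjoint_left]
        intro y hy1 hy2
        obtain ⟨f1, f2⟩ := hsim.inter (l := l) (l' := l')
          (not_mod hl (by omega) (by omega)) (hsub hy2) hy1
        have f3 := hend y hy2 f1
        rcases f2 with f2 | f2
        · exact not_mod hi2 (by omega : l' < n) (by omega) (hsim.inj _ _ (f3.symm.trans f2))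
        · exact not_mod hi2 (by omega : l' + 1 < n) (by omega)
            (hsim.inj _ _ (f3.symm.trans f2))
      · rw [Set.disjoint_left]
        intro y hy1 hy2
        have f0 := h.cho.chord l hl hcl ⟨hsub hy2, by rwa [segment_symm]⟩
        simp only [mem_insert_iff, mem_singleton_iff] at f0
        have f1 : y = q l ∨ y = q (l + 1) := by
          rcases f0 with f0 | f0
          · have f4 := hsim.vert_seg (l := l) (k := 0) (by rw [← f0]; exact hsub hy2)
            rcases f4 with f4 | f4
            · left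
              rw [f0, hsim.eq_of_mod f4]
            · right
              rw [f0, hsim.eq_of_mod f4]
          · have f4 := hsim.vert_seg (l := l) (k := d) (by rw [← f0]; exact hsub hy2)
            rcases f4 with f4 | f4
            · left
              rw [f0, hsim.eq_of_mod f4]
            · right
              rw [f0, hsim.eq_of_mod f4]
        have f3 := hend y hy2 f1
        rcases f0 with f0 | f0
        · exact not_mod hi2 (by omega : 0 < n) (by omega) (hsim.inj _ _ (f3.symm.trans f0))
        · exact not_mod hi2 hd (by omega) (hsim.inj _ _ (f3.symm.trans f0))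
    rw [h.cho.out i hi1 hi2, c3] at hpr
    exact absurd hpr (by decide)
  by_cases hl2 : l = d
  · exact hmain (l + 1) l (by omega) (by omega) (Or.inr ⟨rfl, rfl⟩)
  · exact hmain l (l + 1) (by omega) hl (Or.inl ⟨rfl, rfl⟩)

/-- No edge of the whole polygon crosses the chord `[v, z]`. Proof. We may assume `l < n`
(`Sim.eq_of_mod`). Let `x` be in both segments, `x ≠ v`, `x ≠ z`, so `x` is in the open chord. If
`l < d`, or if `l = d` and `d + 1 = n` (then the edge `l` is `[q d, q 0]`), this contradicts
`Cut.on`. Otherwise `d ≤ l < n` and one of the ends of the edge `l`, say `a = q i` (`i = l` or `i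
= l + 1`), has `d < i < n`, so `pr q d a = 0` (`Cho.out`). `x` is not a vertex (a vertex on the
open chord would be collinear with `v` and `z`, against `Gen`; `v` and `z` themselves are not in
the open segment). The segment `[x, a]` is disjoint from the polygon `q 0, .., q d`: a common
point `y` with the edge `l' < d` is an end of the edge `l` (`Sim.inter`) and of the edge `l'`; it
is in `[x, a]`, which contains only the end `a` of the edge `l` (`x` is not the other end `b`, and
`b ∉ [x, a]` because `x` is in the open edge), so `y = a = q i`, and `q i` is not an end of the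
edge `l'` (`i > d ≥ l' + 1`). A common point `y` with `[q d, q 0]` is `q 0` or `q d` (`Cho.chord`
for the edge `l`), so `y` is a vertex on the edge `l`, so an end of it, so `y = a` as before, but
`a ≠ q 0`, `a ≠ q d`. By `pr_eq`, `1 = pr q d x = pr q d a = 0`. -/
theorem Cut.chord {n : ℕ} {q : ℕ → P} {d k j : ℕ} {g : P} (h : Cut n q d k j g) (l : ℕ) :
    segment ℝ (q l) (q (l + 1)) ∩ segment ℝ (q (k + 1)) (q j) ⊆ {q (k + 1), q j} := by
  have hn : 0 < n := by
    have := h.cho.lt
    omega
  have e1 : q l = q (l % n) := h.cho.sim.eq_of_mod (Nat.mod_modEq l n).symm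
  have e2 : q (l + 1) = q (l % n + 1) :=
    h.cho.sim.eq_of_mod ((Nat.mod_modEq l n).symm.add_right 1)
  rw [e1, e2]
  exact oCut_aux h (Nat.mod_lt l hn)

end Pool.Agent.MP4eed4eX.XO
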