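import Pool.Agent.Lib.MP_4eed4e_an_X.XDefs

set_option autoImplicit false

/-!
MP_4eed4e_an, project X, block O (simple polygons): definitions. Closed polygons with `n` vertices
are treated as `n`-periodic sequences `q : ℕ → P`.
-/

namespace Pool.Agent.MP4eed4eX.XO

open Set Pool.Agent.MP4eed4eP

/-- The periodic sequence of the vertices of the closed polygon `p`. -/
def pe {n : ℕ} [NeZero n] (p : Fin n → P) (l : ℕ) : P := p (Fin.ofNat n l)

/-- The `n`-periodic sequence `q` is a simple closed polygon. -/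
structure Sim (n : ℕ) (q : ℕ → P) : Prop where
  per : ∀ l, q (l + n) = q l
  inj : ∀ a b, q a = q b → a ≡ b [MOD n]
  vert : ∀ l k, q k ∉ openSegment ℝ (q l) (q (l + 1))
  disj : ∀ l l', ¬ l ≡ l' [MOD n] →
    Disjoint (openSegment ℝ (q l) (q (l + 1))) (openSegment ℝ (q l') (q (l' + 1)))

/-- No three of the vertices of the `n`-periodic sequence are collinear. -/
def Gen (n : ℕ) (q : ℕ → P) : Prop :=
  ∀ a b c, ¬ a ≡ b [MOD n] → ¬ b ≡ c [MOD n] → ¬ a ≡ c [MOD n] →
    det2 (q b - q a) (q c - q a) ≠ 0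

/-- The barycentric coordinate of `x` in the triangle `a b c` which belongs to `a`. -/
noncomputable def bc (a b c x : P) : ℝ := det2 (c - b) (x - b) / det2 (c - b) (a - b)

/-- The closed triangle `u v w`. -/
def TT (u v w : P) : Set P := {x | 0 ≤ bc u v w x ∧ 0 ≤ bc v u w x ∧ 0 ≤ bc w u v x}

/-- The vertex `k + 1` of the `n`-periodic sequence is free: the closed triangle of the vertices
`k, k + 1, k + 2` contains no other vertex. -/
def Fre (n : ℕ) (q : ℕ → P) (k : ℕ) : Prop :=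
  ∀ l, ¬ l ≡ k [MOD n] → ¬ l ≡ k + 1 [MOD n] → ¬ l ≡ k + 2 [MOD n] →
    q l ∉ TT (q k) (q (k + 1)) (q (k + 2))

/-- `1` if the vertical ray downwards from `x` meets the edge `[a, b]`, else `0` (half open rule,
`x` is not on the edge). -/
noncomputable def cr (a b x : P) : ZMod 2 := by
  classical
  exact if (a.1 ≤ x.1 ∧ x.1 < b.1 ∧ 0 < det2 (b - a) (x - a)) ∨
    (b.1 ≤ x.1 ∧ x.1 < a.1 ∧ det2 (b - a) (x - a) < 0) then 1 else 0

/-- `1` if the vertical ray upwards from `a` meets the segment `[x, y]`, else `0`. -/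
noncomputable def hh (x y a : P) : ZMod 2 := by
  classical
  exact if (x.1 < a.1 ∧ a.1 ≤ y.1 ∧ det2 (y - x) (a - x) < 0) ∨
    (y.1 < a.1 ∧ a.1 ≤ x.1 ∧ 0 < det2 (y - x) (a - x)) then 1 else 0

/-- The parity of the closed polygon `q 0, q 1, .., q d` at the point `x`. -/
noncomputable def pr (q : ℕ → P) (d : ℕ) (x : P) : ZMod 2 :=
  (∑ l ∈ Finset.range d, cr (q l) (q (l + 1)) x) + cr (q d) (q 0) x

/-- The parity of the triangle `u v w`. -/
noncomputable def tr (u v w x : P) : ZMod 2 := cr u v x + cr v w x + cr w u x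

/-- The linear function with the coefficients `g`. -/
def lf (g x : P) : ℝ := g.1 * x.1 + g.2 * x.2

/-- The chain `q 0, .., q d` of the simple polygon `q` (`n` vertices) and its chord `[q 0, q d]`:
no edge of `q` crosses the chord (the chord may be the edge `[q (n - 1), q 0]`), and the vertices
which are not in the chain are outside of the closed polygon `q 0, .., q d`. -/
structure Cho (n : ℕ) (q : ℕ → P) (d : ℕ) : Prop where
  sim : Sim n q
  gen : Gen n q
  two : 2 ≤ d
  lt : d < n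
  chord : ∀ l < n, ¬ (d + 1 = n ∧ l = d) →
    segment ℝ (q l) (q (l + 1)) ∩ segment ℝ (q 0) (q d) ⊆ {q 0, q d}
  out : ∀ l, d < l → l < n → pr q d (q l) = 0

/-- `q (k + 1)` is a strictly extreme vertex of the chain `q 0, .., q d`, `k + 1 < d`, in the
direction `g`. -/
structure Ext (q : ℕ → P) (d k : ℕ) (g : P) : Prop where
  lt : k + 1 < d
  ext : ∀ l ≤ d, l ≠ k + 1 → lf g (q l) < lf g (q (k + 1))

/-- The polygon `q 0, .., q (m + 2), z`. -/
def sn {m : ℕ} (q : Fin (m + 3) → P) (z : P) (i : Fin (m + 4)) : P :=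
  if h : (i : ℕ) < m + 3 then q ⟨i, h⟩ else z

/-- The midpoint of the closing edge. -/
noncomputable def mi {m : ℕ} (q : Fin (m + 3) → P) : P :=
  (1 / 2 : ℝ) • q (Fin.last (m + 2)) + (1 / 2 : ℝ) • q 0

/-- The closed polygon `q` is simple (explicit form). -/
structure Snq {m : ℕ} (q : Fin (m + 3) → P) : Prop where
  inj : Function.Injective q
  vert : ∀ i j : Fin (m + 3), (j : ℕ) = i + 1 → ∀ k, q k ∉ openSegment ℝ (q i) (q j)
  disj : ∀ i j i' j' : Fin (m + 3), (j : ℕ) = i + 1 → (j' : ℕ) = i' + 1 → i ≠ i' →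
    Disjoint (openSegment ℝ (q i) (q j)) (openSegment ℝ (q i') (q j'))
  v0 : ∀ k, q k ∉ openSegment ℝ (q (Fin.last (m + 2))) (q 0)
  d0 : ∀ i j : Fin (m + 3), (j : ℕ) = i + 1 →
    Disjoint (openSegment ℝ (q i) (q j)) (openSegment ℝ (q (Fin.last (m + 2))) (q 0))

/-- The closed polygon `sn q z` is simple (explicit form). -/
structure Snc {m : ℕ} (q : Fin (m + 3) → P) (z : P) : Prop where
  inj : Function.Injective q
  nez : ∀ i, q i ≠ z
  vert : ∀ i j : Fin (m + 3), (j : ℕ) = i + 1 → ∀ k, q k ∉ openSegment ℝ (q i) (q j)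
  disj : ∀ i j i' j' : Fin (m + 3), (j : ℕ) = i + 1 → (j' : ℕ) = i' + 1 → i ≠ i' →
    Disjoint (openSegment ℝ (q i) (q j)) (openSegment ℝ (q i') (q j'))
  vz : ∀ i j : Fin (m + 3), (j : ℕ) = i + 1 → z ∉ openSegment ℝ (q i) (q j)
  v1 : ∀ k, q k ∉ openSegment ℝ (q (Fin.last (m + 2))) z
  v2 : ∀ k, q k ∉ openSegment ℝ z (q 0)
  d1 : ∀ i j : Fin (m + 3), (j : ℕ) = i + 1 →
    Disjoint (openSegment ℝ (q i) (q j)) (openSegment ℝ (q (Fin.last (m + 2))) z)
  d2 : ∀ i j : Fin (m + 3), (j : ℕ) = i + 1 →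
    Disjoint (openSegment ℝ (q i) (q j)) (openSegment ℝ z (q 0))
  d3 : Disjoint (openSegment ℝ (q (Fin.last (m + 2))) z) (openSegment ℝ z (q 0))

/-- Rotation of the indices. -/
def ro {m : ℕ} (r : ℕ) (p : Fin (m + 3) → P) (i : Fin (m + 3)) : P := pe p (i + r)

/-- The set of the simple closed polygons with `n` vertices. -/
def SS (n : ℕ) : Set (Fin n → P) := {p | SLG p (cyc n)}

/-- Reflection of a polygon. -/
def rf {n : ℕ} (q : Fin n → P) (i : Fin n) : P := ((q i).1, -(q i).2)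

end Pool.Agent.MP4eed4eX.XO
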