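import Pool.Agent.Lib.MP_4eed4e_an_XO.OSim

set_option autoImplicit false

/-!
Project X, block O: existence of a strictly extreme vertex which is not an end of the chord.
-/

namespace Pool.Agent.MP4eed4eX.XO

open Set Pool.Agent.MP4eed4eP

/-- Two points at which the linear functions given by `e ≠ 0` agree are equal. -/
private theorem oext_eq {e a b o : P} {σ : ℝ} (he : e ≠ 0) (hσ : σ ≠ 0)
    (hG : σ * det2 e (a - o) = σ * det2 e (b - o))
    (hF : e.1 * a.1 + e.2 * a.2 = e.1 * b.1 + e.2 * b.2) : a = b := by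
  have h1 : det2 e (a - o) = det2 e (b - o) := mul_left_cancel₀ hσ hG
  simp only [det2, Prod.fst_sub, Prod.snd_sub] at h1
  have hN : 0 < e.1 ^ 2 + e.2 ^ 2 := by
    by_contra hc
    apply he
    have h2 : e.1 = 0 := by nlinarith [sq_nonneg e.1, sq_nonneg e.2]
    have h3 : e.2 = 0 := by nlinarith [sq_nonneg e.1, sq_nonneg e.2]
    exact Prod.ext h2 h3
  have e1 : (e.1 ^ 2 + e.2 ^ 2) * (a.1 - b.1) = 0 := by
    linear_combination e.1 * hF - e.2 * h1
  have e2 : (e.1 ^ 2 + e.2 ^ 2) * (a.2 - b.2) = 0 := by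
    linear_combination e.2 * hF + e.1 * h1
  have f1 := (mul_eq_zero.1 e1).resolve_left hN.ne'
  have f2 := (mul_eq_zero.1 e2).resolve_left hN.ne'
  exact Prod.ext (by linarith) (by linarith)

/-- Let `e = q d - q 0` and `G z = σ det2 e (z - q 0)` with the sign `σ = ± 1` such that
`G (q 1) > 0` (`G (q 1) ≠ 0` by `Gen`, since `0, 1, d` are different modulo `n`: `2 ≤ d < n`). Let
`F z = e.1 z.1 + e.2 z.2`. Let `j ≤ d` be the index for which `(G (q j), F (q j))` is maximal in the
lexicographic order (finitely many indices). `G (q j) ≥ G (q 1) > 0 = G (q 0) = G (q d)`, so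
`0 < j < d`; put `k = j - 1`. For `l ≤ d`, `l ≠ j`: either `G (q l) < G (q j)`, or `G (q l) = G (q j)` and
`F (q l) < F (q j)` (if `F` and `G` agree at two points then the points are equal, because `e ≠ 0`, and
`q` is injective modulo `n`). So for small `ε > 0` and all `l ≤ d`, `l ≠ j`,
`G (q l) + ε F (q l) < G (q j) + ε F (q j)` (finitely many conditions). `G + ε F` is `lf g` plus a
constant, `g = (-σ e.2 + ε e.1, σ e.1 + ε e.2)`. -/
theorem exists_ext {n : ℕ} {q : ℕ → P} {d : ℕ} (h : Cho n q d) : ∃ k g, Ext q d k g := by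
  classical
  have hd := h.two
  have hlt := h.lt
  obtain ⟨e, he⟩ : ∃ e : P, e = q d - q 0 := ⟨_, rfl⟩
  have hg : det2 e (q 1 - q 0) ≠ 0 := by
    rw [he]
    exact h.gen 0 d 1 (not_mod (by omega) (by omega) (by omega))
      (not_mod (by omega) (by omega) (by omega)) (not_mod (by omega) (by omega) (by omega))
  have he0 : e ≠ 0 := by
    rintro rfl
    exact hg (by simp [det2])
  obtain ⟨σ, hσ, hpos⟩ : ∃ σ : ℝ, σ ≠ 0 ∧ 0 < σ * det2 e (q 1 - q 0) := by
    rcases lt_or_gt_of_ne hg with h1 | h1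
    · exact ⟨-1, by norm_num, by linarith⟩
    · exact ⟨1, by norm_num, by linarith⟩
  obtain ⟨G, hG⟩ : ∃ G : ℕ → ℝ, ∀ l, G l = σ * det2 e (q l - q 0) := ⟨_, fun _ => rfl⟩
  obtain ⟨F, hF⟩ : ∃ F : ℕ → ℝ, ∀ l, F l = e.1 * (q l).1 + e.2 * (q l).2 := ⟨_, fun _ => rfl⟩
  have hG0 : G 0 = 0 := by
    rw [hG]
    simp [det2]
  have hGd : G d = 0 := by
    rw [hG, ← he]
    simp only [det2]
    ring
  have hG1 : 0 < G 1 := by
    rw [hG]
    exact hpos
  obtain ⟨j, hj, hmax⟩ := (Finset.range (d + 1)).exists_max_image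
    (fun l => toLex (G l, F l)) ⟨0, by simp⟩
  have hjd : j ≤ d := by
    have := Finset.mem_range.1 hj
    omega
  have key : ∀ l ≤ d, l ≠ j → G l < G j ∨ (G l = G j ∧ F l < F j) := by
    intro l hl hne
    have h1 := hmax l (Finset.mem_range.2 (by omega))
    rw [Prod.Lex.toLex_le_toLex] at h1
    rcases h1 with h1 | h1
    · exact Or.inl h1
    · refine Or.inr ⟨h1.1, lt_of_le_of_ne h1.2 (fun hFF => ?_)⟩
      have h2 : q l = q j := by
        refine oext_eq he0 hσ (o := q 0) ?_ ?_
        · rw [← hG, ← hG]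
          exact h1.1
        · rw [← hF, ← hF]
          exact hFF
      exact not_mod (by omega) (by omega) hne (h.sim.inj _ _ h2)
  have hGj : 0 < G j := by
    by_cases h1 : 1 = j
    · rw [← h1]
      exact hG1
    · rcases key 1 (by omega) h1 with h2 | h2
      · exact hG1.trans h2
      · rw [← h2.1]
        exact hG1
  have hj0 : j ≠ 0 := by
    rintro rfl
    rw [hG0] at hGj
    exact lt_irrefl _ hGj
  have hjd' : j ≠ d := by
    rintro rfl
    rw [hGd] at hGj
    exact lt_irrefl _ hGj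
  have hev : ∀ᶠ ε in nhdsWithin (0 : ℝ) (Ioi 0), ∀ l ∈ Finset.range (d + 1), l ≠ j →
      G l + ε * F l < G j + ε * F j := by
    rw [Filter.eventually_all_finset]
    intro l hl
    by_cases hne : l = j
    · exact Filter.Eventually.of_forall (fun ε h1 => absurd hne h1)
    rcases key l (by have := Finset.mem_range.1 hl; omega) hne with h1 | h1
    · have t1 : Filter.Tendsto (fun ε : ℝ => G l + ε * F l) (nhds 0) (nhds (G l)) := by
        have : Continuous (fun ε : ℝ => G l + ε * F l) := by fun_prop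
        simpa using this.tendsto 0
      have t2 : Filter.Tendsto (fun ε : ℝ => G j + ε * F j) (nhds 0) (nhds (G j)) := by
        have : Continuous (fun ε : ℝ => G j + ε * F j) := by fun_prop
        simpa using this.tendsto 0
      filter_upwards [nhdsWithin_le_nhds (t1.eventually_lt t2 h1)] with ε h2 _
      exact h2
    · filter_upwards [self_mem_nhdsWithin] with ε h2 _
      have h3 : (0 : ℝ) < ε := h2
      rw [h1.1]
      have := mul_lt_mul_of_pos_left h1.2 h3
      linarith
  obtain ⟨ε, hε⟩ := hev.exists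
  obtain ⟨k, rfl⟩ : ∃ k, j = k + 1 := ⟨j - 1, by omega⟩
  refine ⟨k, (-σ * e.2 + ε * e.1, σ * e.1 + ε * e.2), by omega, fun l hl hne => ?_⟩
  have h1 := hε l (Finset.mem_range.2 (by omega)) hne
  have h2 : ∀ i, lf (-σ * e.2 + ε * e.1, σ * e.1 + ε * e.2) (q i) =
      G i + ε * F i + σ * (e.1 * (q 0).2 - e.2 * (q 0).1) := by
    intro i
    rw [hG, hF]
    simp only [lf, det2, Prod.fst_sub, Prod.snd_sub]
    ring
  rw [h2, h2]
  linarith

end Pool.Agent.MP4eed4eX.XO
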