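import Pool.Agent.Lib.MP_4eed4e_an_XO.OBc

set_option autoImplicit false

/-!
Project X, block O: a free vertex can be moved to the midpoint of its neighbours. Notation in the
comments: `u = q (Fin.last _)`, `w = q 0`, `α = bc u v w`, `θ = bc v u w`, `γ = bc w u v`.
-/

namespace Pool.Agent.MP4eed4eX.XO

open Set Pool.Agent.MP4eed4eP

/-- The assumptions: `v` is a free vertex. -/
structure Flt {m : ℕ} (q : Fin (m + 3) → P) (v : P) : Prop where
  snc : Snc q v
  det : det2 (v - q (Fin.last (m + 2))) (q 0 - q (Fin.last (m + 2))) ≠ 0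
  line : ∀ k, k ≠ 0 → k ≠ Fin.last (m + 2) →
    det2 (q 0 - q (Fin.last (m + 2))) (q k - q (Fin.last (m + 2))) ≠ 0
  free : ∀ k, k ≠ 0 → k ≠ Fin.last (m + 2) → q k ∉ TT (q (Fin.last (m + 2))) v (q 0)

private theorem OFlat_cyc {u v w : P} (h : det2 (v - u) (w - u) ≠ 0) :
    det2 (w - v) (u - v) ≠ 0 := by
  have e : det2 (w - v) (u - v) = det2 (v - u) (w - u) := by
    simp only [det2, Prod.fst_sub, Prod.snd_sub]; ring
  rwa [e]

private theorem OFlat_sw {u v w : P} (h : det2 (v - u) (w - u) ≠ 0) :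
    det2 (w - u) (v - u) ≠ 0 := by
  have e : det2 (w - u) (v - u) = -det2 (v - u) (w - u) := by
    simp only [det2, Prod.fst_sub, Prod.snd_sub]; ring
  rw [e]
  exact neg_ne_zero.mpr h

/-- A point of the half open triangle is not a vertex. -/
private theorem OFlat_ne {m : ℕ} {q : Fin (m + 3) → P} {v : P} (h : Flt q v) {x : P}
    (h1 : 0 < bc (q (Fin.last (m + 2))) v (q 0) x)
    (h2 : 0 < bc (q 0) (q (Fin.last (m + 2))) v x)
    (h3 : 0 ≤ bc v (q (Fin.last (m + 2))) (q 0) x) (k : Fin (m + 3)) : q k ≠ x := by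
  rintro rfl
  by_cases hk0 : k = 0
  · subst hk0
    rw [bc_right] at h1
    exact lt_irrefl _ h1
  by_cases hkl : k = Fin.last (m + 2)
  · subst hkl
    rw [bc_left] at h2
    exact lt_irrefl _ h2
  exact h.free k hk0 hkl ⟨h1.le, h3, h2.le⟩

/-- A vertex of the closed triangle has the coordinate `θ = 0`. -/
private theorem OFlat_th {m : ℕ} {q : Fin (m + 3) → P} {v : P} (h : Flt q v) (k : Fin (m + 3))
    (hk : q k ∈ TT (q (Fin.last (m + 2))) v (q 0)) :
    bc v (q (Fin.last (m + 2))) (q 0) (q k) = 0 := by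
  by_cases hk0 : k = 0
  · subst hk0
    exact bc_right _ _ _
  by_cases hkl : k = Fin.last (m + 2)
  · subst hkl
    exact bc_left _ _ _
  exact absurd hk (h.free k hk0 hkl)

/-- A vertex with the coordinate `θ = 0` is an end of the base. -/
private theorem OFlat_base {m : ℕ} {q : Fin (m + 3) → P} {v : P} (h : Flt q v) (k : Fin (m + 3))
    (hk : bc v (q (Fin.last (m + 2))) (q 0) (q k) = 0) : k = 0 ∨ k = Fin.last (m + 2) := by
  by_contra hc
  push Not at hc
  unfold bc at hk
  rcases div_eq_zero_iff.1 hk with e | e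
  · exact h.line k hc.1 hc.2 e
  · exact OFlat_sw h.det e

/-- One end of the edge is farther from the base. -/
private theorem OFlat_end {m : ℕ} {q : Fin (m + 3) → P} {v : P} (h : Flt q v) {x : P}
    (h1 : 0 < bc (q (Fin.last (m + 2))) v (q 0) x)
    (h2 : 0 < bc (q 0) (q (Fin.last (m + 2))) v x)
    (h3 : 0 ≤ bc v (q (Fin.last (m + 2))) (q 0) x) {i j : Fin (m + 3)} (hij : (j : ℕ) = i + 1)
    (hx : x ∈ segment ℝ (q i) (q j)) :
    ∃ k, (k = i ∨ k = j) ∧
      bc v (q (Fin.last (m + 2))) (q 0) x ≤ bc v (q (Fin.last (m + 2))) (q 0) (q k) ∧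
      0 < bc v (q (Fin.last (m + 2))) (q 0) (q k) := by
  have hxi : q i ≠ x := OFlat_ne h h1 h2 h3 i
  have hxj : q j ≠ x := OFlat_ne h h1 h2 h3 j
  rw [segment_eq_image] at hx
  obtain ⟨τ, ⟨t0, t1⟩, hτ⟩ := hx
  have hx' : (1 - τ) • q i + τ • q j = x := hτ
  have e : bc v (q (Fin.last (m + 2))) (q 0) x =
      (1 - τ) * bc v (q (Fin.last (m + 2))) (q 0) (q i) +
        τ * bc v (q (Fin.last (m + 2))) (q 0) (q j) := by
    rw [← hx', bc_comb]
  have t0' : τ ≠ 0 := by
    rintro rfl
    apply hxi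
    rw [← hx']
    simp
  have t1' : τ ≠ 1 := by
    rintro rfl
    apply hxj
    rw [← hx']
    simp
  have p0 : 0 < τ := lt_of_le_of_ne t0 (Ne.symm t0')
  have p1 : 0 < 1 - τ := sub_pos.2 (lt_of_le_of_ne t1 t1')
  generalize hA : bc v (q (Fin.last (m + 2))) (q 0) (q i) = A at e
  generalize hB : bc v (q (Fin.last (m + 2))) (q 0) (q j) = B at e
  rcases le_total A B with hAB | hAB
  · by_cases hpos : 0 < B
    · refine ⟨j, Or.inr rfl, ?_, by rw [hB]; exact hpos⟩
      rw [e, hB]
      nlinarith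
    · exfalso
      push Not at hpos
      have hA0 : A ≤ 0 := hAB.trans hpos
      have m1 : (1 - τ) * A ≤ 0 := mul_nonpos_of_nonneg_of_nonpos p1.le hA0
      have m2 : τ * B ≤ 0 := mul_nonpos_of_nonneg_of_nonpos p0.le hpos
      rw [e] at h3
      have z1 : (1 - τ) * A = 0 := by linarith
      have z2 : τ * B = 0 := by linarith
      have zA : A = 0 := (mul_eq_zero.1 z1).resolve_left p1.ne'
      have zB : B = 0 := (mul_eq_zero.1 z2).resolve_left p0.ne'
      rcases OFlat_base h i (hA.trans zA) with hi | hi <;>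
        rcases OFlat_base h j (hB.trans zB) with hj | hj <;>
        · subst hi; subst hj
          simp at hij
  · by_cases hpos : 0 < A
    · refine ⟨i, Or.inl rfl, ?_, by rw [hA]; exact hpos⟩
      rw [e, hA]
      nlinarith
    · exfalso
      push Not at hpos
      have hB0 : B ≤ 0 := hAB.trans hpos
      have m1 : (1 - τ) * A ≤ 0 := mul_nonpos_of_nonneg_of_nonpos p1.le hpos
      have m2 : τ * B ≤ 0 := mul_nonpos_of_nonneg_of_nonpos p0.le hB0
      rw [e] at h3
      have z1 : (1 - τ) * A = 0 := by linarith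
      have z2 : τ * B = 0 := by linarith
      have zA : A = 0 := (mul_eq_zero.1 z1).resolve_left p1.ne'
      have zB : B = 0 := (mul_eq_zero.1 z2).resolve_left p0.ne'
      rcases OFlat_base h i (hA.trans zA) with hi | hi <;>
        rcases OFlat_base h j (hB.trans zB) with hj | hj <;>
        · subst hi; subst hj
          simp at hij

/-- No other edge meets the half open triangle.
Proof. `x = (1 - τ) q i + τ q j`. First, `τ ≠ 0` and `τ ≠ 1`: else `x` is a vertex `q k` in `TT u
v w`, so `k = 0` or `k` is the last index (`free`), where `γ x` or `α x` is `≤ 0`. There is an end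
`a ∈ {q i, q j}` with `θ a ≥ θ x` and `θ a > 0`: if `θ x > 0` take the greater value; if `θ x = 0`
and no end has `θ > 0` then both ends have `θ = 0`, so they are on the line `u w`, so (`line`)
both indices are `0` or last, impossible for `j = i + 1`. `exit`: either `a ∈ TT u v w`, so
(`free`) `a = u` or `a = w`, but there `θ = 0`; or there is `y ∈ [x, a] ⊆ [q i, q j]` with `θ y >
0` and `y ∈ [u, v]` or `y ∈ [v, w]`. Say `y ∈ [u, v]`. `y ≠ u` (`θ u = 0`). `y ≠ v`: `v ∉ [q i, q
j]` by `nez`, `vz`. So `y` is in the open segment `(u, v)`; if `y = q i` or `y = q j` this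
contradicts `v1`, otherwise `y` is in the open segment `(q i, q j)`, against `d1`. For `[v, w]`:
`v2`, `d2`. -/
theorem Flt.nc {m : ℕ} {q : Fin (m + 3) → P} {v : P} (h : Flt q v) {x : P}
    (h1 : 0 < bc (q (Fin.last (m + 2))) v (q 0) x)
    (h2 : 0 < bc (q 0) (q (Fin.last (m + 2))) v x)
    (h3 : 0 ≤ bc v (q (Fin.last (m + 2))) (q 0) x) {i j : Fin (m + 3)} (hij : (j : ℕ) = i + 1) :
    x ∉ segment ℝ (q i) (q j) := by
  intro hx
  obtain ⟨k, hk, h4, h5⟩ := OFlat_end h h1 h2 h3 hij hx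
  rcases exit h.det h1 h2 h3 h4 h5 with ha | ⟨y, hy, hθ, hs⟩
  · rw [OFlat_th h k ha] at h5
    exact lt_irrefl _ h5
  have hy' : y ∈ segment ℝ (q i) (q j) := by
    refine (convex_segment (𝕜 := ℝ) (q i) (q j)).segment_subset hx ?_ hy
    rcases hk with rfl | rfl
    · exact left_mem_segment ℝ _ _
    · exact right_mem_segment ℝ _ _
  have hyv : v ≠ y := by
    rintro rfl
    exact h.snc.vz i j hij
      (mem_openSegment_of_ne_left_right (h.snc.nez i) (h.snc.nez j) hy')
  rcases hs with hs | hs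
  · have hyu : q (Fin.last (m + 2)) ≠ y := by
      rintro rfl
      rw [bc_left] at hθ
      exact lt_irrefl _ hθ
    have ho : y ∈ openSegment ℝ (q (Fin.last (m + 2))) v :=
      mem_openSegment_of_ne_left_right hyu hyv hs
    have hyi : q i ≠ y := by
      rintro rfl
      exact h.snc.v1 i ho
    have hyj : q j ≠ y := by
      rintro rfl
      exact h.snc.v1 j ho
    exact (Set.disjoint_left.1 (h.snc.d1 i j hij)
      (mem_openSegment_of_ne_left_right hyi hyj hy')) ho
  · have hyw : q 0 ≠ y := by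
      rintro rfl
      rw [bc_right] at hθ
      exact lt_irrefl _ hθ
    have ho : y ∈ openSegment ℝ v (q 0) :=
      mem_openSegment_of_ne_left_right hyv hyw hs
    have hyi : q i ≠ y := by
      rintro rfl
      exact h.snc.v2 i ho
    have hyj : q j ≠ y := by
      rintro rfl
      exact h.snc.v2 j ho
    exact (Set.disjoint_left.1 (h.snc.d2 i j hij)
      (mem_openSegment_of_ne_left_right hyi hyj hy')) ho

/-- All positions of the vertex between `v` and the midpoint are admissible. Let `z = (1 - s) v +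
s (mi q)`; barycentric coordinates of `z`: `α = s / 2, θ = 1 - s, γ = s / 2`. For `s = 0` this is
`Flt.snc`, let `s > 0`. `inj, vert, disj`: from `h.snc`. `nez`: `q i ∉ TT u v w` for `i ≠ 0, last`
but `z ∈ TT u v w`; for `i = 0`: `α (q 0) = 0 < α z`, for the last index `γ = 0 < γ z`. `vz`:
`Flt.nc` with `x = z`. `v1`: a point `x` of the open segment `(u, z)` has `α x = (1 - τ) + τ s / 2
> 0`, `γ x = τ s / 2 > 0`, `θ x = τ (1 - s) ≥ 0`, `0 < τ < 1`; it is in `TT u v w`, so not a
vertex different from `u, w`; it is not `w` (`α w = 0`) and not `u` (`γ u = 0`). `v2` in the same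
way. `d1, d2`: `Flt.nc` (`openSegment_subset_segment`). `d3`: a common point `x` of `(u, z)` and
`(z, w)` has `α x > γ x` and `α x < γ x` (`α - γ` is `1` at `u`, `0` at `z`, `-1` at `w`). -/
theorem Flt.flat {m : ℕ} {q : Fin (m + 3) → P} {v : P} (h : Flt q v) {s : ℝ}
    (hs : s ∈ Icc (0 : ℝ) 1) : Snc q ((1 - s) • v + s • mi q) := by
  rcases hs.1.eq_or_lt with h0 | h0
  · rw [← h0, sub_zero, one_smul, zero_smul, add_zero]
    exact h.snc
  have hs1 := hs.2
  have hu := h.det
  have hmi : mi q = (1 - (1 / 2 : ℝ)) • q (Fin.last (m + 2)) + (1 / 2 : ℝ) • q 0 := by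
    unfold mi
    norm_num
  set z : P := (1 - s) • v + s • mi q with hz
  have hα : bc (q (Fin.last (m + 2))) v (q 0) z = s / 2 := by
    rw [hz, bc_comb, hmi, bc_comb, bc_left, bc_self (OFlat_cyc hu), bc_right]
    ring
  have hθ : bc v (q (Fin.last (m + 2))) (q 0) z = 1 - s := by
    rw [hz, bc_comb, hmi, bc_comb, bc_left, bc_self (OFlat_sw hu), bc_right]
    ring
  have hγ : bc (q 0) (q (Fin.last (m + 2))) v z = s / 2 := by
    rw [hz, bc_comb, hmi, bc_comb, bc_left, bc_self hu, bc_right]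
    ring
  -- the open segment from `u` to `z`
  have k1 : ∀ x ∈ openSegment ℝ (q (Fin.last (m + 2))) z,
      bc (q (Fin.last (m + 2))) v (q 0) x > bc (q 0) (q (Fin.last (m + 2))) v x ∧
      0 < bc (q 0) (q (Fin.last (m + 2))) v x ∧
      0 ≤ bc v (q (Fin.last (m + 2))) (q 0) x := by
    intro x hx
    rw [openSegment_eq_image] at hx
    obtain ⟨τ, ⟨t0, t1⟩, rfl⟩ := hx
    simp only [bc_comb, hα, hθ, hγ, bc_left, bc_self (OFlat_cyc hu)]
    have p1 : 0 < τ * (s / 2) := by positivity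
    have p2 : 0 ≤ τ * (1 - s) := mul_nonneg t0.le (by linarith)
    refine ⟨by linarith, by linarith, by linarith⟩
  have k2 : ∀ x ∈ openSegment ℝ z (q 0),
      bc (q (Fin.last (m + 2))) v (q 0) x < bc (q 0) (q (Fin.last (m + 2))) v x ∧
      0 < bc (q (Fin.last (m + 2))) v (q 0) x ∧
      0 ≤ bc v (q (Fin.last (m + 2))) (q 0) x := by
    intro x hx
    rw [openSegment_eq_image] at hx
    obtain ⟨τ, ⟨t0, t1⟩, rfl⟩ := hx
    simp only [bc_comb, hα, hθ, hγ, bc_right, bc_self hu]
    have p0 : 0 < 1 - τ := by linarith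
    have p1 : 0 < (1 - τ) * (s / 2) := by positivity
    have p2 : 0 ≤ (1 - τ) * (1 - s) := mul_nonneg p0.le (by linarith)
    refine ⟨by linarith, by linarith, by linarith⟩
  have a1 : 0 < bc (q (Fin.last (m + 2))) v (q 0) z := by rw [hα]; linarith
  have a2 : 0 < bc (q 0) (q (Fin.last (m + 2))) v z := by rw [hγ]; linarith
  have a3 : 0 ≤ bc v (q (Fin.last (m + 2))) (q 0) z := by rw [hθ]; linarith
  refine ⟨h.snc.inj, fun i => OFlat_ne h a1 a2 a3 i, h.snc.vert, h.snc.disj, ?_, ?_, ?_, ?_,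
    ?_, ?_⟩
  · intro i j hij hx
    exact h.nc a1 a2 a3 hij (openSegment_subset_segment ℝ _ _ hx)
  · intro k hx
    obtain ⟨b1, b2, b3⟩ := k1 _ hx
    exact OFlat_ne h (b2.trans b1) b2 b3 k rfl
  · intro k hx
    obtain ⟨b1, b2, b3⟩ := k2 _ hx
    exact OFlat_ne h b2 (b2.trans b1) b3 k rfl
  · intro i j hij
    rw [Set.disjoint_left]
    intro x hx hx'
    obtain ⟨b1, b2, b3⟩ := k1 _ hx'
    exact h.nc (b2.trans b1) b2 b3 hij (openSegment_subset_segment ℝ _ _ hx)
  · intro i j hij
    rw [Set.disjoint_left]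
    intro x hx hx'
    obtain ⟨b1, b2, b3⟩ := k2 _ hx'
    exact h.nc b2 (b2.trans b1) b3 hij (openSegment_subset_segment ℝ _ _ hx)
  · rw [Set.disjoint_left]
    intro x hx hx'
    obtain ⟨b1, -, -⟩ := k1 _ hx
    obtain ⟨c1, -, -⟩ := k2 _ hx'
    exact lt_asymm b1 c1

end Pool.Agent.MP4eed4eX.XO
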