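import Pool.Agent.Lib.MP_4eed4e_an_XO.OCho
import Pool.Agent.Lib.MP_4eed4e_an_XO.OExt

set_option autoImplicit false

/-!
Project X, block O: the free vertex theorem.
-/

namespace Pool.Agent.MP4eed4eX.XO

open Set Pool.Agent.MP4eed4eP

/-- Strong induction on `d` (for all `q`). `exists_ext`; if the assumption `hA` of `case_a` holds,
`case_a`. Otherwise choose `j ≤ d`, `j ≠ k, k + 1, k + 2`, `q j ∈ TT (q k) (q (k + 1)) (q (k + 2))` with
the greatest `bc (q (k + 1)) (q k) (q (k + 2)) (q j)` (finite set), so `Cut n q d k j g`; `Cut.cho'`, the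
induction hypothesis and `Fre.shift`. -/
theorem fre_of_cho {n : ℕ} (d : ℕ) : ∀ q : ℕ → P, Cho n q d → ∃ k, Fre n q k := by
  induction d using Nat.strong_induction_on with
  | _ d ih =>
    intro q hq
    obtain ⟨k, g, hk⟩ := exists_ext hq
    by_cases hA : ∀ l ≤ d, l ≠ k → l ≠ k + 1 → l ≠ k + 2 →
        q l ∉ TT (q k) (q (k + 1)) (q (k + 2))
    · exact ⟨k, case_a hq hk hA⟩
    · push Not at hA
      obtain ⟨l0, h0, h1, h2, h3, h4⟩ := hA
      classical
      let S : Finset ℕ := (Finset.range (d + 1)).filter fun l =>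
        l ≠ k ∧ l ≠ k + 1 ∧ l ≠ k + 2 ∧ q l ∈ TT (q k) (q (k + 1)) (q (k + 2))
      have hS : S.Nonempty :=
        ⟨l0, Finset.mem_filter.2 ⟨Finset.mem_range.2 (by omega), h1, h2, h3, h4⟩⟩
      obtain ⟨j, hj, hmax⟩ := S.exists_max_image
        (fun l => bc (q (k + 1)) (q k) (q (k + 2)) (q l)) hS
      obtain ⟨hjd, e0, e1, e2, e3⟩ := Finset.mem_filter.1 hj
      have hc : Cut n q d k j g :=
        { cho := hq
          ext := hk
          le := by
            have := Finset.mem_range.1 hjd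
            omega
          j0 := e0
          j1 := e1
          j2 := e2
          mem := e3
          max := fun l hl a0 a1 a2 a3 => hmax l
            (Finset.mem_filter.2 ⟨Finset.mem_range.2 (by omega), a0, a1, a2, a3⟩) }
      obtain ⟨r, d', hd', hcho⟩ := hc.cho'
      obtain ⟨i, hi⟩ := ih d' hd' _ hcho
      exact ⟨i + r, hi.shift hq.sim (by have := hq.lt; omega)⟩

/-- FREE VERTEX THEOREM (`cho_start`). -/
theorem free {n : ℕ} {q : ℕ → P} (h : Sim n q) (hg : Gen n q) (hn : 3 ≤ n) :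
    ∃ k, Fre n q k := fre_of_cho (n - 1) q (cho_start h hg hn)

end Pool.Agent.MP4eed4eX.XO
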