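import Pool.Agent.Lib.MP_4eed4e_an_XO.ODefs
import Pool.Agent.Lib.MP_4eed4e_an_X.OutK

set_option autoImplicit false

/-!
Project X, block O: perturbation to general position.
-/

namespace Pool.Agent.MP4eed4eX.XO

open Set Pool.Agent.MP4eed4eP

private theorem OGp_cont {n : ℕ} (i j k : Fin n) :
    Continuous fun p : Fin n → P => det2 (p j - p i) (p k - p i) := by
  unfold det2
  fun_prop

private theorem OGp_one {n : ℕ} {i j k : Fin n} (hij : i ≠ j) (hjk : j ≠ k) (hik : i ≠ k) :
    Dense {p : Fin n → P | det2 (p j - p i) (p k - p i) ≠ 0} := by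
  intro p
  set v : Fin n → P := fun l => if l = j then (1, 0) else if l = k then (0, 1) else 0 with hv
  set s : Set ℝ := {t | det2 ((p + t • v) j - (p + t • v) i) ((p + t • v) k - (p + t • v) i) = 0}
    with hs
  have hvi : v i = 0 := by simp [hv, hij, hik]
  have hvj : v j = (1, 0) := by simp [hv]
  have hvk : v k = (0, 1) := by simp [hv, hjk.symm]
  have hval : ∀ t : ℝ, det2 ((p + t • v) j - (p + t • v) i) ((p + t • v) k - (p + t • v) i) =
      t ^ 2 + ((p j - p i).1 + (p k - p i).2) * t + det2 (p j - p i) (p k - p i) := by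
    intro t
    simp only [det2, Pi.add_apply, Pi.smul_apply, hvi, hvj, hvk, Prod.fst_sub, Prod.snd_sub,
      Prod.fst_add, Prod.snd_add, Prod.smul_fst, Prod.smul_snd, smul_eq_mul, smul_zero,
      Prod.fst_zero, Prod.snd_zero]
    ring
  have hfin : s.Finite := by
    by_cases hne : s.Nonempty
    · obtain ⟨t0, ht0⟩ := hne
      refine (Set.toFinite {t0, -t0 - ((p j - p i).1 + (p k - p i).2)}).subset fun t ht => ?_
      rw [hs, Set.mem_ofPred_eq, hval] at ht ht0
      have h1 : (t - t0) * (t + t0 + ((p j - p i).1 + (p k - p i).2)) = 0 := by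
        linear_combination ht - ht0
      rcases mul_eq_zero.1 h1 with h2 | h2
      · left; linarith
      · right
        rw [mem_singleton_iff]
        linarith
    · rw [not_nonempty_iff_eq_empty.1 hne]
      exact finite_empty
  have hd : Dense sᶜ := hfin.countable.dense_compl ℝ
  have h0 := map_mem_closure (f := fun t : ℝ => p + t • v) (by fun_prop) (hd 0)
    (t := {p : Fin n → P | det2 (p j - p i) (p k - p i) ≠ 0}) (fun t ht => ht)
  simpa using h0

/-- For three different indices the set of the `p` with `det2 (p j - p i) (p k - p i) ≠ 0` is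
open; it is dense: if the determinant vanishes at `p`, move `p i` first if `p j = p i`... it is
enough to see that the function `p ↦ det2 (p j - p i) (p k - p i)` does not vanish identically on
any ball: if it does, let `w` be small; replacing `p k` by `p k + w` gives `det2 (p j - p i) w =
0` for all small `w`, so `p j = p i`, for all `p` in the ball, contradiction. A finite
intersection of dense open sets is dense (`dense_iInter_of_isOpen` or `Set.Finite`/`Finset`
induction with `Dense.inter_of_isOpen_left`). -/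
theorem dense_col (n : ℕ) : Dense {p : Fin n → P | ¬ Col p} := by
  have h : {p : Fin n → P | ¬ Col p} = ⋂ t : Fin n × Fin n × Fin n,
      {p : Fin n → P | t.1 ≠ t.2.1 → t.2.1 ≠ t.2.2 → t.1 ≠ t.2.2 →
        det2 (p t.2.1 - p t.1) (p t.2.2 - p t.1) ≠ 0} := by
    ext p
    constructor
    · intro hp
      refine mem_iInter.2 fun t h1 h2 h3 h4 => hp ⟨t.1, t.2.1, t.2.2, h1, h2, h3, h4⟩
    · rintro hp ⟨i, j, k, h1, h2, h3, h4⟩
      exact mem_iInter.1 hp (i, j, k) h1 h2 h3 h4
  rw [h]
  refine dense_iInter_of_isOpen (fun t => ?_) fun t => ?_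
  · by_cases hc : t.1 ≠ t.2.1 ∧ t.2.1 ≠ t.2.2 ∧ t.1 ≠ t.2.2
    · have e : {p : Fin n → P | t.1 ≠ t.2.1 → t.2.1 ≠ t.2.2 → t.1 ≠ t.2.2 →
          det2 (p t.2.1 - p t.1) (p t.2.2 - p t.1) ≠ 0} =
          {p : Fin n → P | det2 (p t.2.1 - p t.1) (p t.2.2 - p t.1) ≠ 0} := by
        ext p
        exact ⟨fun h => h hc.1 hc.2.1 hc.2.2, fun h _ _ _ => h⟩
      rw [e]
      exact (isClosed_singleton.preimage (OGp_cont t.1 t.2.1 t.2.2)).isOpen_compl
    · have e : {p : Fin n → P | t.1 ≠ t.2.1 → t.2.1 ≠ t.2.2 → t.1 ≠ t.2.2 →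
          det2 (p t.2.1 - p t.1) (p t.2.2 - p t.1) ≠ 0} = univ :=
        eq_univ_of_forall fun p h1 h2 h3 => absurd ⟨h1, h2, h3⟩ hc
      rw [e]
      exact isOpen_univ
  · by_cases hc : t.1 ≠ t.2.1 ∧ t.2.1 ≠ t.2.2 ∧ t.1 ≠ t.2.2
    · exact (OGp_one hc.1 hc.2.1 hc.2.2).mono fun p hp _ _ _ => hp
    · exact dense_univ.mono fun p _ h1 h2 h3 => absurd ⟨h1, h2, h3⟩ hc

/-- `isOpen_SLG` (OutK.lean): a ball about `p` is contained in `SS n`; take `p'` in the ball
(`dense_col`); the ball is convex, so the segment `[p, p']` is in `SS n`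
(`JoinedIn.of_segment_subset`). -/
theorem near {n : ℕ} {p : Fin n → P} (h : p ∈ SS n) :
    ∃ p' ∈ SS n, ¬ Col p' ∧ JoinedIn (SS n) p p' := by
  have ho : IsOpen (SS n) := isOpen_SLG (cyc n)
  obtain ⟨r, hr, hb⟩ := Metric.isOpen_iff.1 ho p h
  obtain ⟨p', hp', hp'r⟩ := (dense_col n).exists_mem_open Metric.isOpen_ball
    ⟨p, Metric.mem_ball_self (x := p) hr⟩
  refine ⟨p', hb hp'r, hp', JoinedIn.of_segment_subset ?_⟩
  exact ((convex_ball p r).segment_subset (Metric.mem_ball_self hr) hp'r).trans hb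

end Pool.Agent.MP4eed4eX.XO
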