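import Pool.Agent.Lib.MP_4eed4e_an_XO.OCcw

set_option autoImplicit false

/-!
Project X, block O: the sides of a convex polygon.
-/

namespace Pool.Agent.MP4eed4eX.XO

open Set Pool.Agent.MP4eed4eP

/-- The side functions: `(i, i + 1)` and the closing edge `(last, 0)`. -/
noncomputable def sf {m : ℕ} (p : Fin (m + 3) → P) (i : Fin (m + 3)) (x : P) : ℝ :=
  det2 (pe p (i + 1) - p i) (x - p i)

private theorem OHull_pe {m : ℕ} (p : Fin (m + 3) → P) {l : ℕ} (hl : l < m + 3) :
    pe p l = p ⟨l, hl⟩ := by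
  unfold pe
  congr 1
  ext
  exact Nat.mod_eq_of_lt hl

private theorem OHull_cases {m : ℕ} (p : Fin (m + 3) → P) (i : Fin (m + 3)) :
    (∃ j : Fin (m + 3), (j : ℕ) = i + 1 ∧ pe p (i + 1) = p j) ∨
      (i = Fin.last (m + 2) ∧ pe p (i + 1) = p 0) := by
  by_cases hi : (i : ℕ) + 1 < m + 3
  · exact Or.inl ⟨⟨i + 1, hi⟩, rfl, OHull_pe p hi⟩
  · have h1 : (i : ℕ) = m + 2 := by have := i.2; omega
    refine Or.inr ⟨Fin.ext (by rw [h1]; simp), ?_⟩
    unfold pe
    congr 1
    ext
    rw [h1]
    simp

private theorem OHull_lin {m : ℕ} (p : Fin (m + 3) → P) (i : Fin (m + 3)) (x y : P) {a b : ℝ}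
    (hab : a + b = 1) : sf p i (a • x + b • y) = a * sf p i x + b * sf p i y := by
  obtain rfl : a = 1 - b := by linarith
  simp only [sf, det2, Prod.fst_sub, Prod.snd_sub, Prod.fst_add, Prod.snd_add, Prod.smul_fst,
    Prod.smul_snd, smul_eq_mul]
  ring

private theorem OHull_left {m : ℕ} (p : Fin (m + 3) → P) (i : Fin (m + 3)) :
    sf p i (p i) = 0 := by
  simp [sf, det2]

private theorem OHull_right {m : ℕ} (p : Fin (m + 3) → P) (i : Fin (m + 3)) :
    sf p i (pe p (i + 1)) = 0 := by
  simp only [sf, det2]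
  ring

private theorem OHull_ex {m : ℕ} {p : Fin (m + 3) → P} (h : Ccw p) (i : Fin (m + 3)) :
    ∃ k, 0 < sf p i (p k) := by
  rcases OHull_cases p i with ⟨j, hj, e⟩ | ⟨hi, e⟩
  · have hk : ∃ k : Fin (m + 3), k ≠ i ∧ k ≠ j := by
      by_cases h0 : (i : ℕ) ≠ 0 ∧ (j : ℕ) ≠ 0
      · exact ⟨⟨0, by omega⟩, fun e => h0.1 (by rw [← e]), fun e => h0.2 (by rw [← e])⟩
      · refine ⟨⟨2, by omega⟩, fun e => ?_, fun e => ?_⟩
        · have e2 : (i : ℕ) = 2 := by rw [← e]
          omega
        · have e2 : (j : ℕ) = 2 := by rw [← e]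
          omega
    obtain ⟨k, hki, hkj⟩ := hk
    refine ⟨k, ?_⟩
    unfold sf
    rw [e]
    exact ccw_side h hj hki hkj
  · refine ⟨⟨1, by omega⟩, ?_⟩
    unfold sf
    rw [e, hi]
    refine ccw_last h ?_ ?_
    · intro e2
      have := congrArg Fin.val e2
      simp at this
    · intro e2
      have := congrArg Fin.val e2
      simp at this

private theorem OHull_dir {m : ℕ} {p : Fin (m + 3) → P} (h : Ccw p) (i : Fin (m + 3)) :
    0 < (pe p (i + 1) - p i).1 ^ 2 + (pe p (i + 1) - p i).2 ^ 2 := by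
  obtain ⟨k, hk⟩ := OHull_ex h i
  by_contra hcon
  push Not at hcon
  have h1 : (pe p (i + 1) - p i).1 = 0 := by
    nlinarith [sq_nonneg (pe p (i + 1) - p i).1, sq_nonneg (pe p (i + 1) - p i).2]
  have h2 : (pe p (i + 1) - p i).2 = 0 := by
    nlinarith [sq_nonneg (pe p (i + 1) - p i).1, sq_nonneg (pe p (i + 1) - p i).2]
  unfold sf det2 at hk
  rw [h1, h2] at hk
  simp at hk

private theorem OHull_cont {m : ℕ} (p : Fin (m + 3) → P) (i : Fin (m + 3)) :
    Continuous (sf p i) := by
  unfold sf det2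
  fun_prop

/-- `ccw_side`, `ccw_last`. -/
theorem sf_pos {m : ℕ} {p : Fin (m + 3) → P} (h : Ccw p) {i k : Fin (m + 3)} (hk : k ≠ i)
    (hk' : p k ≠ pe p (i + 1)) : 0 < sf p i (p k) := by
  unfold sf
  rcases OHull_cases p i with ⟨j, hj, e⟩ | ⟨hi, e⟩
  · rw [e] at hk' ⊢
    exact ccw_side h hj hk fun e2 => hk' (by rw [e2])
  · rw [e] at hk' ⊢
    subst hi
    exact ccw_last h (fun e2 => hk' (by rw [e2])) hk

private theorem OHull_half {m : ℕ} {p : Fin (m + 3) → P} (h : Ccw p) (i : Fin (m + 3)) {x : P}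
    (hx : x ∈ convexHull ℝ (range p)) :
    0 < sf p i x ∨ x ∈ segment ℝ (p i) (pe p (i + 1)) := by
  set S : Set P := {y | 0 < sf p i y ∨ y ∈ segment ℝ (p i) (pe p (i + 1))} with hS
  have hseg : ∀ y ∈ segment ℝ (p i) (pe p (i + 1)), sf p i y = 0 := by
    rintro y ⟨a, b, ha, hb, hab, rfl⟩
    rw [OHull_lin p i _ _ hab, OHull_left, OHull_right]
    ring
  have hnn : ∀ y ∈ S, 0 ≤ sf p i y := by
    rintro y (hy | hy)
    · exact hy.le
    · exact (hseg y hy).ge
  have hconv : Convex ℝ S := by
    intro y hy z hz a b ha hb hab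
    by_cases hy0 : 0 < sf p i y
    · rcases ha.eq_or_lt with h0 | h0
      · obtain rfl : b = 1 := by linarith
        rw [← h0, zero_smul, one_smul, zero_add]
        exact hz
      · left
        rw [OHull_lin p i _ _ hab]
        have := hnn z hz
        positivity
    · by_cases hz0 : 0 < sf p i z
      · rcases hb.eq_or_lt with h0 | h0
        · obtain rfl : a = 1 := by linarith
          rw [← h0, zero_smul, one_smul, add_zero]
          exact hy
        · left
          rw [OHull_lin p i _ _ hab]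
          have := hnn y hy
          positivity
      · right
        exact convex_segment _ _ (hy.resolve_left hy0) (hz.resolve_left hz0) ha hb hab
  have hr : range p ⊆ S := by
    rintro _ ⟨k, rfl⟩
    by_cases h1 : k = i
    · subst h1
      exact Or.inr (left_mem_segment _ _ _)
    by_cases h2 : p k = pe p (i + 1)
    · right
      rw [h2]
      exact right_mem_segment _ _ _
    · exact Or.inl (sf_pos h h1 h2)
  exact convexHull_min hr hconv hx

/-- The hull is contained in the half planes (a convex combination of values `≥ 0`). -/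
theorem sf_hull {m : ℕ} {p : Fin (m + 3) → P} (h : Ccw p) (i : Fin (m + 3)) {x : P}
    (hx : x ∈ convexHull ℝ (range p)) : 0 ≤ sf p i x := by
  rcases OHull_half h i hx with h1 | h1
  · exact h1.le
  · obtain ⟨a, b, ha, hb, hab, rfl⟩ := h1
    rw [OHull_lin p i _ _ hab, OHull_left, OHull_right]
    simp

/-- A point of the hull on the line of a side is on the side: in a convex combination of the
vertices with value `0` the weights of the vertices different from the ends of the side are `0`
(`sf_pos`). -/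
theorem sf_zero {m : ℕ} {p : Fin (m + 3) → P} (h : Ccw p) (i : Fin (m + 3)) {x : P}
    (hx : x ∈ convexHull ℝ (range p)) (h0 : sf p i x = 0) :
    x ∈ segment ℝ (p i) (pe p (i + 1)) := by
  exact (OHull_half h i hx).resolve_left (by rw [h0]; exact lt_irrefl 0)

/-- The intersection of the half planes is the hull. Let `G j = det2 (p j - p 0) (x - p 0)` for `1
≤ j ≤ m + 2`. `G 1 ≥ 0` (`sf p 0 x ≥ 0`) and `G (m + 2) ≤ 0` (`sf p (last) x = - G (m + 2)`). So
there is `1 ≤ j < m + 2` with `G j ≥ 0`, `G (j + 1) ≤ 0`. Together with `sf p j x ≥ 0` this says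
that the three barycentric coordinates of `x` in the triangle `p 0, p j, p (j + 1)` are `≥ 0` (the
determinant `det2 (p j - p 0) (p (j + 1) - p 0)` is positive), so `x` is in the convex hull of
these three points. -/
theorem sf_mem {m : ℕ} {p : Fin (m + 3) → P} (h : Ccw p) {x : P} (hx : ∀ i, 0 ≤ sf p i x) :
    x ∈ convexHull ℝ (range p) := by
  classical
  set G : ℕ → ℝ := fun j => det2 (pe p j - p 0) (x - p 0) with hG
  have hG1 : 0 ≤ G 1 := by
    have := hx 0
    simpa [sf, hG] using this
  have hGm : G (m + 2) ≤ 0 := by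
    have h1 := hx (Fin.last (m + 2))
    have e1 : pe p (((Fin.last (m + 2) : Fin (m + 3)) : ℕ) + 1) = p 0 := by
      rcases OHull_cases p (Fin.last (m + 2)) with ⟨j, hj, -⟩ | ⟨-, e⟩
      · have := j.2
        simp only [Fin.val_last] at hj
        omega
      · exact e
    have e2 : pe p (m + 2) = p (Fin.last (m + 2)) := OHull_pe p (by omega)
    unfold sf at h1
    rw [e1] at h1
    have e3 : G (m + 2) = -det2 (p 0 - p (Fin.last (m + 2))) (x - p (Fin.last (m + 2))) := by
      simp only [hG, e2, det2, Prod.fst_sub, Prod.snd_sub]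
      ring
    rw [e3]
    linarith
  have hex : ∃ j, 2 ≤ j ∧ j ≤ m + 2 ∧ G j ≤ 0 := ⟨m + 2, by omega, le_rfl, hGm⟩
  obtain ⟨h2, hm2, hneg⟩ := Nat.find_spec hex
  have hmin : ∀ j < Nat.find hex, ¬ (2 ≤ j ∧ j ≤ m + 2 ∧ G j ≤ 0) := fun j hj =>
    Nat.find_min hex hj
  obtain ⟨j, hj⟩ : ∃ j, Nat.find hex = j + 1 := ⟨Nat.find hex - 1, by omega⟩
  rw [hj] at h2 hm2 hneg hmin
  have hj1 : 1 ≤ j := by omega
  have hpos : 0 ≤ G j := by
    rcases hj1.eq_or_lt with h3 | h3
    · rw [← h3]; exact hG1
    · by_contra hcon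
      push Not at hcon
      exact hmin j (by omega) ⟨by omega, by omega, hcon.le⟩
  have hjl : j < m + 3 := by omega
  have hjl' : j + 1 < m + 3 := by omega
  set a : P := p 0 with ha
  set b : P := p ⟨j, hjl⟩ with hb
  set c : P := p ⟨j + 1, hjl'⟩ with hc
  have eb : pe p j = b := OHull_pe p hjl
  have ec : pe p (j + 1) = c := OHull_pe p hjl'
  have hD : 0 < det2 (b - a) (c - a) :=
    h 0 ⟨j, hjl⟩ ⟨j + 1, hjl'⟩ (Fin.lt_def.2 (by simp; omega)) (Fin.lt_def.2 (by simp))
  have h3 : 0 ≤ det2 (b - a) (x - a) := by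
    have := hpos
    simp only [hG, eb] at this
    exact this
  have h4 : det2 (c - a) (x - a) ≤ 0 := by
    have := hneg
    simp only [hG, ec] at this
    exact this
  have h5 : 0 ≤ det2 (c - b) (x - b) := by
    have := hx ⟨j, hjl⟩
    unfold sf at this
    have e : pe p (((⟨j, hjl⟩ : Fin (m + 3)) : ℕ) + 1) = c := ec
    rw [e] at this
    exact this
  set D : ℝ := det2 (b - a) (c - a) with hDdef
  have key : x = (det2 (c - b) (x - b) / D) • a + ((-det2 (c - a) (x - a)) / D) • b +
      (det2 (b - a) (x - a) / D) • c := by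
    have hD' : D ≠ 0 := hD.ne'
    ext
    · simp only [Prod.fst_add, Prod.smul_fst, smul_eq_mul]
      field_simp
      simp only [hDdef, det2, Prod.fst_sub, Prod.snd_sub]
      ring
    · simp only [Prod.snd_add, Prod.smul_snd, smul_eq_mul]
      field_simp
      simp only [hDdef, det2, Prod.fst_sub, Prod.snd_sub]
      ring
  have hsum : det2 (c - b) (x - b) / D + (-det2 (c - a) (x - a)) / D +
      det2 (b - a) (x - a) / D = 1 := by
    rw [← add_div, ← add_div, div_eq_one_iff_eq hD.ne']
    simp only [hDdef, det2, Prod.fst_sub, Prod.snd_sub]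
    ring
  have hmem : ∀ k, p k ∈ convexHull ℝ (range p) := fun k =>
    subset_convexHull ℝ _ (mem_range_self k)
  have hthree := (convex_convexHull ℝ (range p)).sum_mem (t := (Finset.univ : Finset (Fin 3)))
    (w := ![det2 (c - b) (x - b) / D, (-det2 (c - a) (x - a)) / D, det2 (b - a) (x - a) / D])
    (z := ![a, b, c])
    (by
      intro i _
      fin_cases i
      · exact div_nonneg h5 hD.le
      · exact div_nonneg (by linarith) hD.le
      · exact div_nonneg h3 hD.le)
    (by rw [Fin.sum_univ_three]; exact hsum)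
    (by
      intro i _
      fin_cases i
      · exact hmem _
      · exact hmem _
      · exact hmem _)
  rw [Fin.sum_univ_three] at hthree
  rw [key]
  exact hthree

/-- The interior: if all `sf p i x > 0` then the open set `{y | ∀ i, 0 < sf p i y}` is contained
in the hull (`sf_mem`). Conversely at an interior point of the hull `sf p i` cannot vanish:
otherwise it is negative at the point `x - t ν` for `ν` with `det2 (pe p (i + 1) - p i) ν > 0` and
all small `t > 0`, against `sf_hull` (`pe p (i + 1) ≠ p i` by `Ccw`). -/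
theorem mem_Kp {m : ℕ} {p : Fin (m + 3) → P} (h : Ccw p) (x : P) :
    x ∈ Kp p ↔ ∀ i, 0 < sf p i x := by
  constructor
  · intro hx i
    have h0 := sf_hull h i (interior_subset hx)
    rcases h0.eq_or_lt with h1 | h1
    · exfalso
      set d : P := pe p (i + 1) - p i with hd
      have hdir : 0 < d.1 ^ 2 + d.2 ^ 2 := OHull_dir h i
      have hc : Continuous fun t : ℝ => x + t • (d.2, -d.1) := by fun_prop
      have hop : IsOpen ((fun t : ℝ => x + t • (d.2, -d.1)) ⁻¹'
          interior (convexHull ℝ (range p))) := isOpen_interior.preimage hc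
      have h0m : (0 : ℝ) ∈ (fun t : ℝ => x + t • (d.2, -d.1)) ⁻¹'
          interior (convexHull ℝ (range p)) := by
        rw [mem_preimage, zero_smul, add_zero]
        exact hx
      obtain ⟨r, hr, hball⟩ := Metric.isOpen_iff.1 hop 0 h0m
      have hmem : r / 2 ∈ Metric.ball (0 : ℝ) r := by
        rw [Metric.mem_ball, Real.dist_eq, sub_zero, abs_of_pos (by positivity)]
        linarith
      have h2 := sf_hull h i (interior_subset (hball hmem))
      have e : sf p i (x + (r / 2) • (d.2, -d.1)) = sf p i x - r / 2 * (d.1 ^ 2 + d.2 ^ 2) := by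
        unfold sf
        rw [← hd]
        simp only [det2, Prod.fst_sub, Prod.snd_sub, Prod.fst_add, Prod.snd_add, Prod.smul_mk,
          smul_eq_mul]
        ring
      rw [e, ← h1] at h2
      have : 0 < r / 2 * (d.1 ^ 2 + d.2 ^ 2) := by positivity
      linarith
    · exact h1
  · intro hx
    have hop : IsOpen {y : P | ∀ i, 0 < sf p i y} := by
      have e : {y : P | ∀ i, 0 < sf p i y} = ⋂ i, {y : P | 0 < sf p i y} := by
        ext y
        simp
      rw [e]
      exact isOpen_iInter_of_finite fun i => isOpen_lt continuous_const (OHull_cont p i)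
    exact interior_maximal (fun y hy => sf_mem h fun i => (hy i).le) hop hx

end Pool.Agent.MP4eed4eX.XO
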