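import Pool.Agent.Lib.MP_4eed4e_an_XO.OPar

set_option autoImplicit false

/-!
Project X, block O: the parity near a strictly extreme vertex is the parity of the triangle at this
vertex.
-/

namespace Pool.Agent.MP4eed4eX.XO

open Set Pool.Agent.MP4eed4eP

private theorem ONear_two (a : ZMod 2) : a + a = 0 := CharTwo.add_self_eq_zero a

/-- Remove the vertex `k + 1` (split the sum at `k`; `2 = 0` in `ZMod 2`, `cr_comm`). -/
theorem near_mid {q : ℕ → P} {d k : ℕ} (hk : k + 1 < d) (x : P) :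
    pr q d x = pr (fun l => if l ≤ k then q l else q (l + 1)) (d - 1) x
      + tr (q k) (q (k + 1)) (q (k + 2)) x := by
  obtain ⟨e, rfl⟩ : ∃ e, d = k + 2 + e := ⟨d - (k + 2), by omega⟩
  have h1 : k + 2 + e - 1 = k + 1 + e := by omega
  rw [h1]
  unfold pr tr
  rw [Finset.sum_range_add (fun l => cr (q l) (q (l + 1)) x) (k + 2) e,
    Finset.sum_range_add (fun l => cr ((fun l => if l ≤ k then q l else q (l + 1)) l)
      ((fun l => if l ≤ k then q l else q (l + 1)) (l + 1)) x) (k + 1) e,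
    Finset.sum_range_succ _ (k + 1), Finset.sum_range_succ _ k, Finset.sum_range_succ _ k]
  have h2 : ∑ l ∈ Finset.range k, cr ((fun l => if l ≤ k then q l else q (l + 1)) l)
      ((fun l => if l ≤ k then q l else q (l + 1)) (l + 1)) x
      = ∑ l ∈ Finset.range k, cr (q l) (q (l + 1)) x := by
    refine Finset.sum_congr rfl fun l hl => ?_
    have hl' : l < k := Finset.mem_range.1 hl
    have a1 : l ≤ k := hl'.le
    have a2 : l + 1 ≤ k := hl'
    simp only [if_pos a1, if_pos a2]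
  have h3 : ∑ l ∈ Finset.range e, cr ((fun l => if l ≤ k then q l else q (l + 1)) (k + 1 + l))
      ((fun l => if l ≤ k then q l else q (l + 1)) (k + 1 + l + 1)) x
      = ∑ l ∈ Finset.range e, cr (q (k + 2 + l)) (q (k + 2 + l + 1)) x := by
    refine Finset.sum_congr rfl fun l _ => ?_
    have a1 : ¬ k + 1 + l ≤ k := by omega
    have a2 : ¬ k + 2 + l ≤ k := by omega
    have a3 : k + 1 + l + 1 = k + 2 + l := by omega
    simp only [a3, if_neg a1, if_neg a2]
  rw [h2, h3]
  have b1 : ¬ k + 1 ≤ k := by omega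
  have b2 : ¬ k + 1 + e ≤ k := by omega
  have b3 : k + 1 + e + 1 = k + 2 + e := by omega
  have b4 : k + 1 + 1 = k + 2 := rfl
  simp only [le_refl, if_true, if_neg b1, if_neg b2, b3, b4, Nat.zero_le]
  rw [cr_comm (q (k + 2)) (q k) x]
  have h4 := ONear_two (cr (q k) (q (k + 2)) x)
  linear_combination -h4

/-- Remove the vertex `0`. -/
theorem near_first {q : ℕ → P} {d : ℕ} (hd : 1 ≤ d) (x : P) :
    pr q d x = pr (fun l => q (l + 1)) (d - 1) x + tr (q d) (q 0) (q 1) x := by
  obtain ⟨e, rfl⟩ : ∃ e, d = e + 1 := ⟨d - 1, by omega⟩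
  unfold pr tr
  rw [Finset.sum_range_succ', Nat.add_sub_cancel, cr_comm (q 1) (q (e + 1)) x]
  simp only [zero_add]
  have h4 := ONear_two (cr (q (e + 1)) (q 1) x)
  linear_combination -h4

/-- Remove the vertex `d`. -/
theorem near_last {q : ℕ → P} {d : ℕ} (hd : 1 ≤ d) (x : P) :
    pr q d x = pr q (d - 1) x + tr (q (d - 1)) (q d) (q 0) x := by
  obtain ⟨e, rfl⟩ : ∃ e, d = e + 1 := ⟨d - 1, by omega⟩
  unfold pr tr
  rw [Finset.sum_range_succ, Nat.add_sub_cancel, cr_comm (q 0) (q e) x]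
  have h4 := ONear_two (cr (q e) (q 0) x)
  linear_combination -h4

/-- `near_mid` and `pr_zero`. -/
theorem ext_mid {q : ℕ → P} {d k : ℕ} (hk : k + 1 < d) {x g : P}
    (h : ∀ l ≤ d, l ≠ k + 1 → lf g (q l) < lf g x) :
    pr q d x = tr (q k) (q (k + 1)) (q (k + 2)) x := by
  rw [near_mid hk x, pr_zero (g := g), zero_add]
  intro l hl
  by_cases h1 : l ≤ k
  · simp only [if_pos h1]
    exact h l (by omega) (by omega)
  · simp only [if_neg h1]
    exact h (l + 1) (by omega) (by omega)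

theorem ext_first {q : ℕ → P} {d : ℕ} (hd : 1 ≤ d) {x g : P}
    (h : ∀ l ≤ d, l ≠ 0 → lf g (q l) < lf g x) :
    pr q d x = tr (q d) (q 0) (q 1) x := by
  rw [near_first hd x, pr_zero (g := g), zero_add]
  intro l hl
  exact h (l + 1) (by omega) (by omega)

theorem ext_last {q : ℕ → P} {d : ℕ} (hd : 1 ≤ d) {x g : P}
    (h : ∀ l < d, lf g (q l) < lf g x) :
    pr q d x = tr (q (d - 1)) (q d) (q 0) x := by
  rw [near_last hd x, pr_zero (g := g), zero_add]
  intro l hl
  exact h l (by omega)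

end Pool.Agent.MP4eed4eX.XO
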