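import Pool.Agent.Lib.MP_4eed4e_an_XO.OPar
import Pool.Agent.Lib.MP_4eed4e_an_XO.OBc

set_option autoImplicit false

/-!
Project X, block O: the parity of a triangle.
-/

namespace Pool.Agent.MP4eed4eX.XO

open Set Pool.Agent.MP4eed4eP

private theorem OTri_zero {u v w x g : P} (hu : lf g u < lf g x) (hv : lf g v < lf g x)
    (hw : lf g w < lf g x) : tr u v w x = 0 := by
  have key := pr_zero (q := fun l : ℕ => if l = 0 then u else if l = 1 then v else w) (d := 2)
    (x := x) (g := g) (by
      intro l hl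
      interval_cases l
      · simpa using hu
      · simpa using hv
      · simpa using hw)
  have e : pr (fun l : ℕ => if l = 0 then u else if l = 1 then v else w) 2 x = tr u v w x := by
    simp [pr, tr, Finset.sum_range_succ]
  rw [← e]
  exact key

private theorem OTri_aux {a b c x : P} (h : bc a b c x < 0) :
    (0 < det2 (c - b) (x - b) ∧ det2 (c - b) (a - b) < 0) ∨
      (det2 (c - b) (x - b) < 0 ∧ 0 < det2 (c - b) (a - b)) := by
  unfold bc at h
  rcases div_neg_iff.1 h with h | h
  · exact Or.inl h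
  · exact Or.inr h

/-- the linear function of the line through `b` and `c` -/
private theorem OTri_sep {a b c x : P} (h : bc a b c x < 0) :
    ∃ g : P, lf g a < lf g x ∧ lf g b < lf g x ∧ lf g c < lf g x := by
  rcases OTri_aux h with ⟨h1, h2⟩ | ⟨h1, h2⟩
  · refine ⟨(-(c - b).2, (c - b).1), ?_, ?_, ?_⟩ <;>
      simp only [lf, det2, Prod.fst_sub, Prod.snd_sub] at * <;> nlinarith
  · refine ⟨((c - b).2, -(c - b).1), ?_, ?_, ?_⟩ <;>
      simp only [lf, det2, Prod.fst_sub, Prod.snd_sub] at * <;> nlinarith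

/-- The parity of a triangle is `0` on the other side of the side `[v, w]`: `tr u v w x` is
`pr s 2 x` for the sequence `s 0 = u, s 1 = v, s 2 = w`; use `pr_zero` with `lf g z =` plus or minus
`det2 (w - v) (z - v)` (up to a constant), which is `0` at `v`, `w`, negative at `u` and positive at
`x`. -/
theorem tr_zero_u {u v w x : P} (h : bc u v w x < 0) : tr u v w x = 0 := by
  obtain ⟨g, h1, h2, h3⟩ := OTri_sep h
  exact OTri_zero h1 h2 h3

theorem tr_zero_v {u v w x : P} (h : bc v u w x < 0) : tr u v w x = 0 := by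
  obtain ⟨g, h1, h2, h3⟩ := OTri_sep h
  exact OTri_zero h2 h1 h3

theorem tr_zero_w {u v w x : P} (h : bc w u v x < 0) : tr u v w x = 0 := by
  obtain ⟨g, h1, h2, h3⟩ := OTri_sep h
  exact OTri_zero h2 h3 h1

/-- The parity of a triangle is `1` at the interior points. Proof: `det2 (v - u) (x - u)`,
`det2 (w - v) (x - v)`, `det2 (u - w) (x - w)` have the same sign (the sign of
`det2 (v - u) (w - u)`), say positive. Let `s z` be the truth value of `z.1 ≤ x.1`. Then `cr a b x = 1`
for the side `a b` (one of `u v`, `v w`, `w u`) iff `s a` and not `s b`. The values `s u, s v, s w` are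
not all equal (`x.1` is a mean value of `u.1, v.1, w.1` with positive weights, and these are not all
equal), so exactly one of the three sides contributes. If the sign is negative: iff `s b` and not
`s a`. -/
theorem tr_one {u v w x : P} (h : det2 (v - u) (w - u) ≠ 0) (h1 : 0 < bc u v w x)
    (h2 : 0 < bc v u w x) (h3 : 0 < bc w u v x) : tr u v w x = 1 := by
  have eD1 : det2 (w - v) (u - v) = det2 (v - u) (w - u) := by
    simp only [det2, Prod.fst_sub, Prod.snd_sub]; ring
  have eD2 : det2 (w - u) (v - u) = -det2 (v - u) (w - u) := by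
    simp only [det2, Prod.fst_sub, Prod.snd_sub]; ring
  have eC : det2 (w - u) (x - u) = -det2 (u - w) (x - w) := by
    simp only [det2, Prod.fst_sub, Prod.snd_sub]; ring
  have esum : det2 (w - v) (x - v) + det2 (u - w) (x - w) + det2 (v - u) (x - u) =
      det2 (v - u) (w - u) := by
    simp only [det2, Prod.fst_sub, Prod.snd_sub]; ring
  have emean : det2 (w - v) (x - v) * u.1 + det2 (u - w) (x - w) * v.1 +
      det2 (v - u) (x - u) * w.1 = det2 (v - u) (w - u) * x.1 := by
    simp only [det2, Prod.fst_sub, Prod.snd_sub]; ring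
  have eflat : u.1 = x.1 → v.1 = x.1 → w.1 = x.1 → det2 (v - u) (w - u) = 0 := by
    intro a1 a2 a3
    simp only [det2, Prod.fst_sub, Prod.snd_sub]
    rw [a1, a2, a3]; ring
  unfold bc at h1 h2 h3
  rw [eD1] at h1
  rw [eD2, eC, neg_div_neg_eq] at h2
  set D := det2 (v - u) (w - u) with hD
  set A := det2 (v - u) (x - u) with hA
  set B := det2 (w - v) (x - v) with hB
  set C := det2 (u - w) (x - w) with hC
  have hcases : (0 < D ∧ 0 < A ∧ 0 < B ∧ 0 < C) ∨ (D < 0 ∧ A < 0 ∧ B < 0 ∧ C < 0) := by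
    rcases lt_or_gt_of_ne h with hneg | hpos
    · right
      refine ⟨hneg, ?_, ?_, ?_⟩
      · rcases div_pos_iff.1 h3 with ⟨_, h⟩ | ⟨h, _⟩
        · exact absurd h (not_lt.2 hneg.le)
        · exact h
      · rcases div_pos_iff.1 h1 with ⟨_, h⟩ | ⟨h, _⟩
        · exact absurd h (not_lt.2 hneg.le)
        · exact h
      · rcases div_pos_iff.1 h2 with ⟨_, h⟩ | ⟨h, _⟩
        · exact absurd h (not_lt.2 hneg.le)
        · exact h
    · left
      refine ⟨hpos, ?_, ?_, ?_⟩
      · rcases div_pos_iff.1 h3 with ⟨h, _⟩ | ⟨_, h⟩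
        · exact h
        · exact absurd h (not_lt.2 hpos.le)
      · rcases div_pos_iff.1 h1 with ⟨h, _⟩ | ⟨_, h⟩
        · exact h
        · exact absurd h (not_lt.2 hpos.le)
      · rcases div_pos_iff.1 h2 with ⟨h, _⟩ | ⟨_, h⟩
        · exact h
        · exact absurd h (not_lt.2 hpos.le)
  rcases hcases with ⟨pD, pA, pB, pC⟩ | ⟨pD, pA, pB, pC⟩
  · have nA : ¬ A < 0 := not_lt.2 pA.le
    have nB : ¬ B < 0 := not_lt.2 pB.le
    have nC : ¬ C < 0 := not_lt.2 pC.le
    rcases le_or_gt u.1 x.1 with hu | hu <;> rcases le_or_gt v.1 x.1 with hv | hv <;>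
      rcases le_or_gt w.1 x.1 with hw | hw
    · exfalso
      have k1 : B * (x.1 - u.1) + C * (x.1 - v.1) + A * (x.1 - w.1) = 0 := by
        linear_combination x.1 * esum - emean
      have k2 : 0 ≤ B * (x.1 - u.1) := mul_nonneg pB.le (by linarith)
      have k3 : 0 ≤ C * (x.1 - v.1) := mul_nonneg pC.le (by linarith)
      have k4 : 0 ≤ A * (x.1 - w.1) := mul_nonneg pA.le (by linarith)
      have z2 : B * (x.1 - u.1) = 0 := by linarith
      have z3 : C * (x.1 - v.1) = 0 := by linarith
      have z4 : A * (x.1 - w.1) = 0 := by linarith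
      have y2 := (mul_eq_zero.1 z2).resolve_left pB.ne'
      have y3 := (mul_eq_zero.1 z3).resolve_left pC.ne'
      have y4 := (mul_eq_zero.1 z4).resolve_left pA.ne'
      exact h (eflat (by linarith) (by linarith) (by linarith))
    · simp [tr, cr, ← hA, ← hB, ← hC, nA, nB, nC, pA, pB, pC, hu, hv, hw, not_le.2 hw,
        not_lt.2 hu, not_lt.2 hv]
    · simp [tr, cr, ← hA, ← hB, ← hC, nA, nB, nC, pA, pB, pC, hu, hv, hw, not_le.2 hv,
        not_lt.2 hu, not_lt.2 hw]
    · simp [tr, cr, ← hA, ← hB, ← hC, nA, nB, nC, pA, pB, pC, hu, hv, hw, not_le.2 hv,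
        not_le.2 hw, not_lt.2 hu]
    · simp [tr, cr, ← hA, ← hB, ← hC, nA, nB, nC, pA, pB, pC, hu, hv, hw, not_le.2 hu,
        not_lt.2 hv, not_lt.2 hw]
    · simp [tr, cr, ← hA, ← hB, ← hC, nA, nB, nC, pA, pB, pC, hu, hv, hw, not_le.2 hu,
        not_le.2 hw, not_lt.2 hv]
    · simp [tr, cr, ← hA, ← hB, ← hC, nA, nB, nC, pA, pB, pC, hu, hv, hw, not_le.2 hu,
        not_le.2 hv, not_lt.2 hw]
    · exfalso
      have k1 : B * (x.1 - u.1) + C * (x.1 - v.1) + A * (x.1 - w.1) = 0 := by
        linear_combination x.1 * esum - emean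
      have k2 : B * (x.1 - u.1) < 0 := mul_neg_of_pos_of_neg pB (by linarith)
      have k3 : C * (x.1 - v.1) < 0 := mul_neg_of_pos_of_neg pC (by linarith)
      have k4 : A * (x.1 - w.1) < 0 := mul_neg_of_pos_of_neg pA (by linarith)
      linarith
  · have nA : ¬ 0 < A := not_lt.2 pA.le
    have nB : ¬ 0 < B := not_lt.2 pB.le
    have nC : ¬ 0 < C := not_lt.2 pC.le
    rcases le_or_gt u.1 x.1 with hu | hu <;> rcases le_or_gt v.1 x.1 with hv | hv <;>
      rcases le_or_gt w.1 x.1 with hw | hw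
    · exfalso
      have k1 : B * (x.1 - u.1) + C * (x.1 - v.1) + A * (x.1 - w.1) = 0 := by
        linear_combination x.1 * esum - emean
      have k2 : B * (x.1 - u.1) ≤ 0 := mul_nonpos_of_nonpos_of_nonneg pB.le (by linarith)
      have k3 : C * (x.1 - v.1) ≤ 0 := mul_nonpos_of_nonpos_of_nonneg pC.le (by linarith)
      have k4 : A * (x.1 - w.1) ≤ 0 := mul_nonpos_of_nonpos_of_nonneg pA.le (by linarith)
      have z2 : B * (x.1 - u.1) = 0 := by linarith
      have z3 : C * (x.1 - v.1) = 0 := by linarith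
      have z4 : A * (x.1 - w.1) = 0 := by linarith
      have y2 := (mul_eq_zero.1 z2).resolve_left pB.ne
      have y3 := (mul_eq_zero.1 z3).resolve_left pC.ne
      have y4 := (mul_eq_zero.1 z4).resolve_left pA.ne
      exact h (eflat (by linarith) (by linarith) (by linarith))
    · simp [tr, cr, ← hA, ← hB, ← hC, nA, nB, nC, pA, pB, pC, hu, hv, hw, not_le.2 hw,
        not_lt.2 hu, not_lt.2 hv]
    · simp [tr, cr, ← hA, ← hB, ← hC, nA, nB, nC, pA, pB, pC, hu, hv, hw, not_le.2 hv,
        not_lt.2 hu, not_lt.2 hw]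
    · simp [tr, cr, ← hA, ← hB, ← hC, nA, nB, nC, pA, pB, pC, hu, hv, hw, not_le.2 hv,
        not_le.2 hw, not_lt.2 hu]
    · simp [tr, cr, ← hA, ← hB, ← hC, nA, nB, nC, pA, pB, pC, hu, hv, hw, not_le.2 hu,
        not_lt.2 hv, not_lt.2 hw]
    · simp [tr, cr, ← hA, ← hB, ← hC, nA, nB, nC, pA, pB, pC, hu, hv, hw, not_le.2 hu,
        not_le.2 hw, not_lt.2 hv]
    · simp [tr, cr, ← hA, ← hB, ← hC, nA, nB, nC, pA, pB, pC, hu, hv, hw, not_le.2 hu,
        not_le.2 hv, not_lt.2 hw]
    · exfalso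
      have k1 : B * (x.1 - u.1) + C * (x.1 - v.1) + A * (x.1 - w.1) = 0 := by
        linear_combination x.1 * esum - emean
      have k2 : 0 < B * (x.1 - u.1) := mul_pos_of_neg_of_neg pB (by linarith)
      have k3 : 0 < C * (x.1 - v.1) := mul_pos_of_neg_of_neg pC (by linarith)
      have k4 : 0 < A * (x.1 - w.1) := mul_pos_of_neg_of_neg pA (by linarith)
      linarith

end Pool.Agent.MP4eed4eX.XO
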