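import Pool.Agent.Lib.MP_4eed4e_an_XO.OSim
import Pool.Agent.Lib.MP_4eed4e_an_XO.OTri
import Pool.Agent.Lib.MP_4eed4e_an_XO.ONear

set_option autoImplicit false

/-!
Project X, block O: points of the triangle at a strictly extreme vertex. Notation in the comments:
`u = q k, v = q (k + 1), w = q (k + 2)`, `α = bc u v w`, `θ = bc v u w`, `γ = bc w u v`.
-/

namespace Pool.Agent.MP4eed4eX.XO

open Set Pool.Agent.MP4eed4eP Topology

/-- The three vertices are not collinear (`k + 2 ≤ d < n`). -/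
theorem det_ne {n : ℕ} {q : ℕ → P} {d k : ℕ} (h : Cho n q d) (hk : k + 1 < d) :
    det2 (q (k + 1) - q k) (q (k + 2) - q k) ≠ 0 := by
  have hd := h.lt
  exact h.gen k (k + 1) (k + 2) (not_mod (by omega) (by omega) (by omega))
    (not_mod (by omega) (by omega) (by omega)) (not_mod (by omega) (by omega) (by omega))

private theorem OIn_mod {n k c : ℕ} (hc : 0 < c) (hn : c < n) : ¬ k ≡ k + c [MOD n] := by
  intro h
  have h1 := (Nat.modEq_iff_dvd' (Nat.le_add_right k c)).1 h
  rw [Nat.add_sub_cancel_left] at h1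
  exact absurd (Nat.le_of_dvd hc h1) (by omega)

private theorem OIn_cyc {u v w : P} (h : det2 (v - u) (w - u) ≠ 0) :
    det2 (w - v) (u - v) ≠ 0 := by
  have e : det2 (w - v) (u - v) = det2 (v - u) (w - u) := by
    simp only [det2, Prod.fst_sub, Prod.snd_sub]; ring
  rwa [e]

private theorem OIn_anti {u v w : P} (h : det2 (v - u) (w - u) ≠ 0) :
    det2 (w - u) (v - u) ≠ 0 := by
  have e : det2 (w - u) (v - u) = -det2 (v - u) (w - u) := by
    simp only [det2, Prod.fst_sub, Prod.snd_sub]; ring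
  rw [e]
  exact neg_ne_zero.2 h

/-- A vertex in the closed triangle is in the interior (`Gen`: a barycentric coordinate `0` means
that three vertices are collinear). -/
theorem pos_of_mem {n : ℕ} {q : ℕ → P} {k l : ℕ} (hg : Gen n q) (h3 : 3 ≤ n)
    (hl : ¬ l ≡ k [MOD n]) (hl1 : ¬ l ≡ k + 1 [MOD n]) (hl2 : ¬ l ≡ k + 2 [MOD n])
    (hT : q l ∈ TT (q k) (q (k + 1)) (q (k + 2))) :
    0 < bc (q k) (q (k + 1)) (q (k + 2)) (q l) ∧ 0 < bc (q (k + 1)) (q k) (q (k + 2)) (q l) ∧
      0 < bc (q (k + 2)) (q k) (q (k + 1)) (q l) := by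
  have m1 : ¬ k ≡ k + 1 [MOD n] := OIn_mod one_pos (by omega)
  have m2 : ¬ k ≡ k + 2 [MOD n] := OIn_mod two_pos (by omega)
  have m3 : ¬ k + 1 ≡ k + 2 [MOD n] := OIn_mod (k := k + 1) one_pos (by omega)
  have hdet := hg k (k + 1) (k + 2) m1 m3 m2
  obtain ⟨t1, t2, t3⟩ := hT
  refine ⟨lt_of_le_of_ne t1 (Ne.symm ?_), lt_of_le_of_ne t2 (Ne.symm ?_),
    lt_of_le_of_ne t3 (Ne.symm ?_)⟩
  · exact div_ne_zero (hg (k + 1) (k + 2) l m3 (fun h => hl2 h.symm) (fun h => hl1 h.symm))
      (OIn_cyc hdet)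
  · exact div_ne_zero (hg k (k + 2) l m2 (fun h => hl2 h.symm) (fun h => hl h.symm))
      (OIn_anti hdet)
  · exact div_ne_zero (hg k (k + 1) l m1 (fun h => hl1 h.symm) (fun h => hl h.symm)) hdet

private theorem OIn_seg {a b m : P} (hm : m ∈ segment ℝ a b) :
    ∃ t ∈ Icc (0 : ℝ) 1, m = (1 - t) • a + t • b := by
  obtain ⟨x, y, hx, hy, hxy, rfl⟩ := hm
  exact ⟨y, ⟨hy, by linarith⟩, by rw [← hxy]; simp⟩

private theorem OIn_max {u v w a b m : P} (hm : m ∈ segment ℝ a b) :
    bc v u w m ≤ bc v u w a ∨ bc v u w m ≤ bc v u w b := by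
  obtain ⟨t, ht, rfl⟩ := OIn_seg hm
  rw [bc_comb]
  rcases le_total (bc v u w a) (bc v u w b) with h | h
  · right
    nlinarith [ht.1, ht.2]
  · left
    nlinarith [ht.1, ht.2]

private theorem OIn_end {n : ℕ} {q : ℕ → P} {d k : ℕ} (h : Cho n q d) (hk : k + 1 < d) {s : ℝ}
    (hs0 : 0 ≤ s)
    (hs : ∀ i ≤ d, i ≠ k + 1 → q i ∈ TT (q k) (q (k + 1)) (q (k + 2)) →
      bc (q (k + 1)) (q k) (q (k + 2)) (q i) ≤ s) {m : P}
    (h1 : 0 < bc (q k) (q (k + 1)) (q (k + 2)) m)
    (h2 : 0 < bc (q (k + 2)) (q k) (q (k + 1)) m)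
    (h3 : s < bc (q (k + 1)) (q k) (q (k + 2)) m) {i : ℕ} (hi : i ≤ d) (hik : i ≠ k + 1)
    (hle : bc (q (k + 1)) (q k) (q (k + 2)) m ≤ bc (q (k + 1)) (q k) (q (k + 2)) (q i)) :
    ∃ x ∈ segment ℝ m (q i), 0 < bc (q (k + 1)) (q k) (q (k + 2)) x ∧
      (x ∈ segment ℝ (q k) (q (k + 1)) ∨ x ∈ segment ℝ (q (k + 1)) (q (k + 2))) := by
  rcases exit (det_ne h hk) h1 h2 (by linarith) hle (by linarith) with hT | hx
  · exact absurd (hs i hi hik hT) (by linarith)
  · exact hx

private theorem OIn_on {n : ℕ} {q : ℕ → P} {d k : ℕ} (h : Cho n q d) (hk : k + 1 < d) {s : ℝ}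
    (hs0 : 0 ≤ s)
    (hs : ∀ i ≤ d, i ≠ k + 1 → q i ∈ TT (q k) (q (k + 1)) (q (k + 2)) →
      bc (q (k + 1)) (q k) (q (k + 2)) (q i) ≤ s) {m : P}
    (h1 : 0 < bc (q k) (q (k + 1)) (q (k + 2)) m)
    (h2 : 0 < bc (q (k + 2)) (q k) (q (k + 1)) m)
    (h3 : s < bc (q (k + 1)) (q k) (q (k + 2)) m) {i j : ℕ} (hi : i ≤ d) (hik : i ≠ k + 1)
    (hj : j ≤ d) (hjk : j ≠ k + 1) (hm : m ∈ segment ℝ (q i) (q j)) :
    ∃ x ∈ segment ℝ (q i) (q j), 0 < bc (q (k + 1)) (q k) (q (k + 2)) x ∧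
      (x ∈ segment ℝ (q k) (q (k + 1)) ∨ x ∈ segment ℝ (q (k + 1)) (q (k + 2))) := by
  rcases OIn_max hm with hle | hle
  · obtain ⟨x, hx, hx2⟩ := OIn_end h hk hs0 hs h1 h2 h3 hi hik hle
    exact ⟨x, (convex_segment _ _).segment_subset hm (left_mem_segment _ _ _) hx, hx2⟩
  · obtain ⟨x, hx, hx2⟩ := OIn_end h hk hs0 hs h1 h2 h3 hj hjk hle
    exact ⟨x, (convex_segment _ _).segment_subset hm (right_mem_segment _ _ _) hx, hx2⟩

/-- NO CROSSING. Let `s ≥ 0` and suppose that `θ (q i) ≤ s` for all vertices `q i`, `i ≤ d`,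
`i ≠ k + 1`, in the triangle. If `α m > 0`, `γ m > 0`, `θ m > s` then `m` is not on the polygon
`q 0, .., q d`.
Proof. The edge `l = k` is `[u, v]`, there `γ = 0`; the edge `l = k + 1` is `[v, w]`, there `α = 0`
(`mem_side`, `bc_swap`). Let `m ∈ [a, b]` with `[a, b]` another edge `l < d` or the closing edge
`[q d, q 0]`. As `θ` is affine on `[a, b]`, one of the ends, say `a` (index `i ≠ k + 1`), has
`θ a ≥ θ m > s ≥ 0`. By `exit` either `a ∈ TT u v w`, against the assumption, or there is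
`x ∈ [m, a]` (so `x ∈ [a, b]`) with `θ x > 0` and `x ∈ [u, v]` (edge `k`) or `x ∈ [v, w]` (edge
`k + 1`). If `[a, b]` is the edge `l`: by `Sim.inter` `x` is a vertex of both edges, and not `u`
or `w`
(`θ = 0` there), so `x = v = q (k + 1)` is an end of the edge `l`, so `l = k` or `l = k + 1`
(`Sim.inj`, all indices are `< n`), contradiction. If `[a, b]` is the closing edge: `Cho.chord`
for the
edge `k` or `k + 1` (both `< d`) gives `x = q 0` or `x = q d`; so this is a vertex on the closed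
edge
`k` or `k + 1`, so (`Sim.vert_seg`) one of `u, v, w`, and not `u`, `w` (`θ = 0`), so `v`; but
`0 < k + 1 < d`. -/
theorem no_cross {n : ℕ} {q : ℕ → P} {d k : ℕ} (h : Cho n q d) (hk : k + 1 < d) {s : ℝ}
    (hs0 : 0 ≤ s)
    (hs : ∀ i ≤ d, i ≠ k + 1 → q i ∈ TT (q k) (q (k + 1)) (q (k + 2)) →
      bc (q (k + 1)) (q k) (q (k + 2)) (q i) ≤ s) {m : P}
    (h1 : 0 < bc (q k) (q (k + 1)) (q (k + 2)) m)
    (h2 : 0 < bc (q (k + 2)) (q k) (q (k + 1)) m)
    (h3 : s < bc (q (k + 1)) (q k) (q (k + 2)) m) :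
    (∀ l < d, m ∉ segment ℝ (q l) (q (l + 1))) ∧ m ∉ segment ℝ (q d) (q 0) := by
  have hdet := det_ne h hk
  have hdn := h.lt
  have hu : ∀ x, 0 < bc (q (k + 1)) (q k) (q (k + 2)) x → x ≠ q k := by
    rintro x hx rfl
    rw [bc_left] at hx
    exact lt_irrefl _ hx
  have hw : ∀ x, 0 < bc (q (k + 1)) (q k) (q (k + 2)) x → x ≠ q (k + 2) := by
    rintro x hx rfl
    rw [bc_right] at hx
    exact lt_irrefl _ hx
  have heq : ∀ a b, a < n → b < n → q a = q b → a = b := by
    intro a b ha hb hab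
    by_contra hne
    exact not_mod ha hb hne (h.sim.inj a b hab)
  constructor
  · intro l hl hm
    by_cases hlk : l = k
    · subst hlk
      exact absurd ((mem_side hdet m).1 hm).1 h2.ne'
    by_cases hlk1 : l = k + 1
    · subst hlk1
      exact absurd ((mem_side (OIn_cyc hdet) m).1 hm).1 h1.ne'
    have hne : ∃ x, x ∈ segment ℝ (q l) (q (l + 1)) ∧ 0 < bc (q (k + 1)) (q k) (q (k + 2)) x ∧
        (x ∈ segment ℝ (q k) (q (k + 1)) ∨ x ∈ segment ℝ (q (k + 1)) (q (k + 2))) := by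
      rcases OIn_max hm with hle | hle
      · obtain ⟨x, hx, hx2⟩ := OIn_end h hk hs0 hs h1 h2 h3 hl.le hlk1 hle
        exact ⟨x, (convex_segment _ _).segment_subset hm (left_mem_segment _ _ _) hx, hx2⟩
      · obtain ⟨x, hx, hx2⟩ := OIn_end h hk hs0 hs h1 h2 h3 (i := l + 1) (by omega)
          (by omega) hle
        exact ⟨x, (convex_segment _ _).segment_subset hm (right_mem_segment _ _ _) hx, hx2⟩
    obtain ⟨x, hx, hx0, hx2⟩ := hne
    have hxv : x = q (k + 1) ∧ (x = q l ∨ x = q (l + 1)) := by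
      rcases hx2 with hx2 | hx2
      · obtain ⟨e1, e2⟩ := h.sim.inter (not_mod (by omega) (by omega) hlk) hx hx2
        exact ⟨e2.resolve_left (hu x hx0), e1⟩
      · obtain ⟨e1, e2⟩ := h.sim.inter (l' := k + 1)
          (not_mod (by omega) (by omega) hlk1) hx hx2
        exact ⟨e2.resolve_right (hw x hx0), e1⟩
    obtain ⟨e0, e1 | e1⟩ := hxv
    · exact hlk1 (heq l (k + 1) (by omega) (by omega) (e1.symm.trans e0))
    · exact hlk (by have := heq (l + 1) (k + 1) (by omega) (by omega) (e1.symm.trans e0); omega)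
  · intro hm
    obtain ⟨x, hx, hx0, hx2⟩ := OIn_on h hk hs0 hs h1 h2 h3 (i := d) (j := 0) le_rfl
      (by omega) (Nat.zero_le _) (by omega) hm
    rw [segment_symm] at hx
    have hmod : ∀ a b, a < n → b < n → a ≡ b [MOD n] → a = b := by
      intro a b ha hb hab
      by_contra hne
      exact not_mod ha hb hne hab
    rcases hx2 with hx2 | hx2
    · rcases h.chord k (by omega) (by omega) ⟨hx2, hx⟩ with e | e
      · subst e
        rcases h.sim.vert_seg hx2 with e | e
        · have := hmod 0 k (by omega) (by omega) e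
          exact hu _ hx0 (by rw [← this])
        · have := hmod 0 (k + 1) (by omega) (by omega) e
          omega
      · rw [mem_singleton_iff] at e
        subst e
        rcases h.sim.vert_seg hx2 with e | e
        · have := hmod d k (by omega) (by omega) e
          omega
        · have := hmod d (k + 1) (by omega) (by omega) e
          omega
    · rcases h.chord (k + 1) (by omega) (by omega) ⟨hx2, hx⟩ with e | e
      · subst e
        rcases h.sim.vert_seg (l := k + 1) hx2 with e | e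
        · have := hmod 0 (k + 1) (by omega) (by omega) e
          omega
        · have := hmod 0 (k + 1 + 1) (by omega) (by omega) e
          omega
      · rw [mem_singleton_iff] at e
        subst e
        rcases h.sim.vert_seg (l := k + 1) hx2 with e | e
        · have := hmod d (k + 1) (by omega) (by omega) e
          omega
        · have := hmod d (k + 1 + 1) (by omega) (by omega) e
          exact hw _ hx0 (by rw [this])

/-- INSIDE. Under the same assumptions the parity of `q 0, .., q d` at `m` is `1`.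
Proof. For `0 < t ≤ 1` the point `m_t = (1 - t) v + t m` satisfies the same assumptions:
`α m_t = t α m > 0`, `γ m_t = t γ m > 0`, `θ m_t = (1 - t) + t θ m ≥ θ m > s` (`θ m < 1` by
`bc_sum`); so
it is not on the polygon (`no_cross`), and `pr q d m_t = pr q d m` by `pr_eq` (the points of the
segment `[m_t, m]` are of the same form). For small `t` we have `lf g (q l) < lf g m_t` for all
`l ≤ d`, `l ≠ k + 1` (`Ext.ext`, finitely many strict inequalities which hold for `t = 0`), so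
`pr q d m_t = tr u v w m_t = 1` (`ext_mid`, `tr_one`). -/
theorem in_one {n : ℕ} {q : ℕ → P} {d k : ℕ} {g : P} (h : Cho n q d) (hk : Ext q d k g) {s : ℝ}
    (hs0 : 0 ≤ s)
    (hs : ∀ i ≤ d, i ≠ k + 1 → q i ∈ TT (q k) (q (k + 1)) (q (k + 2)) →
      bc (q (k + 1)) (q k) (q (k + 2)) (q i) ≤ s) {m : P}
    (h1 : 0 < bc (q k) (q (k + 1)) (q (k + 2)) m)
    (h2 : 0 < bc (q (k + 2)) (q k) (q (k + 1)) m)
    (h3 : s < bc (q (k + 1)) (q k) (q (k + 2)) m) : pr q d m = 1 := by
  have hdet := det_ne h hk.lt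
  have hsum := bc_sum hdet m
  have key : ∀ t ∈ Ioc (0 : ℝ) 1,
      0 < bc (q k) (q (k + 1)) (q (k + 2)) ((1 - t) • q (k + 1) + t • m) ∧
      0 < bc (q (k + 2)) (q k) (q (k + 1)) ((1 - t) • q (k + 1) + t • m) ∧
      s < bc (q (k + 1)) (q k) (q (k + 2)) ((1 - t) • q (k + 1) + t • m) := by
    intro t ht
    rw [bc_comb, bc_comb, bc_comb, bc_left, bc_right, bc_self (OIn_anti hdet)]
    refine ⟨?_, ?_, ?_⟩
    · rw [mul_zero, zero_add]
      exact mul_pos ht.1 h1
    · rw [mul_zero, zero_add]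
      exact mul_pos ht.1 h2
    · nlinarith [ht.2, ht.1]
  have hno : ∀ t ∈ Ioc (0 : ℝ) 1,
      (∀ l < d, (1 - t) • q (k + 1) + t • m ∉ segment ℝ (q l) (q (l + 1))) ∧
        (1 - t) • q (k + 1) + t • m ∉ segment ℝ (q d) (q 0) := by
    intro t ht
    obtain ⟨a1, a2, a3⟩ := key t ht
    exact no_cross h hk.lt hs0 hs a1 a2 a3
  have hpr : ∀ t ∈ Ioc (0 : ℝ) 1, pr q d ((1 - t) • q (k + 1) + t • m) = pr q d m := by
    intro t ht
    have hseg : ∀ z ∈ segment ℝ ((1 - t) • q (k + 1) + t • m) m,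
        ∃ r ∈ Ioc (0 : ℝ) 1, z = (1 - r) • q (k + 1) + r • m := by
      intro z hz
      obtain ⟨c, hc, rfl⟩ := OIn_seg hz
      refine ⟨(1 - c) * t + c, ⟨?_, ?_⟩, ?_⟩
      · rcases eq_or_lt_of_le hc.1 with h0 | h0
        · rw [← h0]; linarith [ht.1]
        · nlinarith [ht.1, hc.2]
      · nlinarith [ht.2, hc.2]
      · module
    refine pr_eq ?_ ?_
    · intro l hl
      rw [Set.disjoint_left]
      intro z hz hz2
      obtain ⟨r, hr, rfl⟩ := hseg z hz2
      exact (hno r hr).1 l hl hz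
    · rw [Set.disjoint_left]
      intro z hz hz2
      obtain ⟨r, hr, rfl⟩ := hseg z hz2
      exact (hno r hr).2 hz
  have hev : ∀ᶠ t in 𝓝[>] (0 : ℝ), ∀ l ∈ Finset.range (d + 1), l ≠ k + 1 →
      lf g (q l) < lf g ((1 - t) • q (k + 1) + t • m) := by
    rw [Filter.eventually_all_finset]
    intro l hl
    by_cases hlk : l = k + 1
    · exact Filter.Eventually.of_forall fun t hne => absurd hlk hne
    · have hlt := hk.ext l (by rw [Finset.mem_range] at hl; omega) hlk
      have hcont : Continuous fun t : ℝ => lf g ((1 - t) • q (k + 1) + t • m) := by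
        unfold lf
        fun_prop
      have h0 : lf g (q l) < lf g ((1 - (0 : ℝ)) • q (k + 1) + (0 : ℝ) • m) := by
        simpa using hlt
      have := (hcont.tendsto 0).eventually (lt_mem_nhds h0)
      filter_upwards [nhdsWithin_le_nhds this] with t ht _
      exact ht
  obtain ⟨t, ht, htI⟩ := (hev.and (Ioc_mem_nhdsGT (one_pos : (0 : ℝ) < 1))).exists
  rw [← hpr t htI, ext_mid hk.lt (g := g) (fun l hl hlk => ht l
    (Finset.mem_range.2 (by omega)) hlk)]
  obtain ⟨a1, a2, a3⟩ := key t htI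
  exact tr_one hdet a1 (by linarith) a2

/-- CASE A of the free vertex theorem: if no other vertex of the chain is in the triangle, then the
vertex `k + 1` is free. Proof: let `l` be given with `q l ∈ TT u v w`, we may assume `l < n`. If
`l ≤ d` this is `hA`. If `d < l < n`: `Cho.out` gives `pr q d (q l) = 0`. But `in_one` with `s = 0`,
`m = q l` (`pos_of_mem`) gives `1`. (The assumption `hs` of `in_one` with `s = 0`: only `i = k`,
`i = k + 2` remain, there `θ = 0`.) -/
theorem case_a {n : ℕ} {q : ℕ → P} {d k : ℕ} {g : P} (h : Cho n q d) (hk : Ext q d k g)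
    (hA : ∀ l ≤ d, l ≠ k → l ≠ k + 1 → l ≠ k + 2 →
      q l ∉ TT (q k) (q (k + 1)) (q (k + 2))) : Fre n q k := by
  intro l hl hl1 hl2 hT
  have h3 : 3 ≤ n := by have := h.two; have := h.lt; omega
  have hmod : l % n ≡ l [MOD n] := Nat.mod_modEq l n
  have hlt : l % n < n := Nat.mod_lt _ (by omega)
  have hq : q (l % n) = q l := h.sim.eq_of_mod hmod
  rcases le_or_gt (l % n) d with hd | hd
  · refine hA (l % n) hd ?_ ?_ ?_ (by rw [hq]; exact hT)
    · intro e
      exact hl (hmod.symm.trans (by rw [e]))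
    · intro e
      exact hl1 (hmod.symm.trans (by rw [e]))
    · intro e
      exact hl2 (hmod.symm.trans (by rw [e]))
  · have h0 := h.out (l % n) hd hlt
    obtain ⟨p1, p2, p3⟩ := pos_of_mem h.gen h3 hl hl1 hl2 hT
    have h1 : pr q d (q l) = 1 := by
      refine in_one h hk le_rfl ?_ p1 p3 p2
      intro i hi hik hTi
      by_cases e1 : i = k
      · subst e1
        rw [bc_left]
      by_cases e2 : i = k + 2
      · subst e2
        rw [bc_right]
      exact absurd hTi (hA i hi e1 hik e2)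
    rw [hq, h1] at h0
    exact one_ne_zero h0

end Pool.Agent.MP4eed4eX.XO
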