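import Pool.Agent.Lib.MP_4eed4e_an_XO.OCcw
import Pool.Agent.Lib.MP_4eed4e_an_XO.OIns

set_option autoImplicit false

/-!
Project X, block O: the midpoint of the closing edge of a convex polygon is pushed outwards.
-/

namespace Pool.Agent.MP4eed4eX.XO

open Set Pool.Agent.MP4eed4eP

private theorem OPush_pos {m : ℕ} {q : Fin (m + 3) → P} (h : Ccw q) (i j : Fin (m + 3))
    (hij : i < j) : ∀ᶠ t : ℝ in nhdsWithin (0 : ℝ) (Ioi 0),
      0 < det2 (q j - q i) (mi q - q i) + t * det2 (q j - q i)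
        (-(q (Fin.last (m + 2)) - q 0).2, (q (Fin.last (m + 2)) - q 0).1) := by
  have hA : det2 (q j - q i) (mi q - q i) =
      1 / 2 * det2 (q j - q i) (q (Fin.last (m + 2)) - q i) +
      1 / 2 * det2 (q j - q i) (q 0 - q i) := by
    simp only [det2, mi, Prod.fst_sub, Prod.snd_sub, Prod.fst_add, Prod.snd_add, Prod.smul_fst,
      Prod.smul_snd, smul_eq_mul]
    ring
  have h1 : 0 ≤ det2 (q j - q i) (q (Fin.last (m + 2)) - q i) := by
    rcases (Fin.le_last j).eq_or_lt with hj | hj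
    · rw [hj]
      simp only [det2]
      exact le_of_eq (by ring)
    · exact (h i j _ hij hj).le
  have h2 : 0 ≤ det2 (q j - q i) (q 0 - q i) := by
    rcases (Fin.zero_le i).eq_or_lt with hi | hi
    · rw [← hi]
      simp [det2]
    · have h3 := h 0 i j hi hij
      simp only [det2, Prod.fst_sub, Prod.snd_sub] at h3 ⊢
      nlinarith
  by_cases hij' : i = 0 ∧ j = Fin.last (m + 2)
  · obtain ⟨hi, hj⟩ := hij'
    have h01 : (0 : Fin (m + 3)) < 1 := by
      rw [Fin.lt_def]
      simp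
    have h1l : (1 : Fin (m + 3)) < Fin.last (m + 2) := by
      rw [Fin.lt_def]
      simp
    have hne := h 0 1 (Fin.last (m + 2)) h01 h1l
    have hB : 0 < det2 (q j - q i)
        (-(q (Fin.last (m + 2)) - q 0).2, (q (Fin.last (m + 2)) - q 0).1) := by
      rw [hi, hj]
      simp only [det2] at hne ⊢
      rcases eq_or_ne (q (Fin.last (m + 2)) - q 0).1 0 with e1 | e1
      · rcases eq_or_ne (q (Fin.last (m + 2)) - q 0).2 0 with e2 | e2
        · rw [e1, e2] at hne
          simp at hne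
        · rw [e1]
          have := mul_self_pos.2 e2
          nlinarith
      · have := mul_self_pos.2 e1
        nlinarith [mul_self_nonneg (q (Fin.last (m + 2)) - q 0).2]
    filter_upwards [self_mem_nhdsWithin] with t ht
    have ht' : (0 : ℝ) < t := ht
    have := mul_pos ht' hB
    rw [hA]
    linarith
  · have hpos : 0 < det2 (q j - q i) (mi q - q i) := by
      rw [hA]
      rcases not_and_or.1 hij' with hi | hj
      · have h3 := h 0 i j (Fin.pos_iff_ne_zero.2 hi) hij
        have h4 : det2 (q j - q i) (q 0 - q i) = det2 (q i - q 0) (q j - q 0) := by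
          simp only [det2, Prod.fst_sub, Prod.snd_sub]
          ring
        rw [h4]
        linarith
      · have h3 := h i j _ hij ((Fin.le_last j).lt_of_ne hj)
        linarith
    have hc : ContinuousAt (fun t : ℝ => det2 (q j - q i) (mi q - q i) + t * det2 (q j - q i)
        (-(q (Fin.last (m + 2)) - q 0).2, (q (Fin.last (m + 2)) - q 0).1)) 0 := by
      fun_prop
    have h5 := hc.eventually (lt_mem_nhds (a := (0 : ℝ)) (by simpa using hpos))
    exact h5.filter_mono nhdsWithin_le_nhds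

private theorem OPush_ccw {m : ℕ} {q : Fin (m + 3) → P} (h : Ccw q) {t : ℝ}
    (ht : ∀ i j : Fin (m + 3), i < j →
      0 < det2 (q j - q i) (mi q - q i) + t * det2 (q j - q i)
        (-(q (Fin.last (m + 2)) - q 0).2, (q (Fin.last (m + 2)) - q 0).1)) :
    Ccw (sn q (mi q + t •
      ((-(q (Fin.last (m + 2)) - q 0).2, (q (Fin.last (m + 2)) - q 0).1) : P))) := by
  intro i j k hij hjk
  have hi : (i : ℕ) < m + 3 := by
    have := k.2
    rw [Fin.lt_def] at hij hjk
    omega
  have hj : (j : ℕ) < m + 3 := by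
    have := k.2
    rw [Fin.lt_def] at hjk
    omega
  have ei : ∀ z, sn q z i = q ⟨i, hi⟩ := fun z => dif_pos hi
  have ej : ∀ z, sn q z j = q ⟨j, hj⟩ := fun z => dif_pos hj
  have hij2 : (⟨i, hi⟩ : Fin (m + 3)) < ⟨j, hj⟩ := by
    rw [Fin.lt_def] at hij ⊢
    exact hij
  rw [ei, ej]
  by_cases hk : (k : ℕ) < m + 3
  · have ek : ∀ z, sn q z k = q ⟨k, hk⟩ := fun z => dif_pos hk
    rw [ek]
    refine h _ _ _ hij2 ?_
    rw [Fin.lt_def] at hjk ⊢
    exact hjk
  · have ek : ∀ z, sn q z k = z := fun z => dif_neg hk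
    rw [ek]
    have h3 := ht _ _ hij2
    have h4 : det2 (q ⟨j, hj⟩ - q ⟨i, hi⟩) (mi q + t •
        ((-(q (Fin.last (m + 2)) - q 0).2, (q (Fin.last (m + 2)) - q 0).1) : P) - q ⟨i, hi⟩) =
        det2 (q ⟨j, hj⟩ - q ⟨i, hi⟩) (mi q - q ⟨i, hi⟩) + t * det2 (q ⟨j, hj⟩ - q ⟨i, hi⟩)
        (-(q (Fin.last (m + 2)) - q 0).2, (q (Fin.last (m + 2)) - q 0).1) := by
      simp only [det2, Prod.fst_sub, Prod.snd_sub, Prod.fst_add, Prod.snd_add, Prod.smul_fst,
        Prod.smul_snd, smul_eq_mul]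
      ring
    rw [h4]
    exact h3

/-- Let `e = q (Fin.last _) - q 0`, `ν = (-e.2, e.1)`, `z = mi q + ε ν`. For `i < j < m + 3` let
`A i j = det2 (q j - q i) (mi q - q i)`, `B i j = det2 (q j - q i) ν`. Then `A i j = 1/2 det2 (q j
- q i) (q (last) - q i) + 1/2 det2 (q j - q i) (q 0 - q i)`; the first term is positive if `j ≠
last` and `0` if `j = last`, the second one is positive if `i ≠ 0` (`det2 (q j - q i) (q 0 - q i)
= det2 (q i - q 0) (q j - q 0)`) and `0` if `i = 0`. So `A i j > 0` except for `(i, j) = (0,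
last)`, where `A = 0` and `B = det2 e ν = e.1 ^ 2 + e.2 ^ 2 > 0`. For small `ε > 0` (finitely many
conditions `ε |B i j| < A i j`) all `A i j + s ε B i j`, `0 < s ≤ 1`, are positive, so `sn q ((1 -
s) mi q + s z) = sn q (mi q + s ε ν)` is `Ccw`, and `SLG` by `slg_ccw`. For `s = 0` use `ins`,
`slg_sn`, `slg_snq`, `slg_ccw`. -/
theorem push {m : ℕ} {q : Fin (m + 3) → P} (h : Ccw q) : ∃ z : P, Ccw (sn q z) ∧
    ∀ s ∈ Icc (0 : ℝ) 1, SLG (sn q ((1 - s) • mi q + s • z)) (cyc (m + 4)) := by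
  have hall : ∀ᶠ t : ℝ in nhdsWithin (0 : ℝ) (Ioi 0), ∀ i j : Fin (m + 3), i < j →
      0 < det2 (q j - q i) (mi q - q i) + t * det2 (q j - q i)
        (-(q (Fin.last (m + 2)) - q 0).2, (q (Fin.last (m + 2)) - q 0).1) := by
    rw [Filter.eventually_all]
    intro i
    rw [Filter.eventually_all]
    intro j
    by_cases hij : i < j
    · filter_upwards [OPush_pos h i j hij] with t ht _ using ht
    · exact Filter.Eventually.of_forall fun t ht => absurd ht hij
  obtain ⟨ε0, hε0, hsub⟩ := mem_nhdsGT_iff_exists_Ioo_subset.1 hall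
  have hε0' : (0 : ℝ) < ε0 := hε0
  have hccw : ∀ t ∈ Ioo (0 : ℝ) ε0, Ccw (sn q (mi q + t •
      ((-(q (Fin.last (m + 2)) - q 0).2, (q (Fin.last (m + 2)) - q 0).1) : P))) :=
    fun t ht => OPush_ccw h (hsub ht)
  refine ⟨mi q + (ε0 / 2) •
      ((-(q (Fin.last (m + 2)) - q 0).2, (q (Fin.last (m + 2)) - q 0).1) : P),
      hccw _ ⟨by linarith, by linarith⟩, ?_⟩
  rintro s ⟨hs0, hs1⟩
  rcases hs0.eq_or_lt with rfl | hs
  · rw [sub_zero, one_smul, zero_smul, add_zero]
    exact (slg_sn q _).2 ((ins q).2 ((slg_snq q).1 (slg_ccw h)))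
  · have he : (1 - s) • mi q + s • (mi q + (ε0 / 2) •
        ((-(q (Fin.last (m + 2)) - q 0).2, (q (Fin.last (m + 2)) - q 0).1) : P)) =
        mi q + (s * (ε0 / 2)) •
        ((-(q (Fin.last (m + 2)) - q 0).2, (q (Fin.last (m + 2)) - q 0).1) : P) := by
      module
    rw [he]
    refine slg_ccw (m := m + 1) (hccw _ ⟨by positivity, ?_⟩)
    nlinarith

end Pool.Agent.MP4eed4eX.XO
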