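import Pool.Agent.Lib.MP_4eed4e_an_XO.ODefs

set_option autoImplicit false

/-!
Project X, block O: elementary facts about simple periodic sequences.
-/

namespace Pool.Agent.MP4eed4eX.XO

open Set Pool.Agent.MP4eed4eP

theorem Sim.eq_of_mod {n : ℕ} {q : ℕ → P} (h : Sim n q) {a b : ℕ} (hab : a ≡ b [MOD n]) :
    q a = q b := by
  have hp : Function.Periodic q n := h.per
  rw [← hp.map_mod_nat a, ← hp.map_mod_nat b]
  exact congrArg q hab

theorem not_mod {n a b : ℕ} (ha : a < n) (hb : b < n) (hab : a ≠ b) : ¬ a ≡ b [MOD n] := by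
  intro h
  apply hab
  have h' : a % n = b % n := h
  rwa [Nat.mod_eq_of_lt ha, Nat.mod_eq_of_lt hb] at h'

theorem Sim.shift {n : ℕ} {q : ℕ → P} (h : Sim n q) (r : ℕ) : Sim n (fun l => q (l + r)) := by
  refine ⟨fun l => ?_, fun a b hab => ?_, fun l k => ?_, fun l l' hl => ?_⟩
  · have := h.per (l + r)
    simpa only [show l + n + r = l + r + n by ring] using this
  · exact Nat.ModEq.add_right_cancel' r (h.inj _ _ hab)
  · have := h.vert (l + r) (k + r)
    simpa only [show l + 1 + r = l + r + 1 by ring] using this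
  · have := h.disj (l + r) (l' + r) (fun hh => hl (Nat.ModEq.add_right_cancel' r hh))
    simpa only [show l + 1 + r = l + r + 1 by ring, show l' + 1 + r = l' + r + 1 by ring]
      using this

theorem Gen.shift {n : ℕ} {q : ℕ → P} (h : Gen n q) (r : ℕ) : Gen n (fun l => q (l + r)) := by
  intro a b c h1 h2 h3
  exact h (a + r) (b + r) (c + r) (fun hh => h1 (Nat.ModEq.add_right_cancel' r hh))
    (fun hh => h2 (Nat.ModEq.add_right_cancel' r hh))
    (fun hh => h3 (Nat.ModEq.add_right_cancel' r hh))

theorem Fre.shift {n : ℕ} {q : ℕ → P} {r k : ℕ} (h : Fre n (fun l => q (l + r)) k)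
    (hq : Sim n q) (hn : 0 < n) : Fre n q (k + r) := by
  intro l h0 h1 h2
  obtain ⟨N, rfl⟩ : ∃ N, n = N + 1 := ⟨n - 1, by omega⟩
  have key : l + N * r + r ≡ l [MOD (N + 1)] := by
    have e : l + N * r + r = l + (N + 1) * r := by ring
    rw [e]
    exact Nat.add_mul_mod_self_left l (N + 1) r
  have hs := h (l + N * r)
    (fun hh => h0 (key.symm.trans (hh.add_right r)))
    (fun hh => h1 (key.symm.trans ((hh.add_right r).trans
      (by rw [show k + 1 + r = k + r + 1 by ring]))))
    (fun hh => h2 (key.symm.trans ((hh.add_right r).trans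
      (by rw [show k + 2 + r = k + r + 2 by ring]))))
  have e1 : q (l + N * r + r) = q l := hq.eq_of_mod key
  simp only [e1, show k + 1 + r = k + r + 1 by ring, show k + 2 + r = k + r + 2 by ring] at hs
  exact hs

/-- Consecutive vertices are different. -/
theorem Sim.ne_succ {n : ℕ} {q : ℕ → P} (h : Sim n q) (hn : 2 ≤ n) (l : ℕ) :
    q l ≠ q (l + 1) := by
  intro he
  have h1 := h.inj _ _ he
  have h2 : n ∣ (l + 1) - l := (Nat.modEq_iff_dvd' (Nat.le_succ l)).1 h1
  rw [Nat.add_sub_cancel_left] at h2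
  have := Nat.le_of_dvd one_pos h2
  omega

/-- A vertex on a closed edge is an end of the edge. (A closed segment is the open segment together
with its ends; injectivity.) -/
theorem Sim.vert_seg {n : ℕ} {q : ℕ → P} (h : Sim n q) {l k : ℕ}
    (hk : q k ∈ segment ℝ (q l) (q (l + 1))) : k ≡ l [MOD n] ∨ k ≡ l + 1 [MOD n] := by
  rw [← insert_endpoints_openSegment] at hk
  rcases hk with hk | hk | hk
  · exact Or.inl (h.inj _ _ hk)
  · exact Or.inr (h.inj _ _ hk)
  · exact absurd hk (h.vert l k)

/-- Two different closed edges meet only in common ends. Proof: `x` is not in the open edge `l`,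
otherwise it is not in the open edge `l'` (`disj`) and not an end of `l'` (`vert`); so `x` is an end
of `l`; in the same way it is an end of `l'`. -/
theorem Sim.inter {n : ℕ} {q : ℕ → P} (h : Sim n q) {l l' : ℕ} (hl : ¬ l ≡ l' [MOD n]) {x : P}
    (hx : x ∈ segment ℝ (q l) (q (l + 1))) (hx' : x ∈ segment ℝ (q l') (q (l' + 1))) :
    (x = q l ∨ x = q (l + 1)) ∧ (x = q l' ∨ x = q (l' + 1)) := by
  have half : ∀ a b : ℕ, ¬ a ≡ b [MOD n] → x ∈ segment ℝ (q a) (q (a + 1)) →
      x ∈ segment ℝ (q b) (q (b + 1)) → x = q a ∨ x = q (a + 1) := by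
    intro a b hab ha hb
    rw [← insert_endpoints_openSegment] at ha hb
    rcases ha with ha | ha | ha
    · exact Or.inl ha
    · exact Or.inr ha
    · exfalso
      rcases hb with hb | hb | hb
      · exact h.vert a b (hb ▸ ha)
      · exact h.vert a (b + 1) (hb ▸ ha)
      · exact Set.disjoint_left.1 (h.disj a b hab) ha hb
  exact ⟨half l l' hl hx hx', half l' l (fun hh => hl hh.symm) hx' hx⟩

/-- Start of the induction: the chain of all vertices; its chord is the closing edge. `chord` for
`l < n`, `l ≠ n - 1` follows from `Sim.inter` for the edges `l` and `n - 1` (`q n = q 0`); `out` is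
empty. -/
theorem cho_start {n : ℕ} {q : ℕ → P} (h : Sim n q) (hg : Gen n q) (hn : 3 ≤ n) :
    Cho n q (n - 1) := by
  refine ⟨h, hg, by omega, by omega, ?_, ?_⟩
  · intro l hl hne x hx
    have hl' : l ≠ n - 1 := fun hh => hne ⟨by omega, hh⟩
    have e : q (n - 1 + 1) = q 0 := by
      rw [show n - 1 + 1 = 0 + n by omega]
      exact h.per 0
    have hx2 : x ∈ segment ℝ (q (n - 1)) (q (n - 1 + 1)) := by
      rw [e, segment_symm]
      exact hx.2
    have := (h.inter (not_mod hl (by omega) hl') hx.1 hx2).2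
    rw [e] at this
    rcases this with h1 | h1
    · exact Or.inr h1
    · exact Or.inl h1
  · intro l h1 h2
    omega

end Pool.Agent.MP4eed4eX.XO
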