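import Pool.Agent.Lib.MP_4eed4e_an_XO.OSlg
import Pool.Agent.Lib.MP_4eed4e_an_XO.OSim

set_option autoImplicit false

/-!
Project X, block O: rotation of the indices.
-/

namespace Pool.Agent.MP4eed4eX.XO

open Set Pool.Agent.MP4eed4eP

private theorem ofNat_congr {m a b : ℕ} (h : a % (m + 3) = b % (m + 3)) :
    Fin.ofNat (m + 3) a = Fin.ofNat (m + 3) b := by
  rw [Fin.ext_iff]
  exact h

/-- `pe p l = p (l % (m + 3))`. -/
theorem pe_ro {m : ℕ} (r : ℕ) (p : Fin (m + 3) → P) (l : ℕ) : pe (ro r p) l = pe p (l + r) := by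
  unfold pe ro pe
  congr 1
  apply ofNat_congr
  change (l % (m + 3) + r) % (m + 3) = (l + r) % (m + 3)
  rw [Nat.mod_add_mod]

theorem pe_val {m : ℕ} (p : Fin (m + 3) → P) (i : Fin (m + 3)) : pe p i = p i := by
  unfold pe
  congr 1
  apply Fin.ext
  simp [Fin.ofNat, Nat.mod_eq_of_lt i.2]

private theorem pe_mod {m : ℕ} (p : Fin (m + 3) → P) {a b : ℕ}
    (h : a % (m + 3) = b % (m + 3)) : pe p a = pe p b := by
  unfold pe
  rw [ofNat_congr h]

theorem ro_back {m : ℕ} (r : ℕ) : ∃ r' : ℕ, ∀ p : Fin (m + 3) → P, ro r' (ro r p) = p := by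
  refine ⟨(m + 2) * r, fun p => funext fun i => ?_⟩
  have h1 : ro ((m + 2) * r) (ro r p) i = pe (ro r p) (i + (m + 2) * r) := rfl
  rw [h1, pe_ro, ← pe_val p i]
  apply pe_mod
  have h2 : (i : ℕ) + (m + 2) * r + r = (i : ℕ) + (m + 3) * r := by ring
  rw [h2]
  exact Nat.add_mul_mod_self_left _ _ _

theorem continuous_ro {m : ℕ} (r : ℕ) :
    Continuous (ro r : (Fin (m + 3) → P) → Fin (m + 3) → P) :=
  continuous_pi fun i => continuous_apply (Fin.ofNat (m + 3) (i + r))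

/-- `slg_iff`, `pe_ro`, `Sim.shift`. -/
theorem slg_ro {m : ℕ} {p : Fin (m + 3) → P} (h : SLG p (cyc (m + 3))) (r : ℕ) :
    SLG (ro r p) (cyc (m + 3)) := by
  rw [slg_iff] at h ⊢
  have h1 : pe (ro r p) = fun l => pe p (l + r) := funext fun l => pe_ro r p l
  rw [h1]
  exact h.shift r

theorem rf_ro {m : ℕ} (r : ℕ) (p : Fin (m + 3) → P) : rf (ro r p) = ro r (rf p) := rfl

private theorem ccw_one {m : ℕ} {p : Fin (m + 3) → P} (h : Ccw p) : Ccw (ro 1 p) := by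
  intro i j k hij hjk
  have hij' : (i : ℕ) < j := hij
  have hjk' : (j : ℕ) < k := hjk
  have hk := k.2
  have e : ∀ (a : Fin (m + 3)) (ha : (a : ℕ) + 1 < m + 3), ro 1 p a = p ⟨(a : ℕ) + 1, ha⟩ := by
    intro a ha
    exact pe_val p ⟨(a : ℕ) + 1, ha⟩
  rw [e i (by omega), e j (by omega)]
  by_cases hk1 : (k : ℕ) + 1 < m + 3
  · rw [e k hk1]
    exact h _ _ _ (Fin.mk_lt_mk.2 (by omega)) (Fin.mk_lt_mk.2 (by omega))
  · have hk2 : ro 1 p k = p ⟨0, by omega⟩ := by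
      have h1 : ro 1 p k = pe p (k + 1) := rfl
      rw [h1, ← pe_val p ⟨0, by omega⟩]
      apply pe_mod
      change ((k : ℕ) + 1) % (m + 3) = 0 % (m + 3)
      rw [show (k : ℕ) + 1 = m + 3 by omega, Nat.mod_self, Nat.zero_mod]
    rw [hk2]
    have h2 := h ⟨0, by omega⟩ ⟨(i : ℕ) + 1, by omega⟩ ⟨(j : ℕ) + 1, by omega⟩
      (Fin.mk_lt_mk.2 (by omega)) (Fin.mk_lt_mk.2 (by omega))
    unfold det2 at h2 ⊢
    simp only [Prod.fst_sub, Prod.snd_sub] at h2 ⊢
    linarith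

/-- It is enough to prove this for `r = 1` (`ro (r + 1) p = ro 1 (ro r p)`). Let `i < j < k`. If
`k + 1 < m + 3`, `i + 1 < j + 1 < k + 1`. If `k = m + 2`, then `ro 1 p k = p 0` and
`det2 (p (j + 1) - p (i + 1)) (p 0 - p (i + 1)) = det2 (p (i + 1) - p 0) (p (j + 1) - p 0)`. -/
theorem ccw_ro {m : ℕ} {p : Fin (m + 3) → P} (h : Ccw p) (r : ℕ) : Ccw (ro r p) := by
  induction r with
  | zero =>
    have h1 : ro 0 p = p := funext fun i => pe_val p i
    rw [h1]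
    exact h
  | succ r ih =>
    have h1 : ro (r + 1) p = ro 1 (ro r p) := by
      funext i
      have h2 : ro 1 (ro r p) i = pe (ro r p) (i + 1) := rfl
      have h3 : ro (r + 1) p i = pe p (i + (r + 1)) := rfl
      rw [h2, h3, pe_ro, show (i : ℕ) + (r + 1) = (i : ℕ) + 1 + r by ring]
    rw [h1]
    exact ccw_one ih

/-- Continuous images of paths. -/
theorem joined_map {n n' : ℕ} {f : (Fin n → P) → Fin n' → P} (hf : Continuous f)
    (hS : ∀ p ∈ SS n, f p ∈ SS n') {p q : Fin n → P} (h : JoinedIn (SS n) p q) :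
    JoinedIn (SS n') (f p) (f q) := by
  obtain ⟨γ, hγ⟩ := h
  exact ⟨γ.map hf, fun t => hS _ (hγ t)⟩

end Pool.Agent.MP4eed4eX.XO
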