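import Pool.Agent.Lib.MP_4eed4e_an_XO.OFree
import Pool.Agent.Lib.MP_4eed4e_an_XO.OFlat
import Pool.Agent.Lib.MP_4eed4e_an_XO.OPush
import Pool.Agent.Lib.MP_4eed4e_an_XO.ORot
import Pool.Agent.Lib.MP_4eed4e_an_XO.OGp
import Pool.Agent.Lib.MP_4eed4e_an_XO.OBase

set_option autoImplicit false

/-!
Project X, block O: every simple polygon is joined to a convex one.
-/

namespace Pool.Agent.MP4eed4eX.XO

open Set Pool.Agent.MP4eed4eP

/-- Moving one vertex along a segment. The segment from `sn q z` to `sn q z'` consists of the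
polygons
`sn q ((1 - s) z + s z')`; `JoinedIn.of_segment_subset`. -/
theorem joined_seg {m : ℕ} {q : Fin (m + 3) → P} {z z' : P}
    (h : ∀ s ∈ Icc (0 : ℝ) 1, SLG (sn q ((1 - s) • z + s • z')) (cyc (m + 4))) :
    JoinedIn (SS (m + 4)) (sn q z) (sn q z') := by
  refine JoinedIn.of_segment_subset ?_
  rintro w ⟨a, b, ha, hb, hab, rfl⟩
  have e : a • sn q z + b • sn q z' = sn q ((1 - b) • z + b • z') := by
    have ha' : a = 1 - b := by linarith
    funext i
    simp only [Pi.add_apply, Pi.smul_apply, sn]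
    by_cases hi : (i : ℕ) < m + 3
    · rw [dif_pos hi, dif_pos hi, dif_pos hi, ← add_smul, hab, one_smul]
    · rw [dif_neg hi, dif_neg hi, dif_neg hi, ha']
  rw [e]
  exact h b ⟨hb, by linarith⟩

/-- `push` for both orientations (for the second one apply `push` to `rf q` and reflect:
`rf_rf`, `rf_sn`, `mi_rf`, `slg_rf`, `joined_map` with `continuous_rf`), `joined_seg`. -/
theorem joined_push {m : ℕ} {q : Fin (m + 3) → P} (h : Ccw q ∨ Ccw (rf q)) :
    ∃ q' : Fin (m + 4) → P, (Ccw q' ∨ Ccw (rf q')) ∧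
      JoinedIn (SS (m + 4)) (sn q (mi q)) q' := by
  rcases h with h | h
  · obtain ⟨z, h1, h2⟩ := push h
    exact ⟨sn q z, Or.inl h1, joined_seg h2⟩
  · obtain ⟨z, h1, h2⟩ := push h
    have h3 := joined_map continuous_rf (fun p hp => slg_rf hp) (joined_seg h2)
    have h4 : rf (sn (rf q) (mi (rf q))) = sn q (mi q) := by
      rw [rf_sn, rf_rf, mi_rf]
      simp
    rw [h4] at h3
    refine ⟨rf (sn (rf q) z), Or.inr ?_, h3⟩
    rw [rf_rf]
    exact h1

/-- A polygon without collinear triples whose last vertex is free (`Fre` for `k = m + 2`: the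
triangle of the vertices `m + 2, m + 3, m + 4 = 0`). With `q i = p (i.castSucc)`, `v = p (last)`:
`p = sn q v`, `Flt q v` (`slg_sn`, `Gen` for `det`, `line`; `Fre` for `free`), `Flt.flat`,
`joined_seg`; the end of the path is `sn q (mi q)`, in `SS (m + 4)`, so `SLG q (cyc (m + 3))`
(`slg_sn_mi`). -/
theorem joined_flat {m : ℕ} {p : Fin (m + 4) → P} (h : SLG p (cyc (m + 4)))
    (hg : Gen (m + 4) (pe p)) (hf : Fre (m + 4) (pe p) (m + 2)) :
    ∃ q : Fin (m + 3) → P, SLG q (cyc (m + 3)) ∧ JoinedIn (SS (m + 4)) p (sn q (mi q)) := by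
  set q : Fin (m + 3) → P := fun i => p i.castSucc with hq
  set v : P := p (Fin.last (m + 3)) with hv
  have e : p = sn q v := by
    funext i
    unfold sn
    by_cases hi : (i : ℕ) < m + 3
    · rw [dif_pos hi]
      rfl
    · rw [dif_neg hi, hv]
      congr 1
      apply Fin.ext
      rw [Fin.val_last]
      have := i.2
      omega
  have e1 : pe p (m + 2) = q (Fin.last (m + 2)) :=
    pe_val (m := m + 1) p (Fin.castSucc (Fin.last (m + 2)))
  have e2 : pe p (m + 3) = v := pe_val (m := m + 1) p (Fin.last (m + 3))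
  have ek : ∀ k : Fin (m + 3), pe p k = q k := fun k => pe_val (m := m + 1) p k.castSucc
  have e0 : pe p 0 = q 0 := ek 0
  have e4 : pe p (m + 2 + 2) = q 0 := by
    rw [← e0]
    unfold pe
    congr 1
    apply Fin.ext
    change (m + 4) % (m + 4) = 0 % (m + 4)
    rw [Nat.mod_self, Nat.zero_mod]
  have hk : ∀ k : Fin (m + 3), k ≠ 0 → k ≠ Fin.last (m + 2) → 0 < (k : ℕ) ∧ (k : ℕ) < m + 2 := by
    intro k h0 h1
    have h2 : (k : ℕ) ≠ 0 := fun h' => h0 (Fin.ext h')
    have h3 : (k : ℕ) ≠ m + 2 := fun h' => h1 (Fin.ext h')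
    have := k.2
    omega
  have hF : Flt q v := by
    refine ⟨(slg_sn q v).1 (e ▸ h), ?_, ?_, ?_⟩
    · have h1 := hg (m + 2) (m + 3) 0 (not_mod (by omega) (by omega) (by omega))
        (not_mod (by omega) (by omega) (by omega)) (not_mod (by omega) (by omega) (by omega))
      rwa [e1, e2, e0] at h1
    · intro k h0 h1
      obtain ⟨h2, h3⟩ := hk k h0 h1
      have h4 := hg (m + 2) 0 k (not_mod (by omega) (by omega) (by omega))
        (not_mod (by omega) (by omega) (by omega)) (not_mod (by omega) (by omega) (by omega))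
      rwa [e1, e0, ek] at h4
    · intro k h0 h1
      obtain ⟨h2, h3⟩ := hk k h0 h1
      have h4 := hf k (not_mod (by omega) (by omega) (by omega))
        (not_mod (by omega) (by omega) (by omega)) (by
          intro h5
          have h6 : (k : ℕ) % (m + 4) = (m + 4) % (m + 4) := h5
          rw [Nat.mod_self, Nat.mod_eq_of_lt (by omega)] at h6
          omega)
      rwa [ek, e1, e4, e2] at h4
  have h1 : SLG (sn q (mi q)) (cyc (m + 4)) := by
    have h2 := hF.flat (s := 1) ⟨zero_le_one, le_refl 1⟩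
    rw [sub_self, zero_smul, one_smul, zero_add] at h2
    exact (slg_sn q _).2 h2
  refine ⟨q, (slg_sn_mi q).1 h1, ?_⟩
  rw [e]
  exact joined_seg fun s hs => (slg_sn q _).2 (hF.flat hs)

/-- Induction on `m`. `m = 0`: `base`. Step from `m` to `m + 1` (`m + 4` vertices): `near` gives
`p'`
without collinear triples, joined to `p`; `slg_iff`, `col_iff`, `free` give `k` with
`Fre (m + 4) (pe p') k`; let `p'' = ro (k + 2) p'`; then `Fre (m + 4) (pe p'') (m + 2)` (`pe_ro`,
`Sim.eq_of_mod`: `m + 2 + (k + 2) = k + (m + 4)`), `p''` is simple (`slg_ro`) and has no collinear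
triples (`Gen.shift`). `joined_flat` gives `q`; the induction hypothesis for `q` gives `q1` with
`Ccw q1 ∨ Ccw (rf q1)` and `JoinedIn (SS (m + 3)) q q1`, so (`joined_map`, `continuous_sn`,
`slg_sn_mi`) `JoinedIn (SS (m + 4)) (sn q (mi q)) (sn q1 (mi q1))`; then `joined_push`. So `p''` is
joined to some `q'` with `Ccw q' ∨ Ccw (rf q')`. Rotate back: `ro_back`, `joined_map` with
`continuous_ro`, `slg_ro`, `ccw_ro`, `rf_ro`. Write `SS`, `m + 1 + 3` and `m + 4` as needed
(definitional equality). -/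
theorem joined' (m : ℕ) : ∀ p : Fin (m + 3) → P, SLG p (cyc (m + 3)) →
    ∃ q : Fin (m + 3) → P, JoinedIn (SS (m + 3)) p q ∧ (Ccw q ∨ Ccw (rf q)) := by
  induction m with
  | zero => exact fun p hp => ⟨p, JoinedIn.refl hp, base hp⟩
  | succ m ih =>
    intro p hp
    obtain ⟨p', hp', hc, hj⟩ := near (n := m + 4) (p := p) hp
    have hs : Sim (m + 4) (pe p') := (slg_iff (m := m + 1) p').1 hp'
    have hg : Gen (m + 4) (pe p') := (col_iff (m := m + 1) p').1 hc
    obtain ⟨k, hk⟩ := free hs hg (by omega)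
    have e : pe (ro (m := m + 1) (k + 2) p') = fun l => pe p' (l + (k + 2)) :=
      funext fun l => pe_ro (m := m + 1) (k + 2) p' l
    have hg' : Gen (m + 4) (pe (ro (m := m + 1) (k + 2) p')) := by
      rw [e]
      exact hg.shift (k + 2)
    have e0 : pe p' (m + 2 + (k + 2)) = pe p' k := hs.eq_of_mod (by
      have : m + 2 + (k + 2) = k + (m + 4) := by omega
      rw [this]
      exact Nat.add_modEq_right)
    have e1 : pe p' (m + 2 + 1 + (k + 2)) = pe p' (k + 1) := hs.eq_of_mod (by
      have : m + 2 + 1 + (k + 2) = (k + 1) + (m + 4) := by omega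
      rw [this]
      exact Nat.add_modEq_right)
    have e2 : pe p' (m + 2 + 2 + (k + 2)) = pe p' (k + 2) := hs.eq_of_mod (by
      have : m + 2 + 2 + (k + 2) = (k + 2) + (m + 4) := by omega
      rw [this]
      exact Nat.add_modEq_right)
    have hm : ∀ l a b : ℕ, b + (m + 4) = a + (k + 2) → l + (k + 2) ≡ b [MOD m + 4] →
        l ≡ a [MOD m + 4] := by
      intro l a b h1 h2
      have h3 : l + (k + 2) ≡ a + (k + 2) [MOD m + 4] := by
        rw [← h1]
        exact h2.trans Nat.add_modEq_right.symm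
      exact Nat.ModEq.add_right_cancel' (k + 2) h3
    have hf' : Fre (m + 4) (pe (ro (m := m + 1) (k + 2) p')) (m + 2) := by
      rw [e]
      intro l h0 h1 h2
      have h3 := hk (l + (k + 2)) (fun h => h0 (hm l (m + 2) k (by omega) h))
        (fun h => h1 (hm l (m + 2 + 1) (k + 1) (by omega) h))
        (fun h => h2 (hm l (m + 2 + 2) (k + 2) (by omega) h))
      change pe p' (l + (k + 2)) ∉ TT (pe p' (m + 2 + (k + 2))) (pe p' (m + 2 + 1 + (k + 2)))
        (pe p' (m + 2 + 2 + (k + 2)))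
      rw [e0, e1, e2]
      exact h3
    obtain ⟨q, hq, hjq⟩ := joined_flat (slg_ro (m := m + 1) hp' (k + 2)) hg' hf'
    obtain ⟨q1, hj1, hc1⟩ := ih q hq
    have hj2 := joined_map continuous_sn (fun q h => (slg_sn_mi q).2 h) hj1
    obtain ⟨q', hq', hj3⟩ := joined_push hc1
    obtain ⟨r, hr⟩ := ro_back (m := m + 1) (k + 2)
    have hj4 := joined_map (continuous_ro (m := m + 1) r)
      (fun p h => slg_ro (m := m + 1) h r) ((hjq.trans hj2).trans hj3)
    rw [hr] at hj4
    refine ⟨ro (m := m + 1) r q', hj.trans hj4, ?_⟩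
    rcases hq' with h | h
    · exact Or.inl (ccw_ro (m := m + 1) h r)
    · refine Or.inr ?_
      rw [rf_ro]
      exact ccw_ro (m := m + 1) h r

end Pool.Agent.MP4eed4eX.XO
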