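import Pool.Agent.Lib.MP_4eed4e_an_XO.OQuad

set_option autoImplicit false

/-!
Project X, block O: the parity of a closed polygon.
-/

namespace Pool.Agent.MP4eed4eX.XO

open Set Pool.Agent.MP4eed4eP

private theorem OPar_tel (f : ℕ → ZMod 2) (d : ℕ) :
    ∑ l ∈ Finset.range d, (f l + f (l + 1)) = f 0 + f d := by
  induction d with
  | zero => rw [Finset.sum_range_zero, CharTwo.add_self_eq_zero]
  | succ d ih =>
    rw [Finset.sum_range_succ, ih]
    have e : f 0 + f d + (f d + f (d + 1)) = f 0 + f (d + 1) + (f d + f d) := by ring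
    rw [e, CharTwo.add_self_eq_zero, add_zero]

private theorem OPar_lin (g a b : P) (s t : ℝ) :
    lf g (s • a + t • b) = s * lf g a + t * lf g b := by
  simp only [lf, Prod.fst_add, Prod.snd_add, Prod.smul_fst, Prod.smul_snd, smul_eq_mul]
  ring

private theorem OPar_lt {g a b z : P} {c : ℝ} (hz : z ∈ segment ℝ a b) (ha : lf g a < c)
    (hb : lf g b < c) : lf g z < c := by
  obtain ⟨s, t, hs, ht, hst, rfl⟩ := hz
  rw [OPar_lin]
  rcases hs.eq_or_lt with h | h
  · have : t = 1 := by linarith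
    rw [← h, this]
    linarith
  · have h1 : s * lf g a < s * c := mul_lt_mul_of_pos_left ha h
    have h2 : t * lf g b ≤ t * c := mul_le_mul_of_nonneg_left hb.le ht
    calc s * lf g a + t * lf g b < s * c + t * c := by linarith
      _ = c := by rw [← add_mul, hst, one_mul]

private theorem OPar_ge {g a b z : P} {c : ℝ} (hz : z ∈ segment ℝ a b) (ha : c ≤ lf g a)
    (hb : c ≤ lf g b) : c ≤ lf g z := by
  obtain ⟨s, t, hs, ht, hst, rfl⟩ := hz
  rw [OPar_lin]
  have h1 : s * c ≤ s * lf g a := mul_le_mul_of_nonneg_left ha hs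
  have h2 : t * c ≤ t * lf g b := mul_le_mul_of_nonneg_left hb ht
  calc c = s * c + t * c := by rw [← add_mul, hst, one_mul]
    _ ≤ s * lf g a + t * lf g b := by linarith

private theorem OPar_cr {a b y : P} (h : (a.1 < y.1 ∧ b.1 < y.1) ∨ (y.1 < a.1 ∧ y.1 < b.1)) :
    cr a b y = 0 := by
  classical
  unfold cr
  refine if_neg ?_
  rcases h with ⟨h1, h2⟩ | ⟨h1, h2⟩
  · rintro (⟨-, h3, -⟩ | ⟨-, h3, -⟩)
    · exact lt_asymm h2 h3
    · exact lt_asymm h1 h3
  · rintro (⟨h3, -, -⟩ | ⟨h3, -, -⟩)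
    · exact absurd h1 (not_lt.2 h3)
    · exact absurd h2 (not_lt.2 h3)

/-- The parity is constant along segments which do not meet the polygon: by `quad`,
`pr q d x + pr q d y = ∑_{l < d} (hh x y (q l) + hh x y (q (l + 1))) + hh x y (q d) + hh x y (q 0)`,
and this sum telescopes to `0` in `ZMod 2`. -/
theorem pr_eq {q : ℕ → P} {d : ℕ} {x y : P}
    (h1 : ∀ l < d, Disjoint (segment ℝ (q l) (q (l + 1))) (segment ℝ x y))
    (h2 : Disjoint (segment ℝ (q d) (q 0)) (segment ℝ x y)) : pr q d x = pr q d y := by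
  rw [← CharTwo.add_eq_zero]
  have e1 : pr q d x + pr q d y =
      (∑ l ∈ Finset.range d, (cr (q l) (q (l + 1)) x + cr (q l) (q (l + 1)) y)) +
        (cr (q d) (q 0) x + cr (q d) (q 0) y) := by
    unfold pr
    rw [Finset.sum_add_distrib]
    ring
  have e2 : ∑ l ∈ Finset.range d, (cr (q l) (q (l + 1)) x + cr (q l) (q (l + 1)) y) =
      ∑ l ∈ Finset.range d, (hh x y (q l) + hh x y (q (l + 1))) :=
    Finset.sum_congr rfl fun l hl => quad (h1 l (Finset.mem_range.1 hl))
  rw [e1, e2, quad h2, OPar_tel (fun l => hh x y (q l)) d]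
  have e3 : hh x y (q 0) + hh x y (q d) + (hh x y (q d) + hh x y (q 0)) =
      (hh x y (q 0) + hh x y (q 0)) + (hh x y (q d) + hh x y (q d)) := by ring
  rw [e3, CharTwo.add_self_eq_zero, CharTwo.add_self_eq_zero, add_zero]

/-- Outside of a half plane which contains the polygon the parity is `0`. Proof: choose `w` with
`lf g w > 0` and `w.1 ≠ 0` (`w = g` if `g.1 ≠ 0`, else `w = (1, g.2)`; `g ≠ 0` by `h` for `l = 0`).
Let `y = x + t w` with `t > 0` so large that `y.1 > (q l).1` for all `l ≤ d`, or `y.1 < (q l).1` for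
all `l ≤ d` (finitely many). Then `cr (q l) (q (l + 1)) y = 0` and `cr (q d) (q 0) y = 0`. The
segment `[x, y]` is in `{lf g ≥ lf g x}` and the edges are in `{lf g < lf g x}`, so `pr_eq`. -/
theorem pr_zero {q : ℕ → P} {d : ℕ} {x g : P} (h : ∀ l ≤ d, lf g (q l) < lf g x) :
    pr q d x = 0 := by
  obtain ⟨w, hw, hw1⟩ : ∃ w : P, 0 < lf g w ∧ w.1 ≠ 0 := by
    by_cases hg : g.1 = 0
    · refine ⟨(1, g.2), ?_, one_ne_zero⟩
      have hg2 : g.2 ≠ 0 := by
        intro hg2
        have h0 := h 0 (Nat.zero_le d)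
        simp [lf, hg, hg2] at h0
      simp only [lf]
      rw [hg, zero_mul, zero_add]
      exact mul_self_pos.2 hg2
    · refine ⟨g, ?_, hg⟩
      simp only [lf]
      have := mul_self_pos.2 hg
      nlinarith [mul_self_nonneg g.2]
  set M : ℝ := ∑ l ∈ Finset.range (d + 1), |(q l).1 - x.1| with hM
  have hM0 : 0 ≤ M := Finset.sum_nonneg fun _ _ => abs_nonneg _
  have hMl : ∀ l ≤ d, |(q l).1 - x.1| ≤ M := fun l hl =>
    Finset.single_le_sum (f := fun l => |(q l).1 - x.1|) (fun _ _ => abs_nonneg _)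
      (Finset.mem_range.2 (Nat.lt_succ_of_le hl))
  have hwa : 0 < |w.1| := abs_pos.2 hw1
  set t : ℝ := (M + 1) / |w.1| with ht
  have ht0 : 0 < t := div_pos (by linarith) hwa
  have htw : t * |w.1| = M + 1 := by rw [ht]; field_simp
  set y : P := x + t • w with hy
  have hy1 : y.1 = x.1 + t * w.1 := by
    rw [hy]
    simp only [Prod.fst_add, Prod.smul_fst, smul_eq_mul]
  have hside : (∀ l ≤ d, (q l).1 < y.1) ∨ ∀ l ≤ d, y.1 < (q l).1 := by
    rcases lt_or_gt_of_ne hw1 with h1 | h1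
    · right
      intro l hl
      have h2 := abs_le.1 (hMl l hl)
      rw [abs_of_neg h1] at htw
      rw [hy1]
      linarith [h2.1]
    · left
      intro l hl
      have h2 := abs_le.1 (hMl l hl)
      rw [abs_of_pos h1] at htw
      rw [hy1]
      linarith [h2.2]
  have hcr : ∀ l ≤ d, ∀ l' ≤ d, cr (q l) (q l') y = 0 := by
    intro l hl l' hl'
    refine OPar_cr ?_
    rcases hside with h1 | h1
    · exact Or.inl ⟨h1 l hl, h1 l' hl'⟩
    · exact Or.inr ⟨h1 l hl, h1 l' hl'⟩
  have hyx : lf g x ≤ lf g y := by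
    have e : lf g y = lf g x + t * lf g w := by
      rw [hy]
      have := OPar_lin g x w 1 t
      rwa [one_smul, one_mul] at this
    rw [e]
    nlinarith
  have hdis : ∀ l ≤ d, ∀ l' ≤ d, Disjoint (segment ℝ (q l) (q l')) (segment ℝ x y) := by
    intro l hl l' hl'
    refine Set.disjoint_left.2 fun z hz hz' => ?_
    exact absurd (OPar_ge hz' le_rfl hyx) (not_le.2 (OPar_lt hz (h l hl) (h l' hl')))
  rw [pr_eq (fun l hl => hdis l hl.le (l + 1) hl) (hdis d le_rfl 0 (Nat.zero_le d))]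
  unfold pr
  rw [hcr d le_rfl 0 (Nat.zero_le d), add_zero]
  exact Finset.sum_eq_zero fun l hl =>
    hcr l (Finset.mem_range.1 hl).le (l + 1) (Finset.mem_range.1 hl)

end Pool.Agent.MP4eed4eX.XO
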