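import Pool.Agent.Lib.MP_4eed4e_an_XO.ODefs

set_option autoImplicit false

/-!
Project X, block O: the crossing parity of two disjoint segments.
-/

namespace Pool.Agent.MP4eed4eX.XO

open Set Pool.Agent.MP4eed4eP

private theorem OQuad_neg (a b x : P) : det2 (a - b) (x - b) = -det2 (b - a) (x - a) := by
  simp only [det2, Prod.fst_sub, Prod.snd_sub]
  ring

private theorem OQuad_neg' (a b x : P) : det2 (b - a) (x - a) < 0 ↔ 0 < det2 (a - b) (x - b) := by
  rw [OQuad_neg a b x, neg_pos]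

private theorem OQuad_neg'' (a b x : P) : 0 < det2 (b - a) (x - a) ↔ det2 (a - b) (x - b) < 0 := by
  rw [OQuad_neg a b x, neg_lt_zero]

theorem cr_comm (a b x : P) : cr a b x = cr b a x := by
  classical
  unfold cr
  refine if_congr ?_ rfl rfl
  rw [OQuad_neg' a b x, OQuad_neg'' a b x]
  exact or_comm

theorem cr_self (a x : P) : cr a a x = 0 := by
  classical
  unfold cr
  refine if_neg ?_
  rintro (⟨h1, h2, -⟩ | ⟨h1, h2, -⟩) <;> exact absurd h2 (not_lt.2 h1)

theorem hh_comm (x y a : P) : hh x y a = hh y x a := by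
  classical
  unfold hh
  refine if_congr ?_ rfl rfl
  rw [OQuad_neg' x y a, OQuad_neg'' x y a]
  exact or_comm

private theorem OQuad_pt {x y : P} (h : x.1 < y.1) {t : ℝ} (h1 : x.1 ≤ t) (h2 : t ≤ y.1) :
    ∃ z ∈ segment ℝ x y, z.1 = t ∧
      ∀ c : P, c.1 = t → det2 (y - x) (c - x) = (y.1 - x.1) * (c.2 - z.2) := by
  have hp : 0 < y.1 - x.1 := sub_pos.2 h
  set s : ℝ := (t - x.1) / (y.1 - x.1) with hs
  have hs0 : 0 ≤ s := div_nonneg (by linarith) hp.le
  have hs1 : s ≤ 1 := by rw [hs, div_le_one hp]; linarith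
  have hst : s * (y.1 - x.1) = t - x.1 := by rw [hs]; field_simp
  refine ⟨(1 - s) • x + s • y, ⟨1 - s, s, by linarith, hs0, by ring, rfl⟩, ?_, ?_⟩
  · simp only [Prod.fst_add, Prod.smul_fst, smul_eq_mul]
    linarith
  · intro c hc
    simp only [det2, Prod.fst_sub, Prod.snd_sub, Prod.snd_add, Prod.smul_snd, smul_eq_mul]
    rw [hc, ← hst]
    ring

private theorem OQuad_on {a b z : P} (hab : a.1 < b.1) (h1 : a.1 ≤ z.1) (h2 : z.1 ≤ b.1)
    (h0 : det2 (b - a) (z - a) = 0) : z ∈ segment ℝ a b := by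
  obtain ⟨w, hw, hw1, hw2⟩ := OQuad_pt hab h1 h2
  have h3 := hw2 z rfl
  rw [h0] at h3
  have hp : b.1 - a.1 ≠ 0 := (sub_pos.2 hab).ne'
  have h4 : z.2 - w.2 = 0 := by
    rcases mul_eq_zero.1 h3.symm with h5 | h5
    · exact absurd h5 hp
    · exact h5
  have h5 : z = w := Prod.ext hw1.symm (by linarith)
  rwa [h5]

private theorem OQuad_ne {a b u v : P} (hab : a.1 < b.1)
    (hd : Disjoint (segment ℝ a b) (segment ℝ u v)) (hu1 : a.1 ≤ u.1) (hu2 : u.1 ≤ b.1) :
    det2 (b - a) (u - a) ≠ 0 := fun h0 =>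
  Set.disjoint_left.mp hd (OQuad_on hab hu1 hu2 h0) (left_mem_segment ℝ u v)

private theorem OQuad_imp {a b u v : P} (hab : a.1 < b.1)
    (hd : Disjoint (segment ℝ a b) (segment ℝ u v)) (hu1 : a.1 ≤ u.1) (hu2 : u.1 ≤ b.1)
    (hv1 : a.1 ≤ v.1) (hv2 : v.1 ≤ b.1) (h : 0 < det2 (b - a) (u - a)) :
    0 < det2 (b - a) (v - a) := by
  by_contra hc
  rw [not_lt] at hc
  set A := det2 (b - a) (u - a) with hA
  set B := det2 (b - a) (v - a) with hB
  have hp : 0 < A - B := by linarith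
  set s : ℝ := A / (A - B) with hs
  have hs0 : 0 ≤ s := div_nonneg h.le hp.le
  have hs1 : s ≤ 1 := by rw [hs, div_le_one hp]; linarith
  have hsA : s * (A - B) = A := by rw [hs]; field_simp
  have hz : (1 - s) • u + s • v ∈ segment ℝ u v := ⟨1 - s, s, by linarith, hs0, by ring, rfl⟩
  have hz1 : ((1 - s) • u + s • v).1 = (1 - s) * u.1 + s * v.1 := by
    simp only [Prod.fst_add, Prod.smul_fst, smul_eq_mul]
  refine Set.disjoint_left.mp hd (OQuad_on hab ?_ ?_ ?_) hz
  · rw [hz1]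
    nlinarith [mul_nonneg (sub_nonneg.2 hs1) (sub_nonneg.2 hu1),
      mul_nonneg hs0 (sub_nonneg.2 hv1)]
  · rw [hz1]
    nlinarith [mul_nonneg (sub_nonneg.2 hs1) (sub_nonneg.2 hu2),
      mul_nonneg hs0 (sub_nonneg.2 hv2)]
  · have e : det2 (b - a) ((1 - s) • u + s • v - a) = (1 - s) * A + s * B := by
      rw [hA, hB]
      simp only [det2, Prod.fst_sub, Prod.snd_sub, Prod.fst_add, Prod.snd_add, Prod.smul_fst,
        Prod.smul_snd, smul_eq_mul]
      ring
    rw [e]
    linarith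

private theorem OQuad_iff {a b u v : P} (hab : a.1 < b.1)
    (hd : Disjoint (segment ℝ a b) (segment ℝ u v)) (hu1 : a.1 ≤ u.1) (hu2 : u.1 ≤ b.1)
    (hv1 : a.1 ≤ v.1) (hv2 : v.1 ≤ b.1) :
    0 < det2 (b - a) (u - a) ↔ 0 < det2 (b - a) (v - a) :=
  ⟨OQuad_imp hab hd hu1 hu2 hv1 hv2,
    OQuad_imp hab (by rwa [segment_symm ℝ v u]) hv1 hv2 hu1 hu2⟩

open Classical in
private theorem OQuad_cr {a b : P} (h : a.1 ≤ b.1) (z : P) : cr a b z =
    if a.1 ≤ z.1 ∧ z.1 < b.1 ∧ 0 < det2 (b - a) (z - a) then 1 else 0 := by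
  classical
  unfold cr
  refine if_congr ?_ rfl rfl
  constructor
  · rintro (h1 | ⟨h1, h2, -⟩)
    · exact h1
    · exact absurd (h.trans h1) (not_le.2 h2)
  · exact Or.inl

open Classical in
private theorem OQuad_hh {x y : P} (h : x.1 ≤ y.1) (z : P) : hh x y z =
    if x.1 < z.1 ∧ z.1 ≤ y.1 ∧ det2 (y - x) (z - x) < 0 then 1 else 0 := by
  classical
  unfold hh
  refine if_congr ?_ rfl rfl
  constructor
  · rintro (h1 | ⟨h1, h2, -⟩)
    · exact h1
    · exact absurd (h2.trans h) (not_le.2 h1)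
  · exact Or.inl

private theorem OQuad_two {p q : Prop} [Decidable p] [Decidable q] (h : p ↔ q) :
    (if p then (1 : ZMod 2) else 0) + (if q then 1 else 0) = 0 := by
  by_cases hp : p
  · rw [if_pos hp, if_pos (h.1 hp)]
    decide
  · rw [if_neg hp, if_neg fun hq => hp (h.2 hq), add_zero]

private theorem OQuad_core {a b x y : P} (hab : a.1 ≤ b.1) (hxy : x.1 ≤ y.1)
    (h : Disjoint (segment ℝ a b) (segment ℝ x y)) :
    cr a b x + cr a b y = hh x y a + hh x y b := by
  classical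
  rw [OQuad_cr hab, OQuad_cr hab, OQuad_hh hxy, OQuad_hh hxy]
  rcases le_or_gt b.1 x.1 with h1 | h1
  · rw [if_neg fun k => absurd k.2.1 (not_lt.2 h1),
      if_neg fun k => absurd k.2.1 (not_lt.2 (h1.trans hxy)),
      if_neg fun k => absurd k.1 (not_lt.2 (hab.trans h1)),
      if_neg fun k => absurd k.1 (not_lt.2 h1)]
  rcases lt_or_ge y.1 a.1 with h2 | h2
  · rw [if_neg fun k => absurd k.1 (not_le.2 (hxy.trans_lt h2)),
      if_neg fun k => absurd k.1 (not_le.2 h2),
      if_neg fun k => absurd k.2.1 (not_le.2 h2),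
      if_neg fun k => absurd k.2.1 (not_le.2 (h2.trans_le hab))]
  rcases le_or_gt a.1 x.1 with h3 | h3
  · have hlt : a.1 < b.1 := h3.trans_lt h1
    rw [if_neg (c := x.1 < a.1 ∧ a.1 ≤ y.1 ∧ det2 (y - x) (a - x) < 0)
      fun k => absurd k.1 (not_lt.2 h3), zero_add]
    rcases le_or_gt b.1 y.1 with h4 | h4
    · rw [if_neg (c := a.1 ≤ y.1 ∧ y.1 < b.1 ∧ 0 < det2 (b - a) (y - a))
        fun k => absurd k.2.1 (not_lt.2 h4), add_zero]
      refine if_congr ?_ rfl rfl
      have hlt' : x.1 < y.1 := h1.trans_le h4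
      obtain ⟨z, hz, hz1, hz2⟩ := OQuad_pt hlt' h1.le h4
      have hd : Disjoint (segment ℝ a b) (segment ℝ x z) :=
        h.mono_right ((convex_segment x y).segment_subset (left_mem_segment ℝ x y) hz)
      have e1 := OQuad_iff hlt hd h3 h1.le (hz1 ▸ hab) hz1.le
      have e2 := hz2 b rfl
      have e3 : det2 (b - a) (z - a) = (b.1 - a.1) * (z.2 - b.2) := by
        simp only [det2, Prod.fst_sub, Prod.snd_sub]
        rw [hz1]
        ring
      have hp : 0 < b.1 - a.1 := sub_pos.2 hlt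
      have hp' : 0 < y.1 - x.1 := sub_pos.2 hlt'
      have e4 : det2 (y - x) (b - x) < 0 ↔ 0 < det2 (b - a) (z - a) := by
        rw [e2, e3, mul_pos_iff_of_pos_left hp, ← neg_pos, ← mul_neg,
          mul_pos_iff_of_pos_left hp', neg_sub]
      exact ⟨fun k => ⟨h1, h4, e4.2 (e1.1 k.2.2)⟩, fun k => ⟨h3, h1, e1.2 (e4.1 k.2.2)⟩⟩
    · rw [if_neg (c := x.1 < b.1 ∧ b.1 ≤ y.1 ∧ det2 (y - x) (b - x) < 0)
        fun k => absurd k.2.1 (not_le.2 h4)]
      refine OQuad_two ?_
      have e1 := OQuad_iff hlt h h3 h1.le h2 h4.le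
      exact ⟨fun k => ⟨h2, h4, e1.1 k.2.2⟩, fun k => ⟨h3, h1, e1.2 k.2.2⟩⟩
  · have hlt : x.1 < y.1 := h3.trans_le h2
    rw [if_neg (c := a.1 ≤ x.1 ∧ x.1 < b.1 ∧ 0 < det2 (b - a) (x - a))
      fun k => absurd k.1 (not_le.2 h3), zero_add]
    rcases le_or_gt b.1 y.1 with h4 | h4
    · rw [if_neg (c := a.1 ≤ y.1 ∧ y.1 < b.1 ∧ 0 < det2 (b - a) (y - a))
        fun k => absurd k.2.1 (not_lt.2 h4)]
      refine (OQuad_two ?_).symm
      have e1 := OQuad_iff hlt h.symm h3.le h2 h1.le h4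
      have n1 := OQuad_ne hlt h.symm h3.le h2
      have n2 := OQuad_ne (u := b) (v := a) hlt (by rw [segment_symm ℝ b a]; exact h.symm) h1.le h4
      exact ⟨fun k => ⟨h1, h4, lt_of_le_of_ne (not_lt.1 fun j => absurd (e1.2 j)
        (not_lt.2 k.2.2.le)) n2⟩, fun k => ⟨h3, h2, lt_of_le_of_ne (not_lt.1 fun j =>
        absurd (e1.1 j) (not_lt.2 k.2.2.le)) n1⟩⟩
    · rw [if_neg (c := x.1 < b.1 ∧ b.1 ≤ y.1 ∧ det2 (y - x) (b - x) < 0)
        fun k => absurd k.2.1 (not_le.2 h4), add_zero]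
      refine if_congr ?_ rfl rfl
      have hlt' : a.1 < b.1 := h2.trans_lt h4
      obtain ⟨z, hz, hz1, hz2⟩ := OQuad_pt hlt h3.le h2
      have hd : Disjoint (segment ℝ a b) (segment ℝ z y) :=
        h.mono_right ((convex_segment x y).segment_subset hz (right_mem_segment ℝ x y))
      have e1 := OQuad_iff hlt' hd hz1.ge (hz1 ▸ hab) h2 h4.le
      have e2 := hz2 a rfl
      have e3 : det2 (b - a) (z - a) = (b.1 - a.1) * (z.2 - a.2) := by
        simp only [det2, Prod.fst_sub, Prod.snd_sub]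
        rw [hz1]
        ring
      have hp : 0 < b.1 - a.1 := sub_pos.2 hlt'
      have hp' : 0 < y.1 - x.1 := sub_pos.2 hlt
      have e4 : det2 (y - x) (a - x) < 0 ↔ 0 < det2 (b - a) (z - a) := by
        rw [e2, e3, mul_pos_iff_of_pos_left hp, ← neg_pos, ← mul_neg,
          mul_pos_iff_of_pos_left hp', neg_sub]
      exact ⟨fun k => ⟨h3, h2, e4.2 (e1.2 k.2.2)⟩, fun k => ⟨h2, h4, e1.1 (e4.1 k.2.2)⟩⟩

/-- QUADRILATERAL LEMMA. By `cr_comm`, `hh_comm` (and commutativity of the sums) we may assume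
`a.1 ≤ b.1` and `x.1 ≤ y.1`. Compare `a.1, b.1` with `x.1, y.1` by the relation `a.1 ≤ x.1` (ties:
`a, b` come before `x, y`). In the orders `a b x y` and `x y a b` all four terms are `0`. In the other
orders exactly two of the terms can be different from `0`, and they are equal because the segments
are disjoint:
* `a x b y` (`a.1 ≤ x.1 < b.1 ≤ y.1`): `x` above `a b` iff `b` below `x y`;
* `a x y b` (`a.1 ≤ x.1 ≤ y.1 < b.1`): `x` above `a b` iff `y` above `a b`;
* `x a b y` (`x.1 < a.1 ≤ b.1 ≤ y.1`): `a` below `x y` iff `b` below `x y`;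
* `x a y b` (`x.1 < a.1 ≤ y.1 < b.1`): `y` above `a b` iff `a` below `x y`.
In every case let `[t0, t1]` be the interval between the two middle abscissae. If both segments are
not vertical, the difference `D(t)` of the heights of the line `x y` and of the line `a b` is affine
on `[t0, t1]`, and a zero of `D` is a common point of the two segments; so `D` has no zero and the
signs at `t0` and `t1` agree; at `t0` and `t1` the sign of `D` is the sign of the determinant in the
definition (e.g. `D (x.1) = det2 (b - a) (x - a) / (b.1 - a.1)`,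
`D (b.1) = - det2 (y - x) (b - x) / (y.1 - x.1)`). If `[x, y]` is vertical (`x.1 = y.1`), only the
case `a x y b` is possible, and if `x`, `y` were on different sides of the line `a b` (or one of them
on it) the point of the line `a b` with the abscissa `x.1` would be in both segments. In the same way
if `[a, b]` is vertical, only `x a b y` is possible. -/
theorem quad {a b x y : P} (h : Disjoint (segment ℝ a b) (segment ℝ x y)) :
    cr a b x + cr a b y = hh x y a + hh x y b := by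
  rcases le_total a.1 b.1 with h1 | h1 <;> rcases le_total x.1 y.1 with h2 | h2
  · exact OQuad_core h1 h2 h
  · rw [hh_comm x y a, hh_comm x y b, add_comm (cr a b x)]
    exact OQuad_core h1 h2 (by rwa [segment_symm ℝ y x])
  · rw [cr_comm a b x, cr_comm a b y, add_comm (hh x y a)]
    exact OQuad_core h1 h2 (by rwa [segment_symm ℝ b a])
  · rw [hh_comm x y a, hh_comm x y b, cr_comm a b x, cr_comm a b y, add_comm (cr b a x),
      add_comm (hh y x a)]
    exact OQuad_core h1 h2 (by rwa [segment_symm ℝ y x, segment_symm ℝ b a])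

end Pool.Agent.MP4eed4eX.XO
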