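import Pool.Agent.Lib.MP_4eed4e_an_XO.ODefs

set_option autoImplicit false

/-!
Project X, block O: `SLG p (cyc n)` in terms of the periodic sequence and in explicit form.
-/

namespace Pool.Agent.MP4eed4eX.XO

open Set Pool.Agent.MP4eed4eP

private theorem pe_val {m : ℕ} (p : Fin (m + 3) → P) (i : Fin (m + 3)) :
    pe p (i : ℕ) = p i := by
  unfold pe
  congr 1
  apply Fin.ext
  simp [Fin.ofNat, Nat.mod_eq_of_lt i.2]

private theorem ofNat_eq_iff {m : ℕ} (a b : ℕ) :
    Fin.ofNat (m + 3) a = Fin.ofNat (m + 3) b ↔ a ≡ b [MOD (m + 3)] := by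
  rw [Fin.ext_iff]
  exact Iff.rfl

private theorem pe_congr {m : ℕ} (p : Fin (m + 3) → P) {a b : ℕ}
    (h : a ≡ b [MOD (m + 3)]) : pe p a = pe p b := by
  unfold pe
  rw [(ofNat_eq_iff a b).2 h]

/-- The edge of `cyc (m + 3)` which belongs to the edge `l` of the periodic sequence. -/
private def ed (m l : ℕ) : Fin (m + 3) × Fin (m + 3) :=
  if h : l % (m + 3) + 1 < m + 3 then (⟨l % (m + 3), by omega⟩, ⟨l % (m + 3) + 1, h⟩)
  else (⟨0, by omega⟩, ⟨m + 2, by omega⟩)

private theorem ed_mem (m l : ℕ) : ed m l ∈ cyc (m + 3) := by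
  unfold ed cyc
  split_ifs with h
  · refine Finset.mem_filter.2 ⟨Finset.mem_univ _, ?_, Or.inl rfl⟩
    exact Nat.lt_succ_self (l % (m + 3))
  · refine Finset.mem_filter.2 ⟨Finset.mem_univ _, ?_, Or.inr ⟨rfl, rfl⟩⟩
    exact Nat.succ_pos (m + 1)

private theorem ed_seg {m : ℕ} (p : Fin (m + 3) → P) (l : ℕ) :
    openSegment ℝ (p (ed m l).1) (p (ed m l).2) = openSegment ℝ (pe p l) (pe p (l + 1)) := by
  have hl : l % (m + 3) < m + 3 := Nat.mod_lt _ (by omega)
  unfold ed
  split_ifs with h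
  · have e1 : p ⟨l % (m + 3), hl⟩ = pe p l := by
      rw [← pe_val p]
      exact pe_congr p (Nat.mod_modEq _ _)
    have e2 : p ⟨l % (m + 3) + 1, h⟩ = pe p (l + 1) := by
      rw [← pe_val p]
      exact pe_congr p ((Nat.mod_modEq _ _).add_right 1)
    simp only [e1, e2]
  · have hm : l % (m + 3) = m + 2 := by omega
    have e1 : p ⟨m + 2, by omega⟩ = pe p l := by
      rw [← pe_val p]
      apply pe_congr p
      show (m + 2) % (m + 3) = l % (m + 3)
      rw [hm, Nat.mod_eq_of_lt (by omega)]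
    have e2 : p ⟨0, by omega⟩ = pe p (l + 1) := by
      rw [← pe_val p]
      apply pe_congr p
      show 0 % (m + 3) = (l + 1) % (m + 3)
      rw [Nat.add_mod, hm, Nat.mod_eq_of_lt (show 1 < m + 3 by omega),
        show m + 2 + 1 = m + 3 by ring, Nat.mod_self, Nat.zero_mod]
    simp only [e1, e2]
    exact openSegment_symm _ _ _

private theorem ed_inj {m l l' : ℕ} (h : ed m l = ed m l') : l ≡ l' [MOD (m + 3)] := by
  have hl : l % (m + 3) < m + 3 := Nat.mod_lt _ (by omega)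
  have hl' : l' % (m + 3) < m + 3 := Nat.mod_lt _ (by omega)
  show l % (m + 3) = l' % (m + 3)
  unfold ed at h
  split_ifs at h with h1 h2 h2 <;> simp only [Prod.mk.injEq, Fin.mk.injEq] at h <;> omega

private theorem ed_congr {m l l' : ℕ} (h : l ≡ l' [MOD (m + 3)]) : ed m l = ed m l' := by
  have h' : l % (m + 3) = l' % (m + 3) := h
  unfold ed
  simp only [h']

private theorem ed_surj {m : ℕ} {e : Fin (m + 3) × Fin (m + 3)} (he : e ∈ cyc (m + 3)) :
    ∃ l, ed m l = e := by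
  unfold cyc at he
  simp only [Finset.mem_filter, Finset.mem_univ, true_and] at he
  obtain ⟨h1, h2⟩ := he
  obtain ⟨a, b⟩ := e
  simp only at h1 h2
  rcases h2 with h2 | ⟨h2, h3⟩
  · refine ⟨(a : ℕ), ?_⟩
    have hb := b.2
    have ha : (a : ℕ) % (m + 3) = a := Nat.mod_eq_of_lt a.2
    unfold ed
    rw [dif_pos (by omega)]
    simp only [Prod.mk.injEq, Fin.ext_iff]
    omega
  · refine ⟨m + 2, ?_⟩
    have ha : (m + 2) % (m + 3) = m + 2 := Nat.mod_eq_of_lt (by omega)
    unfold ed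
    rw [dif_neg (by omega)]
    simp only [Prod.mk.injEq, Fin.ext_iff]
    omega

/-- The edges of `cyc (m + 3)` are the pairs `(i, i + 1)` and the pair `(0, m + 2)`; the edge
`l` of the sequence `pe p` is `[p i, p (i + 1)]` with `i = l % (m + 3)` if `i < m + 2` and
`[p (m + 2), p 0]` (`openSegment_symm`) if `i = m + 2`. -/
theorem slg_iff {m : ℕ} (p : Fin (m + 3) → P) : SLG p (cyc (m + 3)) ↔ Sim (m + 3) (pe p) := by
  constructor
  · intro h
    refine ⟨fun l => pe_congr p (by simp [Nat.ModEq]), fun a b hab => ?_, fun l k => ?_,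
      fun l l' hl => ?_⟩
    · exact (ofNat_eq_iff a b).1 (h.inj hab)
    · rw [← ed_seg p l]
      exact h.vert _ (ed_mem m l) _
    · rw [← ed_seg p l, ← ed_seg p l']
      exact h.disj _ (ed_mem m l) _ (ed_mem m l') (fun hh => hl (ed_inj hh))
  · intro h
    refine ⟨fun i j hij => ?_, fun e he => ?_, fun e he k => ?_, fun e he f hf hne => ?_⟩
    · rw [← pe_val p i, ← pe_val p j] at hij
      have h1 : (i : ℕ) % (m + 3) = (j : ℕ) % (m + 3) := h.inj _ _ hij
      rw [Nat.mod_eq_of_lt i.2, Nat.mod_eq_of_lt j.2] at h1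
      exact Fin.ext h1
    · unfold cyc at he
      exact (Finset.mem_filter.1 he).2.1
    · obtain ⟨l, rfl⟩ := ed_surj he
      rw [ed_seg p l, ← pe_val p k]
      exact h.vert l k
    · obtain ⟨l, rfl⟩ := ed_surj he
      obtain ⟨l', rfl⟩ := ed_surj hf
      rw [ed_seg p l, ed_seg p l']
      exact h.disj l l' (fun hh => hne (ed_congr hh))

theorem col_iff {m : ℕ} (p : Fin (m + 3) → P) : ¬ Col p ↔ Gen (m + 3) (pe p) := by
  constructor
  · intro h a b c h1 h2 h3 h0
    exact h ⟨Fin.ofNat (m + 3) a, Fin.ofNat (m + 3) b, Fin.ofNat (m + 3) c,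
      fun hh => h1 ((ofNat_eq_iff a b).1 hh), fun hh => h2 ((ofNat_eq_iff b c).1 hh),
      fun hh => h3 ((ofNat_eq_iff a c).1 hh), h0⟩
  · rintro h ⟨i, j, k, h1, h2, h3, h0⟩
    have key : ∀ {a b : Fin (m + 3)}, a ≠ b → ¬ (a : ℕ) ≡ (b : ℕ) [MOD (m + 3)] := by
      intro a b hab hh
      have h1 : (a : ℕ) % (m + 3) = (b : ℕ) % (m + 3) := hh
      rw [Nat.mod_eq_of_lt a.2, Nat.mod_eq_of_lt b.2] at h1
      exact hab (Fin.ext h1)
    refine h i j k (key h1) (key h2) (key h3) ?_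
    rw [pe_val, pe_val, pe_val]
    exact h0

end Pool.Agent.MP4eed4eX.XO
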