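import Pool.Agent.Lib.MP_4eed4e_an_XO.ODefs

set_option autoImplicit false

/-!
Project X, block O: explicit forms of `SLG q (cyc n)`.
-/

namespace Pool.Agent.MP4eed4eX.XO

open Set Pool.Agent.MP4eed4eP

private theorem osnc_mem {n : ℕ} {e : Fin n × Fin n} : e ∈ cyc n ↔ e.1 < e.2 ∧
    ((e.2 : ℕ) = (e.1 : ℕ) + 1 ∨ ((e.1 : ℕ) = 0 ∧ (e.2 : ℕ) + 1 = n)) := by
  unfold cyc
  rw [Finset.mem_filter]
  exact ⟨fun h => h.2, fun h => ⟨Finset.mem_univ _, h⟩⟩

private theorem osnc_cases {m : ℕ} {e : Fin (m + 3) × Fin (m + 3)} (he : e ∈ cyc (m + 3)) :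
    ((e.2 : ℕ) = (e.1 : ℕ) + 1) ∨ e = (0, Fin.last (m + 2)) := by
  obtain ⟨-, h | h⟩ := osnc_mem.1 he
  · exact Or.inl h
  · right
    ext
    · exact h.1
    · have := h.2
      simp only [Fin.val_last]
      omega

private theorem osnc_old {m : ℕ} {i j : Fin (m + 3)} (h : (j : ℕ) = i + 1) :
    (i, j) ∈ cyc (m + 3) := by
  rw [osnc_mem]
  refine ⟨?_, Or.inl h⟩
  rw [Fin.lt_def]
  simp only
  omega

private theorem osnc_last {m : ℕ} : ((0 : Fin (m + 3)), Fin.last (m + 2)) ∈ cyc (m + 3) := by
  rw [osnc_mem]
  refine ⟨?_, Or.inr ⟨rfl, rfl⟩⟩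
  rw [Fin.lt_def]
  simp

/-- The edges of `cyc (m + 3)` are the pairs `(i, j)` with `j = i + 1` and the pair
`(0, m + 2)`; use `openSegment_symm` for the last one. -/
theorem slg_snq {m : ℕ} (q : Fin (m + 3) → P) : SLG q (cyc (m + 3)) ↔ Snq q := by
  constructor
  · intro h
    refine ⟨h.inj, fun i j hij k => h.vert (i, j) (osnc_old hij) k, ?_, ?_, ?_⟩
    · intro i j i' j' hij hij' hne
      refine h.disj (i, j) (osnc_old hij) (i', j') (osnc_old hij') ?_
      intro he
      exact hne (congrArg Prod.fst he)
    · intro k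
      rw [openSegment_symm]
      exact h.vert (0, Fin.last (m + 2)) osnc_last k
    · intro i j hij
      rw [openSegment_symm ℝ (q (Fin.last (m + 2)))]
      refine h.disj (i, j) (osnc_old hij) (0, Fin.last (m + 2)) osnc_last ?_
      intro he
      have h1 : i = 0 := congrArg Prod.fst he
      have h2 : j = Fin.last (m + 2) := congrArg Prod.snd he
      subst h1 h2
      simp at hij
  · intro h
    refine ⟨h.inj, fun e he => (osnc_mem.1 he).1, ?_, ?_⟩
    · intro e he k
      rcases osnc_cases he with h1 | h1
      · exact h.vert _ _ h1 k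
      · subst h1
        rw [openSegment_symm]
        exact h.v0 k
    · intro e he f hf hne
      rcases osnc_cases he with h1 | h1 <;> rcases osnc_cases hf with h2 | h2
      · refine h.disj _ _ _ _ h1 h2 ?_
        intro h3
        apply hne
        ext
        · rw [h3]
        · rw [h1, h2, h3]
      · subst h2
        simp only
        rw [openSegment_symm ℝ (q 0)]
        exact h.d0 _ _ h1
      · subst h1
        simp only
        rw [openSegment_symm ℝ (q 0)]
        exact (h.d0 _ _ h2).symm
      · exact absurd (h1.trans h2.symm) hne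

private theorem sn_old {m : ℕ} (q : Fin (m + 3) → P) (z : P) (i : Fin (m + 3)) :
    sn q z i.castSucc = q i := by
  unfold sn
  rw [dif_pos (by simp)]
  rfl

private theorem sn_last {m : ℕ} (q : Fin (m + 3) → P) (z : P) :
    sn q z (Fin.last (m + 3)) = z := by
  unfold sn
  rw [dif_neg (by simp)]

private theorem sn_zero {m : ℕ} (q : Fin (m + 3) → P) (z : P) : sn q z 0 = q 0 := sn_old q z 0

private theorem osnc_cases' {m : ℕ} {e : Fin (m + 4) × Fin (m + 4)} (he : e ∈ cyc (m + 4)) :
    (∃ i j : Fin (m + 3), (j : ℕ) = i + 1 ∧ e = (i.castSucc, j.castSucc)) ∨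
      e = ((Fin.last (m + 2)).castSucc, Fin.last (m + 3)) ∨ e = (0, Fin.last (m + 3)) := by
  obtain ⟨hlt, h⟩ := osnc_mem.1 he
  have h1 := e.1.2
  have h2 := e.2.2
  rcases h with h | h
  · by_cases hb : (e.2 : ℕ) < m + 3
    · left
      refine ⟨⟨e.1, by omega⟩, ⟨e.2, hb⟩, h, ?_⟩
      ext <;> rfl
    · right; left
      ext
      · simp only [Fin.val_castSucc, Fin.val_last]
        omega
      · simp only [Fin.val_last]
        omega
  · right; right
    ext
    · exact h.1
    · simp only [Fin.val_last]
      omega

private theorem osnc_old' {m : ℕ} {i j : Fin (m + 3)} (h : (j : ℕ) = i + 1) :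
    (i.castSucc, j.castSucc) ∈ cyc (m + 4) := by
  rw [osnc_mem]
  refine ⟨?_, Or.inl h⟩
  rw [Fin.lt_def]
  simp only [Fin.val_castSucc]
  omega

private theorem osnc_last1 {m : ℕ} :
    ((Fin.last (m + 2)).castSucc, Fin.last (m + 3)) ∈ cyc (m + 4) := by
  rw [osnc_mem]
  refine ⟨?_, Or.inl rfl⟩
  rw [Fin.lt_def]
  simp

private theorem osnc_last2 {m : ℕ} : ((0 : Fin (m + 4)), Fin.last (m + 3)) ∈ cyc (m + 4) := by
  rw [osnc_mem]
  refine ⟨?_, Or.inr ⟨rfl, rfl⟩⟩
  rw [Fin.lt_def]
  simp

/-- The edges of `cyc (m + 4)` are the pairs `(i, i + 1)`, `i < m + 2`, the pair `(m + 2, m + 3)`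
and the pair `(0, m + 3)`; `sn q z` has the values `q i` (`i < m + 3`) and `z` (`i = m + 3`). -/
theorem slg_sn {m : ℕ} (q : Fin (m + 3) → P) (z : P) :
    SLG (sn q z) (cyc (m + 4)) ↔ Snc q z := by
  constructor
  · intro h
    refine ⟨?_, ?_, ?_, ?_, ?_, ?_, ?_, ?_, ?_, ?_⟩
    · intro i j hij
      have := h.inj (a₁ := i.castSucc) (a₂ := j.castSucc) (by rw [sn_old, sn_old, hij])
      exact Fin.castSucc_injective _ this
    · intro i hi
      have := h.inj (a₁ := i.castSucc) (a₂ := Fin.last (m + 3)) (by rw [sn_old, sn_last, hi])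
      exact absurd this (Fin.castSucc_ne_last i)
    · intro i j hij k
      have := h.vert _ (osnc_old' hij) k.castSucc
      simpa only [sn_old] using this
    · intro i j i' j' hij hij' hne
      have := h.disj _ (osnc_old' hij) _ (osnc_old' hij') (fun he =>
        hne (Fin.castSucc_injective _ (congrArg Prod.fst he)))
      simpa only [sn_old] using this
    · intro i j hij
      have := h.vert _ (osnc_old' hij) (Fin.last (m + 3))
      simpa only [sn_old, sn_last] using this
    · intro k
      have := h.vert _ osnc_last1 k.castSucc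
      simpa only [sn_old, sn_last] using this
    · intro k
      have := h.vert _ osnc_last2 k.castSucc
      rw [openSegment_symm]
      simpa only [sn_old, sn_last, sn_zero] using this
    · intro i j hij
      have := h.disj _ (osnc_old' hij) _ osnc_last1 (fun he =>
        Fin.castSucc_ne_last j (congrArg Prod.snd he))
      simpa only [sn_old, sn_last] using this
    · intro i j hij
      have := h.disj _ (osnc_old' hij) _ osnc_last2 (fun he =>
        Fin.castSucc_ne_last j (congrArg Prod.snd he))
      rw [openSegment_symm ℝ z]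
      simpa only [sn_old, sn_last, sn_zero] using this
    · have := h.disj _ osnc_last1 _ osnc_last2 (fun he => by
        have h1 : (Fin.last (m + 2)).castSucc = (0 : Fin (m + 4)) := congrArg Prod.fst he
        have h2 := congrArg Fin.val h1
        simp at h2)
      rw [openSegment_symm ℝ z]
      simpa only [sn_old, sn_last, sn_zero] using this
  · intro h
    refine ⟨?_, fun e he => (osnc_mem.1 he).1, ?_, ?_⟩
    · intro a b hab
      refine Fin.lastCases ?_ (fun a => ?_) a hab
      · refine fun hab => Fin.lastCases (fun _ => rfl) (fun b hab => ?_) b hab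
        rw [sn_last, sn_old] at hab
        exact absurd hab.symm (h.nez b)
      · refine fun hab => Fin.lastCases (fun hab => ?_) (fun b hab => ?_) b hab
        · rw [sn_last, sn_old] at hab
          exact absurd hab (h.nez a)
        · rw [sn_old, sn_old] at hab
          rw [h.inj hab]
    · intro e he k
      rcases osnc_cases' he with ⟨i, j, hij, rfl⟩ | rfl | rfl
      · simp only [sn_old]
        refine Fin.lastCases ?_ (fun k => ?_) k
        · rw [sn_last]; exact h.vz i j hij
        · rw [sn_old]; exact h.vert i j hij k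
      · simp only [sn_old, sn_last]
        refine Fin.lastCases ?_ (fun k => ?_) k
        · rw [sn_last]
          intro hz
          exact h.nez _ (right_mem_openSegment_iff.1 hz)
        · rw [sn_old]; exact h.v1 k
      · simp only [sn_zero, sn_last]
        refine Fin.lastCases ?_ (fun k => ?_) k
        · rw [sn_last]
          intro hz
          exact h.nez _ (right_mem_openSegment_iff.1 hz)
        · rw [sn_old, openSegment_symm]; exact h.v2 k
    · intro e he f hf hne
      rcases osnc_cases' he with ⟨i, j, hij, rfl⟩ | rfl | rfl <;>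
        rcases osnc_cases' hf with ⟨i', j', hij', rfl⟩ | rfl | rfl
      · simp only [sn_old]
        refine h.disj i j i' j' hij hij' ?_
        intro hi
        apply hne
        subst hi
        have : j = j' := Fin.ext (by omega)
        rw [this]
      · simp only [sn_old, sn_last]
        exact h.d1 i j hij
      · simp only [sn_old, sn_last, sn_zero]
        rw [openSegment_symm ℝ (q 0)]
        exact h.d2 i j hij
      · simp only [sn_old, sn_last]
        exact (h.d1 i' j' hij').symm
      · exact absurd rfl hne
      · simp only [sn_old, sn_last, sn_zero]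
        rw [openSegment_symm ℝ (q 0)]
        exact h.d3
      · simp only [sn_old, sn_last, sn_zero]
        rw [openSegment_symm ℝ (q 0)]
        exact (h.d2 i' j' hij').symm
      · simp only [sn_old, sn_last, sn_zero]
        rw [openSegment_symm ℝ (q 0)]
        exact h.d3.symm
      · exact absurd rfl hne

end Pool.Agent.MP4eed4eX.XO
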